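import Pool.Agent.H.MP_e9f8c5_pr.Defs

set_option autoImplicit false

open scoped Topology
open Filter Set

namespace Pool.Agent.H.MP_e9f8c5_pr

theorem cluster_props {M : Type*} [MetricSpace M] (u : ℕ → M) (K : Set M) (hK : IsCompact K)
    (hu : ∀ n, u n ∈ K) (hstep : Tendsto (fun n => dist (u n) (u (n + 1))) atTop (𝓝 0)) :
    IsCompact {z | MapClusterPt z atTop u} ∧ IsPreconnected {z | MapClusterPt z atTop u} ∧
    {z | MapClusterPt z atTop u}.Nonempty ∧
    ((∀ z z', MapClusterPt z atTop u → MapClusterPt z' atTop u → z = z') →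
      ∃ z, Tendsto u atTop (𝓝 z)) := by
  set Ω : Set M := {z | MapClusterPt z atTop u} with hΩ
  have hmemΩ : ∀ z, z ∈ Ω ↔ MapClusterPt z atTop u := fun z => Iff.rfl
  have hΩcl : IsClosed Ω := isClosed_setOfPred_clusterPt
  have hKcl : IsClosed K := hK.isClosed
  have hΩK : Ω ⊆ K := fun z hz =>
    hKcl.mem_of_mapClusterPt hz (Eventually.of_forall hu)
  have hΩc : IsCompact Ω := hK.of_isClosed_subset hΩcl hΩK
  have hne : Ω.Nonempty := by
    obtain ⟨z, hzK, hz⟩ := hK.exists_mapClusterPt (f := atTop) (u := u)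
      (by rw [le_principal_iff]; exact Filter.mem_map.2 (Eventually.of_forall hu))
    exact ⟨z, hz⟩
  refine ⟨hΩc, ?_, hne, ?_⟩
  · rw [isPreconnected_closed_iff]
    intro t t' ht ht' hcov hA hB
    by_contra hcon
    have hAB : Disjoint (Ω ∩ t) (Ω ∩ t') := by
      rw [Set.disjoint_left]
      intro x hx hx'
      exact hcon ⟨x, hx.1, hx.2, hx'.2⟩
    have hAc : IsCompact (Ω ∩ t) := hΩc.inter_right ht
    have hBc : IsCompact (Ω ∩ t') := hΩc.inter_right ht'
    obtain ⟨δ, hδ, hdis⟩ := hAB.exists_thickenings hAc hBc.isClosed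
    have hsub : Ω ⊆ Metric.thickening (δ / 2) (Ω ∩ t) ∪ Metric.thickening (δ / 2) (Ω ∩ t') := by
      intro x hx
      rcases hcov hx with h | h
      · exact Or.inl (Metric.self_subset_thickening (by positivity) _ ⟨hx, h⟩)
      · exact Or.inr (Metric.self_subset_thickening (by positivity) _ ⟨hx, h⟩)
    have hopen : IsOpen (Metric.thickening (δ / 2) (Ω ∩ t) ∪
        Metric.thickening (δ / 2) (Ω ∩ t')) :=
      Metric.isOpen_thickening.union Metric.isOpen_thickening
    have hev : ∀ᶠ n in atTop, u n ∈ Metric.thickening (δ / 2) (Ω ∩ t) ∪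
        Metric.thickening (δ / 2) (Ω ∩ t') := by
      by_contra hnot
      rw [Filter.not_eventually] at hnot
      obtain ⟨z, hz, hzc⟩ := (hK.diff hopen).exists_mapClusterPt_of_frequently
        (hnot.mono fun n hn => ⟨hu n, hn⟩)
      exact hz.2 (hsub hzc)
    have hst : ∀ᶠ n in atTop, dist (u n) (u (n + 1)) < δ / 2 :=
      (hstep.eventually_lt_const (by positivity))
    obtain ⟨N, hN⟩ := eventually_atTop.1 (hev.and hst)
    have hfA : ∃ᶠ n in atTop, u n ∈ Metric.thickening (δ / 2) (Ω ∩ t) := by
      obtain ⟨a, ha⟩ := hA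
      exact ((hmemΩ a).1 ha.1).frequently (Metric.isOpen_thickening.mem_nhds
        (Metric.self_subset_thickening (by positivity) _ ha))
    have hfB : ∃ᶠ n in atTop, u n ∈ Metric.thickening (δ / 2) (Ω ∩ t') := by
      obtain ⟨a, ha⟩ := hB
      exact ((hmemΩ a).1 ha.1).frequently (Metric.isOpen_thickening.mem_nhds
        (Metric.self_subset_thickening (by positivity) _ ha))
    obtain ⟨n0, hn0, hn0A⟩ := (frequently_atTop.1 hfA) N
    have hall : ∀ n, n0 ≤ n → u n ∈ Metric.thickening (δ / 2) (Ω ∩ t) := by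
      intro n hn
      induction n, hn using Nat.le_induction with
      | base => exact hn0A
      | succ n hn ih =>
        rcases (hN (n + 1) (by omega)).1 with h | h
        · exact h
        · exfalso
          have h1 : u (n + 1) ∈ Metric.thickening δ (Ω ∩ t') :=
            Metric.thickening_mono (by linarith) _ h
          have h2 : u (n + 1) ∈ Metric.thickening δ (Ω ∩ t) := by
            rw [Metric.mem_thickening_iff] at ih ⊢
            obtain ⟨a, ha, hd⟩ := ih
            refine ⟨a, ha, ?_⟩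
            have h3 := (hN n (by omega)).2
            calc dist (u (n + 1)) a ≤ dist (u (n + 1)) (u n) + dist (u n) a := dist_triangle _ _ _
              _ < δ / 2 + δ / 2 := by rw [dist_comm (u (n + 1))]; exact add_lt_add h3 hd
              _ = δ := by ring
          exact Set.disjoint_left.1 hdis h2 h1
    obtain ⟨n1, hn1, hn1B⟩ := (frequently_atTop.1 hfB) n0
    have h1 := Metric.thickening_mono (by linarith : δ / 2 ≤ δ) _ hn1B
    have h2 := Metric.thickening_mono (by linarith : δ / 2 ≤ δ) _ (hall n1 hn1)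
    exact Set.disjoint_left.1 hdis h2 h1
  · intro huniq
    obtain ⟨z, hz⟩ := hne
    refine ⟨z, ?_⟩
    exact hK.tendsto_nhds_of_unique_mapClusterPt (Eventually.of_forall hu)
      (fun y _ hy => huniq y z hy hz)

end Pool.Agent.H.MP_e9f8c5_pr
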