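import Pool.Agent.H.MP_e9f8c5_pr.Defs

set_option autoImplicit false

open scoped Topology
open Filter Set

namespace Pool.Agent.H.MP_e9f8c5_pr

theorem pw_smul (n : ℕ) (r : ℝ) (u : X) : pw n (r • u) = r ^ (n + 1) • pw n u := by
  refine extX (fun k => ?_)
  rw [pw_apply]
  simp only [lp.coeFn_smul, Pi.smul_apply, smul_eq_mul, pw_apply, mul_pow]

theorem Q_smul (c : ℕ) (r : ℝ) (u : X) : Q c (r • u) = r ^ (c + 3) * Q c u := by
  unfold Q
  rw [pw_smul, inner_smul_left, inner_smul_right]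
  simp only [conj_trivial]
  ring

theorem Q_eq (c : ℕ) (u : X) : Q c u = ∑' k, u k ^ (c + 3) := by
  unfold Q
  rw [inner_eq]
  congr 1; ext k; rw [pw_apply]; ring

theorem summable_Q (c : ℕ) (u : X) : Summable (fun k => u k ^ (c + 3)) := by
  have := summable_mul u (pw (c + 1) u)
  refine this.congr (fun k => ?_)
  rw [pw_apply]; ring

/-- the assumptions on the normalised sequence -/
structure Iter (c : ℕ) (p : ℕ → X) (J : ℕ → ℝ) (b : ℤ → ℝ) : Prop where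
  nonneg : ∀ n k, 0 ≤ p n k
  Q_one : ∀ n, Q c (p n) = 1
  J_pos : ∀ n, 0 < J n
  J_mono : Monotone J
  J_le : ∀ n, J n ≤ 3
  step : ∀ n, A (pw (c + 1) (p n)) = J n • p (n + 1)
  deficit : ∀ n, ∑' k, ((p n k) ^ (c + 1) + (p (n + 2) k) ^ (c + 1)) * (p (n + 2) k - p n k) ^ 2
        ≤ (c + 3 : ℝ) * (1 - J n / J (n + 1))
  b_sum : Summable (fun k => b k ^ 2)
  b_bound : ∀ n k, |p (n + 1) k| ≤ b k

variable {c : ℕ} {p : ℕ → X} {J : ℕ → ℝ} {b : ℤ → ℝ}

theorem Iter.le_one (h : Iter c p J b) (n : ℕ) (k : ℤ) : p n k ≤ 1 := by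
  have h1 : (p n k) ^ (c + 3) ≤ ∑' k, (p n k) ^ (c + 3) :=
    (summable_Q c (p n)).le_tsum k (fun j _ => pow_nonneg (h.nonneg n j) _)
  rw [← Q_eq, h.Q_one] at h1
  exact (pow_le_one_iff_of_nonneg (h.nonneg n k) (by omega)).1 h1

/-- limit of `J` -/
theorem Iter.exists_lam (h : Iter c p J b) :
    ∃ lam : ℝ, 0 < lam ∧ Tendsto J atTop (𝓝 lam) ∧ ∀ n, J n ≤ lam := by
  have hb : BddAbove (range J) := ⟨3, by rintro _ ⟨n, rfl⟩; exact h.J_le n⟩
  refine ⟨⨆ n, J n, ?_, tendsto_atTop_ciSup h.J_mono hb, fun n => le_ciSup hb n⟩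
  exact lt_of_lt_of_le (h.J_pos 0) (le_ciSup hb 0)

/-- the energy gap -/
noncomputable def eps (c : ℕ) (lam : ℝ) (J : ℕ → ℝ) (n : ℕ) : ℝ :=
  1 - (J n) ^ (c + 3) / lam ^ (c + 3)

theorem Iter.eps_nonneg (h : Iter c p J b) {lam : ℝ} (hl : 0 < lam) (hJ : ∀ n, J n ≤ lam)
    (n : ℕ) : 0 ≤ eps c lam J n := by
  unfold eps
  rw [sub_nonneg, div_le_one (by positivity)]
  exact pow_le_pow_left₀ (h.J_pos n).le (hJ n) _

theorem Iter.eps_le_one (h : Iter c p J b) {lam : ℝ} (hl : 0 < lam) (n : ℕ) :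
    eps c lam J n ≤ 1 := by
  unfold eps
  have := h.J_pos n
  have : 0 ≤ (J n) ^ (c + 3) / lam ^ (c + 3) := by positivity
  linarith

theorem Iter.eps_anti (h : Iter c p J b) {lam : ℝ} (hl : 0 < lam) :
    Antitone (eps c lam J) := by
  intro m n hmn
  unfold eps
  have h1 : (J m) ^ (c + 3) ≤ (J n) ^ (c + 3) := pow_le_pow_left₀ (h.J_pos m).le (h.J_mono hmn) _
  have : (J m) ^ (c + 3) / lam ^ (c + 3) ≤ (J n) ^ (c + 3) / lam ^ (c + 3) := by gcongr
  linarith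

theorem eps_tendsto (c : ℕ) {lam : ℝ} (hl : 0 < lam) (hJ : Tendsto J atTop (𝓝 lam)) :
    Tendsto (eps c lam J) atTop (𝓝 0) := by
  have : Tendsto (fun n => 1 - (J n) ^ (c + 3) / lam ^ (c + 3)) atTop
      (𝓝 (1 - lam ^ (c + 3) / lam ^ (c + 3))) :=
    tendsto_const_nhds.sub ((hJ.pow _).div_const _)
  rw [div_self (by positivity), sub_self] at this
  exact this

theorem pow_sub_ge {a b : ℝ} (hb : 0 ≤ b) (hab : b ≤ a) (n : ℕ) :
    b ^ n * (a - b) ≤ a ^ (n + 1) - b ^ (n + 1) := by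
  have h1 : b ^ n ≤ a ^ n := pow_le_pow_left₀ hb hab n
  have : a ^ (n + 1) - b ^ (n + 1) - b ^ n * (a - b) = a * (a ^ n - b ^ n) := by ring
  nlinarith

/-- increments of `J` are controlled by increments of `eps` -/
theorem Iter.J_incr (h : Iter c p J b) {lam : ℝ} (hl : 0 < lam) {m n : ℕ} (hmn : m ≤ n) :
    J n - J m ≤ lam ^ (c + 3) / (J 0) ^ (c + 2) * (eps c lam J m - eps c lam J n) := by
  have h0 := h.J_pos 0
  have h1 := h.J_pos m
  have h2 : J m ≤ J n := h.J_mono hmn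
  have h3 : J 0 ≤ J m := h.J_mono (Nat.zero_le m)
  have h4 := pow_sub_ge h1.le h2 (c + 2)
  have h5 : (J 0) ^ (c + 2) ≤ (J m) ^ (c + 2) := pow_le_pow_left₀ h0.le h3 _
  have h6 : (J 0) ^ (c + 2) * (J n - J m) ≤ (J n) ^ (c + 3) - (J m) ^ (c + 3) := by
    refine le_trans ?_ h4
    have : 0 ≤ J n - J m := by linarith
    gcongr
  have h7 : eps c lam J m - eps c lam J n
      = ((J n) ^ (c + 3) - (J m) ^ (c + 3)) / lam ^ (c + 3) := by
    unfold eps; ring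
  rw [h7]
  have h8 : lam ^ (c + 3) / (J 0) ^ (c + 2) * (((J n) ^ (c + 3) - (J m) ^ (c + 3)) / lam ^ (c + 3))
      = ((J n) ^ (c + 3) - (J m) ^ (c + 3)) / (J 0) ^ (c + 2) := by
    field_simp
  rw [h8, le_div_iff₀ (by positivity)]
  linarith

theorem abs_pow_sub_le {a b : ℝ} (ha : 0 ≤ a) (hb : 0 ≤ b) (ha1 : a ≤ 1) (hb1 : b ≤ 1) (n : ℕ) :
    (a ^ (n + 2) - b ^ (n + 2)) ^ 2 ≤
      ((n : ℝ) + 2) ^ 2 * ((a ^ (n + 1) + b ^ (n + 1)) * (b - a) ^ 2) := by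
  wlog hab : b ≤ a generalizing a b
  · have := this hb ha hb1 ha1 (le_of_not_ge hab)
    calc (a ^ (n + 2) - b ^ (n + 2)) ^ 2 = (b ^ (n + 2) - a ^ (n + 2)) ^ 2 := by ring
      _ ≤ _ := this
      _ = _ := by ring
  have h1 : a ^ (n + 2) - b ^ (n + 2) ≤ ((n : ℝ) + 2) * (a ^ (n + 1) * (a - b)) := by
    have hg : ∀ m : ℕ, a ^ (m + 1) - b ^ (m + 1) ≤ ((m : ℝ) + 1) * (a ^ m * (a - b)) := by
      intro m
      induction m with
      | zero => simp
      | succ m ih =>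
        have h2 : b ^ (m + 1) ≤ a ^ (m + 1) := pow_le_pow_left₀ hb hab _
        have e : a ^ (m + 1 + 1) - b ^ (m + 1 + 1)
            = a * (a ^ (m + 1) - b ^ (m + 1)) + b ^ (m + 1) * (a - b) := by ring
        rw [e]
        have h3 : a * (a ^ (m + 1) - b ^ (m + 1)) ≤ a * (((m : ℝ) + 1) * (a ^ m * (a - b))) := by
          gcongr
        have h4 : b ^ (m + 1) * (a - b) ≤ a ^ (m + 1) * (a - b) := by
          have : 0 ≤ a - b := by linarith
          gcongr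
        push_cast
        calc _ ≤ a * (((m : ℝ) + 1) * (a ^ m * (a - b))) + a ^ (m + 1) * (a - b) := by linarith
          _ = _ := by ring
    have := hg (n + 1)
    push_cast at this
    calc a ^ (n + 2) - b ^ (n + 2) ≤ ((n : ℝ) + 1 + 1) * (a ^ (n + 1) * (a - b)) := this
      _ = _ := by ring
  have h2 : 0 ≤ a ^ (n + 2) - b ^ (n + 2) := by
    have := pow_le_pow_left₀ hb hab (n + 2)
    linarith
  have h3 : a ^ (n + 1) * a ^ (n + 1) ≤ a ^ (n + 1) := by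
    have : a ^ (n + 1) ≤ 1 := pow_le_one₀ ha ha1
    nlinarith [pow_nonneg ha (n + 1)]
  calc (a ^ (n + 2) - b ^ (n + 2)) ^ 2 ≤ (((n : ℝ) + 2) * (a ^ (n + 1) * (a - b))) ^ 2 := by gcongr
    _ = ((n : ℝ) + 2) ^ 2 * ((a ^ (n + 1) * a ^ (n + 1)) * (a - b) ^ 2) := by ring
    _ ≤ ((n : ℝ) + 2) ^ 2 * (a ^ (n + 1) * (a - b) ^ 2) := by gcongr
    _ ≤ ((n : ℝ) + 2) ^ 2 * ((a ^ (n + 1) + b ^ (n + 1)) * (a - b) ^ 2) := by
        have := pow_nonneg hb (n + 1)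
        gcongr
        linarith
    _ = _ := by ring

theorem Iter.pw_diff (h : Iter c p J b) (n : ℕ) :
    ‖pw (c + 1) (p (n + 2)) - pw (c + 1) (p n)‖ ^ 2
      ≤ ((c : ℝ) + 2) ^ 2 * ((c + 3 : ℝ) * (1 - J n / J (n + 1))) := by
  have hs : Summable fun k => ((p n k) ^ (c + 1) + (p (n + 2) k) ^ (c + 1)) *
      (p (n + 2) k - p n k) ^ 2 := by
    refine Summable.of_nonneg_of_le (fun k => ?_) (fun k => ?_)
      ((sq_summable (p (n + 2) - p n)).mul_left 2)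
    · have := h.nonneg n k; have := h.nonneg (n + 2) k; positivity
    · have h1 : (p n k) ^ (c + 1) ≤ 1 := pow_le_one₀ (h.nonneg n k) (h.le_one n k)
      have h2 : (p (n + 2) k) ^ (c + 1) ≤ 1 := pow_le_one₀ (h.nonneg _ k) (h.le_one _ k)
      simp only [lp.coeFn_sub, Pi.sub_apply]
      gcongr
      linarith
  rw [norm_sq_eq]
  calc ∑' k, (pw (c + 1) (p (n + 2)) - pw (c + 1) (p n) : X) k ^ 2
      ≤ ∑' k, ((c : ℝ) + 2) ^ 2 * (((p n k) ^ (c + 1) + (p (n + 2) k) ^ (c + 1)) *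
          (p (n + 2) k - p n k) ^ 2) := by
        refine Summable.tsum_le_tsum (fun k => ?_) (sq_summable _) (hs.mul_left _)
        simp only [lp.coeFn_sub, Pi.sub_apply, pw_apply]
        have := abs_pow_sub_le (h.nonneg (n + 2) k) (h.nonneg n k) (h.le_one (n + 2) k)
          (h.le_one n k) c
        calc _ = ((p (n + 2) k) ^ (c + 2) - (p n k) ^ (c + 2)) ^ 2 := by ring
          _ ≤ _ := this
          _ = _ := by ring
    _ = ((c : ℝ) + 2) ^ 2 * ∑' k, (((p n k) ^ (c + 1) + (p (n + 2) k) ^ (c + 1)) *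
          (p (n + 2) k - p n k) ^ 2) := tsum_mul_left
    _ ≤ _ := by
        have := h.deficit n
        gcongr

theorem Iter.norm_le (h : Iter c p J b) (n : ℕ) :
    ‖p (n + 1)‖ ≤ Real.sqrt (∑' k, b k ^ 2) := by
  apply Real.le_sqrt_of_sq_le
  rw [norm_sq_eq]
  refine Summable.tsum_le_tsum (fun k => ?_) (sq_summable _) h.b_sum
  rw [← sq_abs (p (n + 1) k)]
  have := h.b_bound n k
  gcongr

/-- main step estimate -/
theorem Iter.step_bound (h : Iter c p J b) {lam : ℝ} (hl : 0 < lam) (hJ : ∀ n, J n ≤ lam) :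
    ∃ C : ℝ, 0 < C ∧ ∀ n, ‖p (n + 3) - p (n + 1)‖ ^ 2
      ≤ C * (eps c lam J n - eps c lam J (n + 2)) := by
  set B := Real.sqrt (∑' k, b k ^ 2) with hB
  have hB0 : 0 ≤ B := Real.sqrt_nonneg _
  set K := lam ^ (c + 3) / (J 0) ^ (c + 2) with hK
  have hJ0 := h.J_pos 0
  have hK0 : 0 < K := by positivity
  refine ⟨2 * (9 * (((c : ℝ) + 2) ^ 2 * ((c + 3 : ℝ) * (K / J 0))) / (J 0) ^ 2)
    + 2 * (B ^ 2 * (3 * K) / (J 0) ^ 2) + 1, by positivity, fun n => ?_⟩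
  have hd1 : eps c lam J n - eps c lam J (n + 1) ≤ eps c lam J n - eps c lam J (n + 2) := by
    have := h.eps_anti hl (show n + 1 ≤ n + 2 by omega)
    linarith
  have hd0 : 0 ≤ eps c lam J n - eps c lam J (n + 2) := by
    have := h.eps_anti hl (show n ≤ n + 2 by omega)
    linarith
  set D := eps c lam J n - eps c lam J (n + 2) with hD
  have hJn := h.J_pos n
  have hJn1 := h.J_pos (n + 1)
  have hJn2 := h.J_pos (n + 2)
  have h0n : J 0 ≤ J n := h.J_mono (Nat.zero_le n)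
  have h0n1 : J 0 ≤ J (n + 1) := h.J_mono (Nat.zero_le _)
  have h0n2 : J 0 ≤ J (n + 2) := h.J_mono (Nat.zero_le _)
  have hr : 1 - J n / J (n + 1) ≤ K / J 0 * D := by
    have e : 1 - J n / J (n + 1) = (J (n + 1) - J n) / J (n + 1) := by field_simp
    rw [e]
    have h1 := h.J_incr hl (show n ≤ n + 1 by omega)
    have h2 : 0 ≤ J (n + 1) - J n := by have := h.J_mono (show n ≤ n + 1 by omega); linarith
    calc (J (n + 1) - J n) / J (n + 1) ≤ (J (n + 1) - J n) / J 0 := by gcongr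
      _ ≤ (K * D) / J 0 := by
          gcongr
          calc _ ≤ _ := h1
            _ ≤ _ := by gcongr
      _ = _ := by ring
  have hJ2 : J (n + 2) - J n ≤ K * D := h.J_incr hl (show n ≤ n + 2 by omega)
  have hJ2' : 0 ≤ J (n + 2) - J n := by have := h.J_mono (show n ≤ n + 2 by omega); linarith
  have hJ2sq : (J (n + 2) - J n) ^ 2 ≤ 3 * K * D := by
    have : J (n + 2) - J n ≤ 3 := by have := h.J_le (n + 2); linarith
    calc (J (n + 2) - J n) ^ 2 = (J (n + 2) - J n) * (J (n + 2) - J n) := by ring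
      _ ≤ 3 * (K * D) := by gcongr
      _ = _ := by ring
  -- the vectors
  set g := A (pw (c + 1) (p n)) with hg
  set g' := A (pw (c + 1) (p (n + 2))) with hg'
  have hgg : ‖g' - g‖ ^ 2 ≤ 9 * (((c : ℝ) + 2) ^ 2 * ((c + 3 : ℝ) * (K / J 0 * D))) := by
    have h1 : ‖g' - g‖ ≤ 3 * ‖pw (c + 1) (p (n + 2)) - pw (c + 1) (p n)‖ := by
      rw [hg, hg', ← map_sub]; exact norm_A_le _
    calc ‖g' - g‖ ^ 2 ≤ (3 * ‖pw (c + 1) (p (n + 2)) - pw (c + 1) (p n)‖) ^ 2 := by gcongr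
      _ = 9 * ‖pw (c + 1) (p (n + 2)) - pw (c + 1) (p n)‖ ^ 2 := by ring
      _ ≤ 9 * (((c : ℝ) + 2) ^ 2 * ((c + 3 : ℝ) * (1 - J n / J (n + 1)))) := by
          have := h.pw_diff n
          gcongr
      _ ≤ _ := by gcongr
  have e1 : g = J n • p (n + 1) := h.step n
  have e2 : g' = J (n + 2) • p (n + 3) := h.step (n + 2)
  have e3 : p (n + 3) - p (n + 1)
      = (J (n + 2))⁻¹ • ((g' - g) - (J (n + 2) - J n) • p (n + 1)) := by
    rw [e1, e2]
    rw [sub_smul]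
    rw [show J (n + 2) • p (n + 3) - J n • p (n + 1) - (J (n + 2) • p (n + 1) - J n • p (n + 1))
      = J (n + 2) • (p (n + 3) - p (n + 1)) by rw [smul_sub]; abel]
    rw [smul_smul, inv_mul_cancel₀ hJn2.ne', one_smul]
  have h4 : ‖p (n + 3) - p (n + 1)‖ ≤ (J 0)⁻¹ * (‖g' - g‖ + (J (n + 2) - J n) * B) := by
    rw [e3, norm_smul, norm_inv, Real.norm_of_nonneg hJn2.le]
    have h5 : ‖(g' - g) - (J (n + 2) - J n) • p (n + 1)‖ ≤ ‖g' - g‖ + (J (n + 2) - J n) * B := by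
      refine (norm_sub_le _ _).trans ?_
      rw [norm_smul, Real.norm_of_nonneg hJ2']
      have := h.norm_le n
      gcongr
    gcongr
  calc ‖p (n + 3) - p (n + 1)‖ ^ 2 ≤ ((J 0)⁻¹ * (‖g' - g‖ + (J (n + 2) - J n) * B)) ^ 2 := by
        gcongr
    _ = (‖g' - g‖ + (J (n + 2) - J n) * B) ^ 2 / (J 0) ^ 2 := by field_simp
    _ ≤ (2 * ‖g' - g‖ ^ 2 + 2 * ((J (n + 2) - J n) * B) ^ 2) / (J 0) ^ 2 := by
        gcongr
        nlinarith [sq_nonneg (‖g' - g‖ - (J (n + 2) - J n) * B)]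
    _ ≤ (2 * (9 * (((c : ℝ) + 2) ^ 2 * ((c + 3 : ℝ) * (K / J 0 * D))))
          + 2 * (B ^ 2 * (3 * K * D))) / (J 0) ^ 2 := by
        gcongr ?_ / _
        have : ((J (n + 2) - J n) * B) ^ 2 ≤ B ^ 2 * (3 * K * D) := by
          rw [mul_pow, mul_comm]; gcongr
        linarith
    _ = (2 * (9 * (((c : ℝ) + 2) ^ 2 * ((c + 3 : ℝ) * (K / J 0))) / (J 0) ^ 2)
          + 2 * (B ^ 2 * (3 * K) / (J 0) ^ 2)) * D := by ring
    _ ≤ _ := by
        have : 0 ≤ 1 * D := by positivity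
        nlinarith

end Pool.Agent.H.MP_e9f8c5_pr
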