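import Pool.Agent.H.MP_e9f8c5_pr.Defs

set_option autoImplicit false

open scoped Topology
open Filter Set

namespace Pool.Agent.H.MP_e9f8c5_pr

theorem isCompact_cube (c : ℤ → ℝ) (hc : Summable (fun k => c k ^ 2)) :
    IsCompact {f : X | ∀ k, |f k| ≤ c k} := by
  let K : Set (ℤ → ℝ) := Set.pi univ (fun k => Icc (-c k) (c k))
  have hK : IsCompact K := isCompact_univ_pi (fun k => isCompact_Icc)
  have : CompactSpace K := isCompact_iff_compactSpace.1 hK
  have habs : ∀ y : K, ∀ k, |y.1 k| ≤ c k := fun y k => abs_le.2 (y.2 k (mem_univ k))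
  have hsq : ∀ y : K, ∀ k, y.1 k ^ 2 ≤ c k ^ 2 := fun y k => by
    rw [← sq_abs]
    exact pow_le_pow_left₀ (abs_nonneg _) (habs y k) 2
  have hsum : ∀ y : K, Summable (fun k => y.1 k ^ 2) := fun y =>
    Summable.of_nonneg_of_le (fun k => sq_nonneg _) (hsq y) hc
  let Φ : K → X := fun y => mkX y.1 (hsum y)
  have hΦ : ∀ y k, Φ y k = y.1 k := fun y k => rfl
  have hcont : Continuous Φ := by
    rw [continuous_iff_continuousAt]
    intro y0
    have h1 : Continuous (fun y : K => ∑' k, (y.1 k - y0.1 k) ^ 2) := by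
      refine continuous_tsum (u := fun k => 4 * c k ^ 2) (fun k => ?_) (hc.mul_left 4) ?_
      · exact ((continuous_apply k).comp continuous_subtype_val).sub continuous_const |>.pow 2
      · intro k y
        rw [Real.norm_of_nonneg (sq_nonneg _)]
        have h2 := hsq y k
        have h3 := hsq y0 k
        nlinarith [sq_nonneg (y.1 k + y0.1 k)]
    have h2 : Tendsto (fun y : K => ‖Φ y - Φ y0‖ ^ 2) (𝓝 y0) (𝓝 0) := by
      have h3 := h1.tendsto y0
      simp only [sub_self, ne_eq, OfNat.ofNat_ne_zero, not_false_eq_true, zero_pow,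
        tsum_zero] at h3
      refine h3.congr (fun y => ?_)
      rw [norm_sq_eq]
      rfl
    have h3 : Tendsto (fun y : K => ‖Φ y - Φ y0‖) (𝓝 y0) (𝓝 0) := by
      have h4 := h2.sqrt
      rw [Real.sqrt_zero] at h4
      refine h4.congr (fun y => ?_)
      rw [Real.sqrt_sq (norm_nonneg _)]
    exact tendsto_iff_norm_sub_tendsto_zero.2 h3
  have himg : {f : X | ∀ k, |f k| ≤ c k} = range Φ := by
    ext f
    constructor
    · intro hf
      refine ⟨⟨fun k => f k, fun k _ => abs_le.1 (hf k)⟩, ?_⟩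
      exact extX (fun k => rfl)
    · rintro ⟨y, rfl⟩ k
      exact habs y k
  rw [himg]
  exact isCompact_range hcont

theorem isCompactOperator_mul (a : X) : IsCompactOperator (mul a : X → X) := by
  have hs : Summable (fun k => |a k| ^ 2) := by
    simp only [sq_abs]
    exact sq_summable a
  refine ⟨_, isCompact_cube (fun k => |a k|) hs, ?_⟩
  rw [Metric.mem_nhds_iff]
  refine ⟨1, one_pos, ?_⟩
  intro f hf k
  rw [mem_ball_zero_iff] at hf
  rw [mul_apply, abs_mul]
  have h1 := abs_le_norm f k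
  have h2 := abs_nonneg (a k)
  nlinarith [abs_nonneg (f k)]

end Pool.Agent.H.MP_e9f8c5_pr
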