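import Pool.Agent.H.MP_e9f8c5_pr.Defs

set_option autoImplicit false

open scoped Topology
open Filter Set

namespace Pool.Agent.H.MP_e9f8c5_pr

theorem norm_pw_le (n : ℕ) (z : X) : ‖pw n z‖ ≤ ‖z‖ ^ (n + 1) := by
  induction n with
  | zero => simp [pw]
  | succ n ih =>
    calc ‖pw (n + 1) z‖ = ‖mul z (pw n z)‖ := rfl
      _ ≤ ‖z‖ * ‖pw n z‖ := norm_mul_le _ _
      _ ≤ ‖z‖ * ‖z‖ ^ (n + 1) := by gcongr
      _ = ‖z‖ ^ (n + 1 + 1) := by ring

theorem analyticAt_pw (n : ℕ) (z : X) : AnalyticAt ℝ (pw n) z := by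
  induction n with
  | zero => exact analyticAt_id
  | succ n ih =>
    have h : AnalyticAt ℝ (fun u : X => mul u (pw n u)) z :=
      AnalyticAt.comp₂ (h := fun q : X × X => mul q.1 q.2) (mul.analyticAt_bilinear _)
        analyticAt_id ih
    exact h

/-- The derivative of `pw n`. -/
noncomputable def dpw : ℕ → X → (X →L[ℝ] X)
  | 0, _ => ContinuousLinearMap.id ℝ X
  | n + 1, u => (n + 2 : ℝ) • mul (pw n u)

theorem dpw_apply (n : ℕ) (u h : X) (k : ℤ) : dpw n u h k = (n + 1 : ℝ) * u k ^ n * h k := by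
  cases n with
  | zero => simp [dpw]
  | succ n =>
    simp only [dpw, smul_apply, lp.coeFn_smul, Pi.smul_apply, mul_apply,
      pw_apply, smul_eq_mul]
    push_cast
    ring

theorem hasFDerivAt_pw (n : ℕ) (u : X) : HasFDerivAt (pw n) (dpw n u) u := by
  induction n with
  | zero => exact hasFDerivAt_id u
  | succ n ih =>
    have h : HasFDerivAt (fun u : X => mul u (pw n u))
        ((mul u).comp (dpw n u) + (mul.flip (pw n u))) u := by
      have h1 : HasFDerivAt (fun u : X => mul u) mul u := mul.hasFDerivAt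
      have := h1.clm_apply ih
      refine this.congr_fderiv ?_
      ext h k
      simp
    refine h.congr_fderiv ?_
    ext h k
    have e : (dpw (n + 1) u h) k = ((n + 1 : ℕ) + 1 : ℝ) * u k ^ (n + 1) * h k :=
      dpw_apply (n + 1) u h k
    rw [e]
    have e2 : ((mul u).comp (dpw n u) + (mul.flip (pw n u))) h
      = mul u (dpw n u h) + mul h (pw n u) := rfl
    rw [e2, lp.coeFn_add, Pi.add_apply, mul_apply, mul_apply, dpw_apply, pw_apply]
    push_cast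
    ring

theorem analyticAt_G (c : ℕ) (z : X) : AnalyticAt ℝ (G c) z := by
  have h1 : AnalyticAt ℝ (fun u : X => A (pw (c + 1) u)) z :=
    (A.analyticAt _).comp (analyticAt_pw (c + 1) z)
  have h2 : AnalyticAt ℝ (fun u : X => pw (c + 1) (A (pw (c + 1) u))) z :=
    AnalyticAt.fun_comp_of_eq (analyticAt_pw (c + 1) (A (pw (c + 1) z))) h1 rfl
  exact (A.analyticAt _).comp h2

theorem analyticAt_F (c : ℕ) (Λ : ℝ) (z : X) : AnalyticAt ℝ (F c Λ) z := by
  have h : AnalyticAt ℝ (fun u : X => u - Λ⁻¹ • G c u) z :=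
    analyticAt_id.sub (AnalyticAt.fun_const_smul (analyticAt_G c z))
  exact h

theorem analyticAt_Q (c : ℕ) (z : X) : AnalyticAt ℝ (Q c) z := by
  have h : AnalyticAt ℝ (fun u : X => innerSL ℝ u (pw (c + 1) u)) z :=
    AnalyticAt.comp₂ (h := fun q : X × X => (innerSL ℝ : X →L[ℝ] X →L[ℝ] ℝ) q.1 q.2)
      ((innerSL ℝ : X →L[ℝ] X →L[ℝ] ℝ).analyticAt_bilinear _) analyticAt_id
      (analyticAt_pw (c + 1) z)
  exact h

theorem analyticAt_E (c : ℕ) (Λ : ℝ) (z : X) : AnalyticAt ℝ (E c Λ) z := by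
  have h1 : AnalyticAt ℝ (fun u : X => A (pw (c + 1) u)) z :=
    (A.analyticAt _).comp (analyticAt_pw (c + 1) z)
  have h2 : AnalyticAt ℝ (fun u : X => Q c (A (pw (c + 1) u))) z :=
    AnalyticAt.fun_comp_of_eq (analyticAt_Q c (A (pw (c + 1) z))) h1 rfl
  have h : AnalyticAt ℝ (fun u : X => (c + 2 : ℝ) * Q c u - Λ⁻¹ * Q c (A (pw (c + 1) u))) z :=
    (analyticAt_const.mul (analyticAt_Q c z)).sub (analyticAt_const.mul h2)
  exact h

theorem dpw_succ (c : ℕ) (u h : X) : dpw (c + 1) u h = (c + 2 : ℝ) • mul (pw c u) h := rfl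

theorem hasFDerivAt_Apw (c : ℕ) (z : X) :
    HasFDerivAt (fun u : X => A (pw (c + 1) u)) (A.comp (dpw (c + 1) z)) z :=
  A.hasFDerivAt.comp z (hasFDerivAt_pw (c + 1) z)

theorem hasFDerivAt_G (c : ℕ) (z : X) :
    HasFDerivAt (G c) (A.comp ((dpw (c + 1) (A (pw (c + 1) z))).comp
      (A.comp (dpw (c + 1) z)))) z := by
  have h2 : HasFDerivAt (fun u : X => pw (c + 1) (A (pw (c + 1) u)))
      ((dpw (c + 1) (A (pw (c + 1) z))).comp (A.comp (dpw (c + 1) z))) z :=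
    HasFDerivAt.comp z (g := pw (c + 1)) (hasFDerivAt_pw (c + 1) (A (pw (c + 1) z)))
      (hasFDerivAt_Apw c z)
  exact A.hasFDerivAt.comp z h2

theorem fderiv_F_apply (c : ℕ) (Λ : ℝ) (z h : X) :
    fderiv ℝ (F c Λ) z h =
      h - (Λ⁻¹ * (c + 2 : ℝ) ^ 2) •
        A (mul (pw c (A (pw (c + 1) z))) (A (mul (pw c z) h))) := by
  have hF : HasFDerivAt (F c Λ) (ContinuousLinearMap.id ℝ X - Λ⁻¹ •
      (A.comp ((dpw (c + 1) (A (pw (c + 1) z))).comp (A.comp (dpw (c + 1) z))))) z :=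
    (hasFDerivAt_id z).sub ((hasFDerivAt_G c z).const_smul Λ⁻¹)
  rw [hF.fderiv]
  simp only [sub_apply, ContinuousLinearMap.id_apply,
    smul_apply, ContinuousLinearMap.comp_apply, dpw_succ, map_smul, smul_smul]
  congr 2
  ring

theorem inner_shift (c : ℕ) (u f h : X) :
    inner ℝ f (mul (pw c u) h) = inner ℝ (mul (pw c u) f) h := by
  rw [inner_eq, inner_eq]
  congr 1
  ext k
  simp only [mul_apply]
  ring

theorem mul_pw_self (c : ℕ) (u : X) : mul (pw c u) u = pw (c + 1) u := by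
  apply extX
  intro k
  simp only [mul_apply, pw_apply]
  ring

theorem hasFDerivAt_Q (c : ℕ) (z : X) :
    HasFDerivAt (Q c) ((c + 3 : ℝ) • innerSL ℝ (pw (c + 1) z)) z := by
  have h1 : HasFDerivAt (fun u : X => innerSL ℝ u) (innerSL ℝ : X →L[ℝ] X →L[ℝ] ℝ) z :=
    (innerSL ℝ : X →L[ℝ] X →L[ℝ] ℝ).hasFDerivAt
  have h2 := h1.clm_apply (hasFDerivAt_pw (c + 1) z)
  have h3 : HasFDerivAt (Q c) _ z := h2
  refine h3.congr_fderiv ?_
  ext h
  have e1 : inner ℝ z (mul (pw c z) h) = inner ℝ (pw (c + 1) z) h := by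
    rw [inner_shift, mul_pw_self]
  simp only [add_apply, ContinuousLinearMap.comp_apply,
    ContinuousLinearMap.flip_apply, innerSL_apply_apply, dpw_succ, inner_smul_right,
    smul_apply, smul_eq_mul, e1]
  have e3 : ((innerSL ℝ : X →L[ℝ] X →L[ℝ] ℝ) h) (pw (c + 1) z) = inner ℝ (pw (c + 1) z) h := by
    rw [innerSL_apply_apply, real_inner_comm]
  rw [e3]
  ring

theorem fderiv_E_apply (c : ℕ) (Λ : ℝ) (z h : X) :
    fderiv ℝ (E c Λ) z h =
      ((c + 2 : ℝ) * (c + 3 : ℝ)) * inner ℝ (F c Λ z) (mul (pw c z) h) := by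
  have hE : HasFDerivAt (E c Λ) ((c + 2 : ℝ) • ((c + 3 : ℝ) • innerSL ℝ (pw (c + 1) z)) -
      Λ⁻¹ • (((c + 3 : ℝ) • innerSL ℝ (pw (c + 1) (A (pw (c + 1) z)))).comp
        (A.comp (dpw (c + 1) z)))) z := by
    have h2 : HasFDerivAt (fun u : X => Q c (A (pw (c + 1) u)))
        (((c + 3 : ℝ) • innerSL ℝ (pw (c + 1) (A (pw (c + 1) z)))).comp
          (A.comp (dpw (c + 1) z))) z :=
      HasFDerivAt.comp z (g := Q c) (hasFDerivAt_Q c (A (pw (c + 1) z))) (hasFDerivAt_Apw c z)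
    exact ((hasFDerivAt_Q c z).const_mul (c + 2 : ℝ)).sub (h2.const_mul Λ⁻¹)
  rw [hE.fderiv]
  have e1 : inner ℝ z (mul (pw c z) h) = inner ℝ (pw (c + 1) z) h := by
    rw [inner_shift, mul_pw_self]
  have e2 : inner ℝ (pw (c + 1) (A (pw (c + 1) z))) (A (mul (pw c z) h))
      = inner ℝ (G c z) (mul (pw c z) h) := by
    rw [G, inner_A]
  simp only [sub_apply, smul_apply,
    ContinuousLinearMap.comp_apply, dpw_succ, map_smul, innerSL_apply_apply, smul_eq_mul,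
    F, inner_sub_left, inner_smul_left, e1, e2]
  simp only [conj_trivial]
  ring

theorem norm_fderiv_E_le (c : ℕ) (Λ : ℝ) (hΛ : 0 < Λ) :
    ∀ R : ℝ, ∃ C : ℝ, ∀ z : X, ‖z‖ ≤ R → ‖fderiv ℝ (E c Λ) z‖ ≤ C * ‖F c Λ z‖ := by
  intro R
  refine ⟨((c + 2 : ℝ) * (c + 3 : ℝ)) * R ^ (c + 1), fun z hz => ?_⟩
  have hR : 0 ≤ R := (norm_nonneg z).trans hz
  refine ContinuousLinearMap.opNorm_le_bound _ (by positivity) (fun h => ?_)
  rw [fderiv_E_apply, norm_mul, Real.norm_of_nonneg (by positivity : (0:ℝ) ≤ (c + 2) * (c + 3))]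
  have h1 : ‖inner ℝ (F c Λ z) (mul (pw c z) h)‖ ≤ ‖F c Λ z‖ * (R ^ (c + 1) * ‖h‖) := by
    calc ‖inner ℝ (F c Λ z) (mul (pw c z) h)‖ ≤ ‖F c Λ z‖ * ‖mul (pw c z) h‖ :=
          norm_inner_le_norm _ _
      _ ≤ ‖F c Λ z‖ * (‖pw c z‖ * ‖h‖) := by
          gcongr
          exact norm_mul_le _ _
      _ ≤ ‖F c Λ z‖ * (R ^ (c + 1) * ‖h‖) := by
          gcongr
          calc ‖pw c z‖ ≤ ‖z‖ ^ (c + 1) := norm_pw_le c z
            _ ≤ R ^ (c + 1) := by gcongr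
  calc ((c + 2 : ℝ) * (c + 3)) * ‖inner ℝ (F c Λ z) (mul (pw c z) h)‖
      ≤ ((c + 2 : ℝ) * (c + 3)) * (‖F c Λ z‖ * (R ^ (c + 1) * ‖h‖)) := by gcongr
    _ = _ := by ring

end Pool.Agent.H.MP_e9f8c5_pr
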