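import Pool.Agent.H.MP_e9f8c5_pr.KernelAux
import Pool.Agent.H.MP_e9f8c5_pr.Cube

set_option autoImplicit false

open scoped Topology
open Filter Set

namespace Pool.Agent.H.MP_e9f8c5_pr

theorem exists_PJL (c : ℕ) (Λ : ℝ) (hΛ : 0 < Λ) (z : X) (hz : ∀ k, 0 < z k) :
    ∃ (P : X →L[ℝ] ℝ × ℝ) (J : ℝ × ℝ →L[ℝ] X) (L : X ≃L[ℝ] X),
      ∀ h, L h = (h - (Λ⁻¹ * (c + 2 : ℝ) ^ 2) •
        A (mul (pw c (A (pw (c + 1) z))) (A (mul (pw c z) h)))) + J (P h) :=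
  exists_PJL' c Λ hΛ z hz isCompactOperator_mul

end Pool.Agent.H.MP_e9f8c5_pr
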