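import Mathlib

set_option autoImplicit false

open scoped Topology
open Filter Set

namespace Pool.Agent.H.MP_e9f8c5_pr

namespace NB

/-- iterated directional derivative -/
noncomputable def Dd (W : ℝ × ℝ → ℝ) (h : ℝ × ℝ) (j : ℕ) (k : ℝ × ℝ) : ℝ :=
  iteratedFDeriv ℝ j W k (fun _ => h)

lemma Dd_zero (W : ℝ × ℝ → ℝ) (h k : ℝ × ℝ) : Dd W h 0 k = W k := by
  simp [Dd]

lemma Dd_one (W : ℝ × ℝ → ℝ) (h k : ℝ × ℝ) : Dd W h 1 k = fderiv ℝ W k h := by
  simp [Dd, iteratedFDeriv_one_apply]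

lemma Dd_smul (W : ℝ × ℝ → ℝ) (h k : ℝ × ℝ) (c : ℝ) (j : ℕ) :
    Dd W (c • h) j k = c ^ j * Dd W h j k := by
  unfold Dd
  have := (iteratedFDeriv ℝ j W k).map_smul_univ (fun _ => c) (fun _ => h)
  simp only [Finset.prod_const, Finset.card_univ, Fintype.card_fin, smul_eq_mul] at this
  exact this

lemma analyticAt_Dd {W : ℝ × ℝ → ℝ} {k : ℝ × ℝ} (hW : AnalyticAt ℝ W k) (h : ℝ × ℝ) (j : ℕ) :
    AnalyticAt ℝ (Dd W h j) k := by
  have h1 : AnalyticOnNhd ℝ W {k} := by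
    intro x hx
    rw [mem_singleton_iff] at hx
    rw [hx]; exact hW
  have h2 := h1.iteratedFDeriv j k (mem_singleton k)
  exact ((ContinuousMultilinearMap.apply ℝ (fun _ : Fin j => ℝ × ℝ) ℝ
    (fun _ => h)).analyticAt _).comp h2

lemma fderiv_Dd {W : ℝ × ℝ → ℝ} {k : ℝ × ℝ} (hW : AnalyticAt ℝ W k) (h : ℝ × ℝ) (j : ℕ) :
    fderiv ℝ (Dd W h j) k h = Dd W h (j + 1) k := by
  have h1 : AnalyticOnNhd ℝ W {k} := by
    intro x hx
    rw [mem_singleton_iff] at hx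
    rw [hx]; exact hW
  have h2 := (h1.iteratedFDeriv j k (mem_singleton k)).differentiableAt
  have h3 : fderiv ℝ (Dd W h j) k = (fderiv ℝ (iteratedFDeriv ℝ j W) k).flipMultilinear
      (fun _ => h) := fderiv_continuousMultilinear_apply_const h2 (fun _ => h)
  rw [h3]
  unfold Dd
  rw [iteratedFDeriv_succ_apply_left]
  rfl

lemma hasDerivAt_Dd {W : ℝ × ℝ → ℝ} {k v : ℝ × ℝ} {s : ℝ} (hW : AnalyticAt ℝ W (k + s • v))
    (j : ℕ) : HasDerivAt (fun s : ℝ => Dd W v j (k + s • v)) (Dd W v (j + 1) (k + s • v)) s := by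
  have h1 := (analyticAt_Dd hW v j).differentiableAt.hasFDerivAt
  have h2 : HasDerivAt (fun s : ℝ => k + s • v) v s := by
    have := ((hasDerivAt_id s).smul_const v).const_add k
    simpa using this
  have h3 := h1.comp_hasDerivAt s h2
  rw [fderiv_Dd hW v j] at h3
  exact h3

/-- one dimensional Taylor lower bound -/
lemma taylor_lower (n : ℕ) : ∀ (f : ℕ → ℝ → ℝ) (A : ℝ),
    (∀ j, j < n → ∀ s ∈ Icc (0 : ℝ) 1, HasDerivAt (f j) (f (j + 1) s) s) →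
    (∀ j, j < n → f j 0 = 0) → (∀ s ∈ Icc (0 : ℝ) 1, A ≤ f n s) →
    ∀ s ∈ Icc (0 : ℝ) 1, A * s ^ n / n.factorial ≤ f 0 s := by
  induction n with
  | zero =>
    intro f A _ _ h s hs
    simpa using h s hs
  | succ n ih =>
    intro f A hd h0 hA s hs
    have h1 := ih (fun j => f (j + 1)) A (fun j hj => hd (j + 1) (by omega))
      (fun j hj => h0 (j + 1) (by omega)) hA
    have hder : ∀ t ∈ Icc (0 : ℝ) 1, HasDerivAt (fun t => f 0 t - A * t ^ (n + 1) /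
        (n + 1).factorial) (f 1 t - A * t ^ n / n.factorial) t := by
      intro t ht
      have e1 := hd 0 (by omega) t ht
      have e2 : HasDerivAt (fun t : ℝ => A * t ^ (n + 1) / ((n + 1).factorial : ℝ))
          (A * t ^ n / n.factorial) t := by
        have := ((hasDerivAt_pow (n + 1) t).const_mul A).div_const ((n + 1).factorial : ℝ)
        have e3 : A * (((n + 1 : ℕ) : ℝ) * t ^ (n + 1 - 1)) / ((n + 1).factorial : ℝ)
            = A * t ^ n / n.factorial := by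
          rw [Nat.factorial_succ]
          push_cast
          have hn : ((n : ℝ) + 1) ≠ 0 := by positivity
          have hf : ((n.factorial : ℕ) : ℝ) ≠ 0 := by positivity
          field_simp
        rw [e3] at this
        exact this
      exact e1.sub e2
    have hmono : MonotoneOn (fun t => f 0 t - A * t ^ (n + 1) / (n + 1).factorial)
        (Icc (0 : ℝ) 1) := by
      apply monotoneOn_of_deriv_nonneg (convex_Icc 0 1)
      · intro t ht
        exact (hder t ht).continuousAt.continuousWithinAt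
      · intro t ht
        rw [interior_Icc] at ht
        exact (hder t ⟨ht.1.le, ht.2.le⟩).differentiableAt.differentiableWithinAt
      · intro t ht
        rw [interior_Icc] at ht
        rw [(hder t ⟨ht.1.le, ht.2.le⟩).deriv]
        have := h1 t ⟨ht.1.le, ht.2.le⟩
        linarith
    have h2 := hmono (left_mem_Icc.2 zero_le_one) hs hs.1
    simp only [h0 0 (by omega)] at h2
    have h3 : A * (0 : ℝ) ^ (n + 1) / ((n + 1).factorial : ℝ) = 0 := by simp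
    rw [h3] at h2
    linarith

/-- the constant case -/
lemma const_case {W : ℝ × ℝ → ℝ} {k : ℝ × ℝ} (hW : AnalyticAt ℝ W k)
    (h0 : ∀ h j, 1 ≤ j → Dd W h j k = 0) : ∃ r : ℝ, 0 < r ∧ ∀ y, ‖y - k‖ < r → W y = W k := by
  obtain ⟨p, r, hp⟩ := hW
  have hr := hp.r_pos
  obtain ⟨r', hr'0, hr'⟩ : ∃ r' : ℝ, 0 < r' ∧ ENNReal.ofReal r' ≤ r := by
    rcases eq_or_ne r ⊤ with h | h
    · exact ⟨1, one_pos, by rw [h]; exact le_top⟩
    · exact ⟨r.toReal, ENNReal.toReal_pos hr.ne' h, by rw [ENNReal.ofReal_toReal h]⟩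
  refine ⟨r', hr'0, fun y hy => ?_⟩
  have hmem : y - k ∈ Metric.eball (0 : ℝ × ℝ) r := by
    rw [Metric.mem_eball, edist_zero_right]
    refine lt_of_lt_of_le ?_ hr'
    rw [← ofReal_norm]
    exact (ENNReal.ofReal_lt_ofReal_iff hr'0).2 hy
  have h1 := hp.hasSum_iteratedFDeriv hmem
  rw [add_sub_cancel] at h1
  have h2 : (fun n : ℕ => ((n.factorial : ℝ))⁻¹ • iteratedFDeriv ℝ n W k (fun _ => y - k))
      = fun n => if n = 0 then W k else 0 := by
    funext n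
    by_cases hn : n = 0
    · subst hn
      simp
    · rw [if_neg hn]
      have := h0 (y - k) n (by omega)
      unfold Dd at this
      rw [this]; simp
  rw [h2] at h1
  exact h1.unique (hasSum_ite_eq 0 (W k))

/-- inequality at one point -/
lemma point_ineq (W : ℝ × ℝ → ℝ) (E0 ws : ℝ) (hws : ws ≠ 0) (n : ℕ) (h kt : ℝ × ℝ) (hh : h ≠ 0)
    (c : ℝ) (hW : ∀ s ∈ Icc (0 : ℝ) 1, AnalyticAt ℝ W (kt + s • (c • h)))
    (h0 : W kt = E0) (hj : ∀ j, 1 ≤ j → j < n + 2 → Dd W h j kt = 0)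
    (hw : ∀ s ∈ Icc (0 : ℝ) 1, |Dd W h (n + 2) (kt + s • (c • h)) - ws| ≤ |ws| / 2) :
    |W (kt + c • h) - E0| ^ (n + 1) ≤ ((3 / 2 * |ws|) ^ (n + 1) *
      (2 * (n + 1).factorial * ‖h‖ / |ws|) ^ (n + 2)) *
      ‖fderiv ℝ W (kt + c • h)‖ ^ (n + 2) := by
  have hwpos : 0 < |ws| := abs_pos.2 hws
  have hhpos : 0 < ‖h‖ := norm_pos_iff.2 hh
  by_cases hc : c = 0
  · subst hc
    simp only [zero_smul, add_zero, h0, sub_self, abs_zero]
    rw [zero_pow (by omega)]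
    positivity
  have hcpos : 0 < |c| := abs_pos.2 hc
  -- the family
  set f : ℕ → ℝ → ℝ := fun j s => c ^ (n + 2) * ws * (Dd W (c • h) j (kt + s • (c • h)) -
    (if j = 0 then E0 else 0)) with hf
  have hder : ∀ j, ∀ s ∈ Icc (0 : ℝ) 1, HasDerivAt (f j) (f (j + 1) s) s := by
    intro j s hs
    have h1 := (hasDerivAt_Dd (v := c • h) (hW s hs) j).sub_const (if j = 0 then E0 else 0)
    have h2 := h1.const_mul (c ^ (n + 2) * ws)
    simp only [hf, Nat.succ_ne_zero, if_false, sub_zero]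
    exact h2
  have hf0 : ∀ j, j < n + 2 → f j 0 = 0 := by
    intro j hjn
    simp only [hf, zero_smul, add_zero]
    rcases Nat.eq_zero_or_pos j with rfl | hjp
    · simp [Dd_zero, h0]
    · rw [Dd_smul, hj j hjp hjn, if_neg (by omega)]; simp
  have hfn : ∀ s ∈ Icc (0 : ℝ) 1, c ^ (2 * (n + 2)) * (ws ^ 2 / 2) ≤ f (n + 2) s ∧
      f (n + 2) s ≤ c ^ (2 * (n + 2)) * (3 / 2 * ws ^ 2) := by
    intro s hs
    have e1 : f (n + 2) s = c ^ (2 * (n + 2)) * (ws * Dd W h (n + 2) (kt + s • (c • h))) := by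
      simp only [hf]
      rw [Dd_smul, if_neg (by omega)]
      ring
    have hcp : 0 ≤ c ^ (2 * (n + 2)) := by
      rw [pow_mul]; positivity
    have h1 := hw s hs
    set w := Dd W h (n + 2) (kt + s • (c • h)) with hwdef
    have e2 : |ws * (w - ws)| ≤ ws ^ 2 / 2 := by
      rw [abs_mul]
      calc |ws| * |w - ws| ≤ |ws| * (|ws| / 2) := by gcongr
        _ = |ws| ^ 2 / 2 := by ring
        _ = ws ^ 2 / 2 := by rw [sq_abs]
    have e3 := abs_le.1 e2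
    rw [e1]
    constructor
    · apply mul_le_mul_of_nonneg_left _ hcp
      nlinarith [e3.1]
    · apply mul_le_mul_of_nonneg_left _ hcp
      nlinarith [e3.2]
  have one_mem : (1 : ℝ) ∈ Icc (0 : ℝ) 1 := right_mem_Icc.2 zero_le_one
  -- lower bound for f 1 1
  have L1 := taylor_lower (n + 1) (fun j => f (j + 1)) (c ^ (2 * (n + 2)) * (ws ^ 2 / 2))
    (fun j _ s hs => hder (j + 1) s hs) (fun j hjn => hf0 (j + 1) (by omega))
    (fun s hs => (hfn s hs).1) 1 one_mem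
  have L2 := taylor_lower (n + 2) f (c ^ (2 * (n + 2)) * (ws ^ 2 / 2))
    (fun j _ s hs => hder j s hs) hf0 (fun s hs => (hfn s hs).1) 1 one_mem
  have L3 := taylor_lower (n + 2) (fun j s => - f j s) (-(c ^ (2 * (n + 2)) * (3 / 2 * ws ^ 2)))
    (fun j _ s hs => (hder j s hs).neg) (fun j hjn => by rw [hf0 j hjn, neg_zero])
    (fun s hs => neg_le_neg (hfn s hs).2) 1 one_mem
  simp only [one_pow, mul_one, zero_add] at L1 L2 L3
  have hcabs : c ^ (2 * (n + 2)) = |c| ^ (2 * (n + 2)) := by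
    rw [pow_mul, pow_mul, sq_abs]
  have hfac : ∀ m : ℕ, (1 : ℝ) ≤ (m.factorial : ℝ) := by
    intro m
    exact_mod_cast Nat.one_le_iff_ne_zero.2 (Nat.factorial_ne_zero m)
  -- bound for W - E0
  have B1 : |W (kt + c • h) - E0| ≤ |c| ^ (n + 2) * (3 / 2 * |ws|) := by
    have e1 : f 0 1 = c ^ (n + 2) * ws * (W (kt + c • h) - E0) := by
      simp [hf, Dd_zero]
    have e2 : 0 ≤ f 0 1 := by
      refine le_trans ?_ L2
      rw [hcabs]; positivity
    have e3 : f 0 1 ≤ |c| ^ (2 * (n + 2)) * (3 / 2 * ws ^ 2) := by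
      have h1 : f 0 1 ≤ (c ^ (2 * (n + 2)) * (3 / 2 * ws ^ 2)) / ((n + 2).factorial : ℝ) := by
        rw [neg_div] at L3
        linarith
      refine h1.trans ?_
      rw [hcabs]
      apply div_le_self (by positivity) (hfac _)
    have e4 : |f 0 1| = |c| ^ (n + 2) * |ws| * |W (kt + c • h) - E0| := by
      rw [e1, abs_mul, abs_mul, abs_pow]
    rw [abs_of_nonneg e2] at e4
    rw [e4] at e3
    have hp : 0 < |c| ^ (n + 2) * |ws| := by positivity
    have e5 : |c| ^ (2 * (n + 2)) * (3 / 2 * ws ^ 2) =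
        |c| ^ (n + 2) * |ws| * (|c| ^ (n + 2) * (3 / 2 * |ws|)) := by
      rw [← sq_abs ws]; ring
    rw [e5] at e3
    exact le_of_mul_le_mul_left e3 hp
  -- bound for the derivative
  have B2 : |c| ^ (n + 1) ≤ (2 * (n + 1).factorial * ‖h‖ / |ws|) *
      ‖fderiv ℝ W (kt + c • h)‖ := by
    have e1 : f 1 1 = c ^ (n + 2) * ws * (c * fderiv ℝ W (kt + c • h) h) := by
      simp only [hf, one_smul, Dd_one, one_ne_zero, if_false, sub_zero, map_smul, smul_eq_mul]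
    have e2 : |f 1 1| ≤ |c| ^ (n + 2) * |ws| * (|c| * (‖fderiv ℝ W (kt + c • h)‖ * ‖h‖)) := by
      rw [e1, abs_mul, abs_mul, abs_mul, abs_pow]
      gcongr
      rw [← Real.norm_eq_abs]
      exact ContinuousLinearMap.le_opNorm _ _
    have e3 : |c| ^ (2 * (n + 2)) * (ws ^ 2 / 2) / ((n + 1).factorial : ℝ) ≤ |f 1 1| := by
      rw [← hcabs]
      exact L1.trans (le_abs_self _)
    have e4 := e3.trans e2
    have hfp : 0 < ((n + 1).factorial : ℝ) := by positivity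
    rw [div_le_iff₀ hfp] at e4
    have hp : 0 < |c| ^ (n + 3) * |ws| := by positivity
    have e5 : |c| ^ (2 * (n + 2)) * (ws ^ 2 / 2) = (|c| ^ (n + 3) * |ws|) *
        (|c| ^ (n + 1) * (|ws| / 2)) := by
      rw [← sq_abs ws]; ring
    have e6 : |c| ^ (n + 2) * |ws| * (|c| * (‖fderiv ℝ W (kt + c • h)‖ * ‖h‖)) *
        ((n + 1).factorial : ℝ) = (|c| ^ (n + 3) * |ws|) *
        (‖fderiv ℝ W (kt + c • h)‖ * ‖h‖ * ((n + 1).factorial : ℝ)) := by ring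
    rw [e5, e6] at e4
    have e7 := le_of_mul_le_mul_left e4 hp
    have e8 : (2 * (n + 1).factorial * ‖h‖ / |ws|) * ‖fderiv ℝ W (kt + c • h)‖ =
        (‖fderiv ℝ W (kt + c • h)‖ * ‖h‖ * ((n + 1).factorial : ℝ)) / (|ws| / 2) := by
      field_simp
    rw [e8, le_div_iff₀ (by positivity)]
    exact e7
  calc |W (kt + c • h) - E0| ^ (n + 1)
      ≤ (|c| ^ (n + 2) * (3 / 2 * |ws|)) ^ (n + 1) := by gcongr
    _ = (3 / 2 * |ws|) ^ (n + 1) * (|c| ^ (n + 1)) ^ (n + 2) := by ring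
    _ ≤ (3 / 2 * |ws|) ^ (n + 1) * ((2 * (n + 1).factorial * ‖h‖ / |ws|) *
      ‖fderiv ℝ W (kt + c • h)‖) ^ (n + 2) := by gcongr
    _ = _ := by rw [mul_pow]; ring

/-- clopen argument -/
lemma clopen_arg {X : Type*} [MetricSpace X] (Ω : Set X)
    (hΩp : IsPreconnected Ω) (O : Set X) (hO : IsOpen O) (zs z' : X) (hzs : zs ∈ Ω)
    (hzsO : zs ∈ O) (hz' : z' ∈ Ω) (hz'O : z' ∉ O) (lam : X → ℝ) (hlam : Continuous lam)
    (γ : ℝ → X) (ε : ℝ) (hγ : ContinuousOn γ (Icc (lam zs - ε) (lam zs + ε)))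
    (hγO : ∀ t ∈ Icc (lam zs - ε) (lam zs + ε), γ t ∈ O)
    (hinv : ∀ z ∈ Ω, z ∈ O → γ (lam z) = z) :
    (∀ t ∈ Ioo (lam zs - ε) (lam zs), ∃ z ∈ Ω, z ∈ O ∧ lam z = t) ∨
    (∀ t ∈ Ioo (lam zs) (lam zs + ε), ∃ z ∈ Ω, z ∈ O ∧ lam z = t) := by
  by_contra hcon
  push Not at hcon
  obtain ⟨⟨t1, ht1, hn1⟩, ⟨t2, ht2, hn2⟩⟩ := hcon
  have hsub : Icc t1 t2 ⊆ Icc (lam zs - ε) (lam zs + ε) :=
    Icc_subset_Icc ht1.1.le ht2.2.le
  set G : Set X := γ '' (Icc t1 t2) with hG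
  have hGc : IsCompact G := isCompact_Icc.image_of_continuousOn (hγ.mono hsub)
  set U : Set X := O ∩ {z | t1 < lam z ∧ lam z < t2} with hU
  set F : Set X := G ∩ {z | t1 ≤ lam z ∧ lam z ≤ t2} with hF
  have hUo : IsOpen U := by
    apply hO.inter
    exact (isOpen_lt continuous_const hlam).inter (isOpen_lt hlam continuous_const)
  have hFc : IsClosed F := by
    apply hGc.isClosed.inter
    exact (isClosed_le continuous_const hlam).inter (isClosed_le hlam continuous_const)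
  have hGO : G ⊆ O := by
    rintro _ ⟨t, ht, rfl⟩
    exact hγO t (hsub ht)
  have hcover : Ω ⊆ U ∪ Fᶜ := by
    intro z hz
    by_cases hzF : z ∈ F
    · left
      have hzO := hGO hzF.1
      refine ⟨hzO, lt_of_le_of_ne hzF.2.1 ?_, lt_of_le_of_ne hzF.2.2 ?_⟩
      · intro h; exact hn1 z hz hzO h.symm
      · intro h; exact hn2 z hz hzO h
    · right; exact hzF
  have hne1 : (Ω ∩ U).Nonempty := ⟨zs, hzs, hzsO, ht1.2, ht2.1⟩
  have hne2 : (Ω ∩ Fᶜ).Nonempty := ⟨z', hz', fun h => hz'O (hGO h.1)⟩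
  obtain ⟨z, hz, hzU, hzF⟩ := hΩp U Fᶜ hUo hFc.isOpen_compl hcover hne1 hne2
  apply hzF
  refine ⟨⟨lam z, ⟨hzU.2.1.le, hzU.2.2.le⟩, hinv z hz hzU.1⟩, hzU.2.1.le, hzU.2.2.le⟩

lemma ker_l {h v : ℝ × ℝ} (hh : h ≠ 0) (hl : h.2 * v.1 - h.1 * v.2 = 0) :
    ∃ c : ℝ, v = c • h := by
  have hpos : 0 < h.1 ^ 2 + h.2 ^ 2 := by
    rcases eq_or_ne h.1 0 with h1 | h1
    · have h2 : h.2 ≠ 0 := by
        intro h2; exact hh (Prod.ext h1 h2)
      positivity
    · positivity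
  refine ⟨(v.1 * h.1 + v.2 * h.2) / (h.1 ^ 2 + h.2 ^ 2), ?_⟩
  apply Prod.ext
  · simp only [Prod.smul_fst, smul_eq_mul]
    rw [div_mul_eq_mul_div, eq_div_iff hpos.ne']
    linear_combination h.2 * hl
  · simp only [Prod.smul_snd, smul_eq_mul]
    rw [div_mul_eq_mul_div, eq_div_iff hpos.ne']
    linear_combination (-h.1) * hl

end NB

open NB in
/-- Module NB (planar/arc lemma). -/
theorem planar_nice {X : Type*} [MetricSpace X]
    (Ω : Set X) (hΩc : IsCompact Ω) (hΩp : IsPreconnected Ω)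
    (z0 z2 : X) (h0 : z0 ∈ Ω) (h2 : z2 ∈ Ω) (hne : z0 ≠ z2)
    (κ : X → ℝ × ℝ) (hκ : Continuous κ) (Γ : ℝ × ℝ → X) (W : ℝ × ℝ → ℝ) (E0 ρ ρ' : ℝ)
    (hρ : 0 < ρ) (hρ' : 0 < ρ')
    (hΓ : ∀ k, ‖k‖ < ρ → ContinuousAt Γ k)
    (hW : ∀ k, ‖k‖ < ρ → AnalyticAt ℝ W k)
    (hκρ : ∀ z, dist z z0 < ρ' → ‖κ z‖ < ρ)
    (hΓκ : ∀ z ∈ Ω, dist z z0 < ρ' → Γ (κ z) = z)
    (hcrit : ∀ z ∈ Ω, dist z z0 < ρ' → fderiv ℝ W (κ z) = 0)
    (hval : ∀ z ∈ Ω, dist z z0 < ρ' → W (κ z) = E0) :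
    ∃ z1 ∈ Ω, dist z1 z0 < ρ' ∧ ∃ m : ℕ, 2 ≤ m ∧ ∃ C r : ℝ, 0 < C ∧ 0 < r ∧
      ∀ k, ‖k - κ z1‖ < r → |W k - E0| ^ (m - 1) ≤ C * ‖fderiv ℝ W k‖ ^ m := by
  classical
  by_cases hcase : ∃ z1 ∈ Ω, dist z1 z0 < ρ' ∧ ∀ h j, 1 ≤ j → Dd W h j (κ z1) = 0
  · obtain ⟨z1, hz1, hd1, hall⟩ := hcase
    obtain ⟨r, hr, hconst⟩ := const_case (hW _ (hκρ z1 hd1)) hall
    refine ⟨z1, hz1, hd1, 2, le_rfl, 1, r, one_pos, hr, fun k hk => ?_⟩
    rw [hconst k hk, hval z1 hz1 hd1, sub_self, abs_zero]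
    simp only [Nat.add_one_sub_one, pow_one]
    positivity
  push Not at hcase
  have hex : ∃ i, 1 ≤ i ∧ ∃ z ∈ Ω, dist z z0 < ρ' ∧ ∃ h, Dd W h i (κ z) ≠ 0 := by
    obtain ⟨h, j, hj, hne⟩ := hcase z0 h0 (by simpa using hρ')
    exact ⟨j, hj, z0, h0, by simpa using hρ', h, hne⟩
  obtain ⟨hi1, zs, hzs, hds, h, hwne⟩ := Nat.find_spec hex
  have hmin : ∀ j, 1 ≤ j → j < Nat.find hex → ∀ z ∈ Ω, dist z z0 < ρ' → ∀ h,
      Dd W h j (κ z) = 0 := by
    intro j hj hjlt z hz hdz h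
    by_contra hcon
    exact Nat.find_min hex hjlt ⟨hj, z, hz, hdz, h, hcon⟩
  have hi2 : 2 ≤ Nat.find hex := by
    by_contra hlt
    have h1 : Nat.find hex = 1 := by omega
    rw [h1, Dd_one, hcrit zs hzs hds] at hwne
    exact hwne rfl
  obtain ⟨n, hn⟩ : ∃ n, Nat.find hex = n + 2 := ⟨Nat.find hex - 2, by omega⟩
  rw [hn] at hwne hmin
  clear hcase hi1 hi2 hn
  set ks := κ zs with hks
  set ws := Dd W h (n + 2) ks with hws
  have hh : h ≠ 0 := by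
    intro h0'
    apply hwne
    rw [hws, h0']
    have := Dd_smul W (0 : ℝ × ℝ) ks 0 (n + 2)
    rw [zero_smul] at this
    rw [this]; simp
  have hksρ : ‖ks‖ < ρ := hκρ zs hds
  have hwpos : 0 < |ws| := abs_pos.2 hwne
  -- the good ball
  obtain ⟨δ, hδ, hball⟩ : ∃ δ > 0, ∀ k ∈ Metric.ball ks δ, ‖k‖ < ρ ∧
      |Dd W h (n + 2) k - ws| ≤ |ws| / 2 := by
    have e1 : ∀ᶠ k in 𝓝 ks, ‖k‖ < ρ := continuous_norm.continuousAt.eventually_lt_const hksρ
    have e2 : ∀ᶠ k in 𝓝 ks, |Dd W h (n + 2) k - ws| ≤ |ws| / 2 := by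
      have c1 : ContinuousAt (fun k => |Dd W h (n + 2) k - ws|) ks :=
        (((analyticAt_Dd (hW ks hksρ) h (n + 2)).continuousAt).sub continuousAt_const).abs
      have c2 : |Dd W h (n + 2) ks - ws| < |ws| / 2 := by
        rw [← hws, sub_self, abs_zero]; positivity
      exact (c1.eventually_lt_const c2).mono fun k hk => hk.le
    exact Metric.eventually_nhds_iff_ball.1 (e1.and e2)
  -- the chart
  set l : ℝ × ℝ →L[ℝ] ℝ := h.2 • ContinuousLinearMap.fst ℝ ℝ ℝ -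
    h.1 • ContinuousLinearMap.snd ℝ ℝ ℝ with hl
  have hlapp : ∀ v, l v = h.2 * v.1 - h.1 * v.2 := by
    intro v; simp [hl]
  set g : ℝ × ℝ → ℝ := Dd W h (n + 1) with hg
  have hgs : HasStrictFDerivAt g (fderiv ℝ g ks) ks :=
    (analyticAt_Dd (hW ks hksρ) h (n + 1)).hasStrictFDerivAt
  set L0 : ℝ × ℝ →L[ℝ] ℝ × ℝ := (fderiv ℝ g ks).prod l with hL0
  have hinj : Function.Injective (L0 : ℝ × ℝ →ₗ[ℝ] ℝ × ℝ) := by
    rw [injective_iff_map_eq_zero]
    intro v hv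
    have hv' : (fderiv ℝ g ks v, l v) = (0 : ℝ × ℝ) := hv
    rw [Prod.mk_eq_zero] at hv'
    obtain ⟨hv1, hv2⟩ := hv'
    rw [hlapp] at hv2
    obtain ⟨c, hc⟩ := ker_l hh hv2
    rw [hc, map_smul, fderiv_Dd (hW ks hksρ) h (n + 1), smul_eq_mul] at hv1
    rcases mul_eq_zero.1 hv1 with hc0 | hc0
    · rw [hc, hc0, zero_smul]
    · exact absurd hc0 hwne
  set L : (ℝ × ℝ) ≃L[ℝ] (ℝ × ℝ) :=
    (LinearEquiv.ofInjectiveEndo (L0 : ℝ × ℝ →ₗ[ℝ] ℝ × ℝ) hinj).toContinuousLinearEquiv with hLdef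
  have hLL : (L : ℝ × ℝ →L[ℝ] ℝ × ℝ) = L0 := by
    ext <;> rfl
  set Θ : ℝ × ℝ → ℝ × ℝ := fun k => (g k, l k) with hΘ
  have hstrict : HasStrictFDerivAt Θ (L : ℝ × ℝ →L[ℝ] ℝ × ℝ) ks := by
    rw [hLL]
    exact hgs.prodMk l.hasStrictFDerivAt
  set Φ := hstrict.toOpenPartialHomeomorph Θ with hΦ
  have hsrc : ks ∈ Φ.source := hstrict.mem_toOpenPartialHomeomorph_source
  have hΦcoe : ∀ k, Φ k = Θ k := fun k => rfl
  have hg0 : ∀ z ∈ Ω, dist z z0 < ρ' → g (κ z) = 0 := fun z hz hd =>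
    hmin (n + 1) (by omega) (by omega) z hz hd h
  set ts : ℝ := l ks with hts
  have hΦks : Φ ks = (0, ts) := by
    rw [hΦcoe]
    show (g ks, l ks) = (0, ts)
    rw [hg0 zs hzs hds]
  have htar : ((0 : ℝ), ts) ∈ Φ.target := by
    rw [← hΦks]; exact Φ.map_source hsrc
  set kt : ℝ → ℝ × ℝ := fun t => Φ.symm (0, t) with hkt
  have hktts : kt ts = ks := by
    rw [hkt]
    show Φ.symm (0, ts) = ks
    rw [← hΦks]; exact Φ.left_inv hsrc
  have hktc : ∀ t, ((0 : ℝ), t) ∈ Φ.target → ContinuousAt kt t := by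
    intro t ht
    have h1 : ContinuousAt (fun t : ℝ => ((0 : ℝ), t)) t := by fun_prop
    exact ContinuousAt.comp (f := fun t : ℝ => ((0 : ℝ), t)) (g := Φ.symm)
      (Φ.continuousAt_symm ht) h1
  -- the point outside
  obtain ⟨z', hz', hz'ne⟩ : ∃ z' ∈ Ω, z' ≠ zs := by
    by_cases hzz : z0 = zs
    · exact ⟨z2, h2, fun hc => hne (hzz.trans hc.symm)⟩
    · exact ⟨z0, h0, hzz⟩
  have hη : 0 < dist z' zs := dist_pos.2 hz'ne
  set O : Set X := {z | dist z zs < dist z' zs} ∩ ({z | dist z z0 < ρ'} ∩ κ ⁻¹' Φ.source) with hO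
  have hOo : IsOpen O := by
    apply IsOpen.inter
    · exact isOpen_lt (continuous_id.dist continuous_const) continuous_const
    · apply IsOpen.inter
      · exact isOpen_lt (continuous_id.dist continuous_const) continuous_const
      · exact Φ.open_source.preimage hκ
  have hzsO : zs ∈ O := ⟨by simpa using hη, hds, hsrc⟩
  have hz'O : z' ∉ O := fun hc => lt_irrefl (dist z' zs) hc.1
  have hinvκ : ∀ z ∈ Ω, z ∈ O → kt (l (κ z)) = κ z := by
    intro z hz hzO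
    have e1 : Φ (κ z) = (0, l (κ z)) := by
      rw [hΦcoe]
      show (g (κ z), l (κ z)) = (0, l (κ z))
      rw [hg0 z hz hzO.2.1]
    show Φ.symm (0, l (κ z)) = κ z
    rw [← e1]
    exact Φ.left_inv hzO.2.2
  -- eventually in t
  obtain ⟨ε', hε', hev⟩ : ∃ ε' > 0, ∀ t ∈ Metric.ball ts ε', ((0 : ℝ), t) ∈ Φ.target ∧
      kt t ∈ Metric.ball ks δ ∧ Γ (kt t) ∈ O := by
    have e1 : ∀ᶠ t in 𝓝 ts, ((0 : ℝ), t) ∈ Φ.target := by
      have c1 : ContinuousAt (fun t : ℝ => ((0 : ℝ), t)) ts := by fun_prop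
      exact c1.eventually_mem (Φ.open_target.mem_nhds htar)
    have e2 : ∀ᶠ t in 𝓝 ts, kt t ∈ Metric.ball ks δ := by
      apply (hktc ts htar).eventually_mem
      rw [hktts]
      exact Metric.ball_mem_nhds ks hδ
    have e3 : ∀ᶠ t in 𝓝 ts, Γ (kt t) ∈ O := by
      have c1 : ContinuousAt (fun t => Γ (kt t)) ts := by
        apply ContinuousAt.comp (f := kt) (g := Γ) _ (hktc ts htar)
        rw [hktts]
        exact hΓ ks hksρ
      apply c1.eventually_mem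
      have c2 : Γ (kt ts) = zs := by
        rw [hktts]; exact hΓκ zs hzs hds
      rw [c2]
      exact hOo.mem_nhds hzsO
    exact Metric.eventually_nhds_iff_ball.1 (e1.and (e2.and e3))
  set ε : ℝ := ε' / 2 with hε
  have hεpos : 0 < ε := by positivity
  have hIcc : ∀ t ∈ Icc (ts - ε) (ts + ε), t ∈ Metric.ball ts ε' := by
    intro t ht
    rw [Metric.mem_ball, Real.dist_eq]
    have : |t - ts| ≤ ε := abs_le.2 ⟨by linarith [ht.1], by linarith [ht.2]⟩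
    refine lt_of_le_of_lt this ?_
    rw [hε]; linarith
  have hclop := clopen_arg Ω hΩp O hOo zs z' hzs hzsO hz' hz'O (fun z => l (κ z))
    (l.continuous.comp hκ) (fun t => Γ (kt t)) ε
    (by
      intro t ht
      have ht' := hev t (hIcc t ht)
      apply ContinuousAt.continuousWithinAt
      exact ContinuousAt.comp (f := kt) (g := Γ) (hΓ _ (hball _ ht'.2.1).1) (hktc t ht'.1))
    (fun t ht => (hev t (hIcc t ht)).2.2)
    (fun z hz hzO => by
      show Γ (kt (l (κ z))) = z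
      rw [hinvκ z hz hzO]
      exact hΓκ z hz hzO.2.1)
  obtain ⟨α, β, hαβ, hsub, hT⟩ : ∃ α β : ℝ, α < β ∧ Ioo α β ⊆ Icc (ts - ε) (ts + ε) ∧
      ∀ t ∈ Ioo α β, ∃ z ∈ Ω, z ∈ O ∧ l (κ z) = t := by
    rcases hclop with hc | hc
    · refine ⟨ts - ε, ts, by linarith, ?_, hc⟩
      intro t ht; exact ⟨ht.1.le, by linarith [ht.2]⟩
    · refine ⟨ts, ts + ε, by linarith, ?_, hc⟩
      intro t ht; exact ⟨by linarith [ht.1], ht.2.le⟩
  obtain ⟨z1, hz1, hz1O, hl1⟩ := hT ((α + β) / 2) ⟨by linarith, by linarith⟩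
  have hkz : ∀ z ∈ Ω, z ∈ O → l (κ z) ∈ Ioo α β → κ z ∈ Metric.ball ks δ := by
    intro z hz hzO hlz
    rw [← hinvκ z hz hzO]
    exact (hev _ (hIcc _ (hsub hlz))).2.1
  have hk1 : κ z1 ∈ Metric.ball ks δ := hkz z1 hz1 hz1O (by rw [hl1]; exact ⟨by linarith, by linarith⟩)
  obtain ⟨r, hr, hrr⟩ : ∃ r > 0, ∀ k ∈ Metric.ball (κ z1) r, k ∈ Metric.ball ks δ ∧
      l k ∈ Ioo α β := by
    have e1 : ∀ᶠ k in 𝓝 (κ z1), k ∈ Metric.ball ks δ := Metric.isOpen_ball.mem_nhds hk1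
    have e2 : ∀ᶠ k in 𝓝 (κ z1), l k ∈ Ioo α β := by
      apply l.continuous.continuousAt.eventually_mem
      rw [hl1]
      exact Ioo_mem_nhds (by linarith) (by linarith)
    exact Metric.eventually_nhds_iff_ball.1 (e1.and e2)
  refine ⟨z1, hz1, hz1O.2.1, n + 2, by omega, (3 / 2 * |ws|) ^ (n + 1) *
      (2 * (n + 1).factorial * ‖h‖ / |ws|) ^ (n + 2), r, ?_, hr, ?_⟩
  · have : 0 < ‖h‖ := norm_pos_iff.2 hh
    positivity
  · intro k hk
    obtain ⟨hkb, hlk⟩ := hrr k (by rw [Metric.mem_ball, dist_eq_norm]; exact hk)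
    obtain ⟨z, hz, hzO, hlz⟩ := hT (l k) hlk
    have hzb : κ z ∈ Metric.ball ks δ := hkz z hz hzO (by rw [hlz]; exact hlk)
    have hker : l (k - κ z) = 0 := by rw [map_sub, hlz, sub_self]
    rw [hlapp] at hker
    obtain ⟨c, hc⟩ := ker_l hh hker
    have hkk : k = κ z + c • h := by rw [← hc]; abel
    have hseg : ∀ s ∈ Icc (0 : ℝ) 1, κ z + s • (c • h) ∈ Metric.ball ks δ := by
      intro s hs
      have := (convex_ball ks δ).add_smul_sub_mem hzb hkb hs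
      rwa [hc] at this
    have key := point_ineq W E0 ws hwne n h (κ z) hh c
      (fun s hs => hW _ (hball _ (hseg s hs)).1) (hval z hz hzO.2.1)
      (fun j hj1 hj2 => hmin j hj1 hj2 z hz hzO.2.1 h)
      (fun s hs => (hball _ (hseg s hs)).2)
    rw [← hkk] at key
    exact key

end Pool.Agent.H.MP_e9f8c5_pr
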