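import Pool.Agent.H.MP_e9f8c5_pr.NA
import Pool.Agent.H.MP_e9f8c5_pr.NB

set_option autoImplicit false

open scoped Topology
open Filter Set

namespace Pool.Agent.H.MP_e9f8c5_pr

/-- Combination of NA and NB. -/
theorem exists_nice {X : Type*} [NormedAddCommGroup X] [NormedSpace ℝ X] [CompleteSpace X]
    (F : X → X) (E : X → ℝ) (E0 : ℝ) (Ω : Set X) (hΩc : IsCompact Ω) (hΩp : IsPreconnected Ω)
    (z0 z2 : X) (h0 : z0 ∈ Ω) (h2 : z2 ∈ Ω) (hne : z0 ≠ z2)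
    (hF : ∀ z, AnalyticAt ℝ F z) (hE : ∀ z, AnalyticAt ℝ E z)
    (hzero : ∀ z ∈ Ω, F z = 0) (hconst : ∀ z ∈ Ω, E z = E0)
    (hDE : ∀ R : ℝ, ∃ C : ℝ, ∀ z, ‖z‖ ≤ R → ‖fderiv ℝ E z‖ ≤ C * ‖F z‖)
    (P : X →L[ℝ] ℝ × ℝ) (J : ℝ × ℝ →L[ℝ] X) (L : X ≃L[ℝ] X)
    (hL : ∀ h, L h = fderiv ℝ F z0 h + J (P h)) :
    ∃ z1 ∈ Ω, ∃ m : ℕ, 2 ≤ m ∧ ∃ C r : ℝ, 0 < C ∧ 0 < r ∧
      ∀ z, ‖z - z1‖ < r → |E z - E0| ^ (m - 1) ≤ C * ‖F z‖ ^ m := by
  obtain ⟨Γ, ρ, ρ', C, hρ, hρ', hC, c1, c2, c3, c4, c5, c6⟩ :=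
    exists_chart F E z0 (hzero z0 h0) hF hE hDE P J L hL
  have hd : ∀ z : X, dist z z0 < ρ' → ‖z - z0‖ < ρ' := fun z hz => by rwa [dist_eq_norm] at hz
  obtain ⟨z1, hz1, hz1', m, hm, C1, r1, hC1, hr1, hW⟩ := planar_nice Ω hΩc hΩp z0 z2 h0 h2 hne
    (fun z => P (z - z0)) (P.continuous.comp (continuous_id.sub continuous_const)) Γ
    (fun k => E (Γ k)) E0 ρ ρ' hρ hρ' c1 c2 (fun z hz => c3 z (hd z hz))
    (fun z hz hz' => c4 z (hd z hz') (hzero z hz))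
    (fun z hz hz' => by
      have := c6 z (hd z hz')
      rw [hzero z hz, norm_zero, mul_zero] at this
      exact norm_le_zero_iff.1 this)
    (fun z hz hz' => by
      show E (Γ (P (z - z0))) = E0
      rw [c4 z (hd z hz') (hzero z hz), hconst z hz])
  -- neighbourhoods
  have hFc : ContinuousAt F z1 := (hF z1).continuousAt
  obtain ⟨r2, hr2, hr2'⟩ : ∃ r2 > 0, ∀ z, ‖z - z1‖ < r2 → ‖F z‖ ≤ 1 := by
    rw [Metric.continuousAt_iff] at hFc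
    obtain ⟨r2, hr2, h⟩ := hFc 1 one_pos
    refine ⟨r2, hr2, fun z hz => ?_⟩
    have := h (by rwa [dist_eq_norm])
    rw [hzero z1 hz1, dist_zero_right] at this
    exact this.le
  have hgap : 0 < ρ' - ‖z1 - z0‖ := by have := hd z1 hz1'; linarith
  refine ⟨z1, hz1, m, hm, 2 ^ (m - 1) * (C ^ (m - 1) + C1 * C ^ m),
    min (min r2 (ρ' - ‖z1 - z0‖)) (r1 / (‖P‖ + 1)), by positivity, by positivity, ?_⟩
  intro z hz
  have hza : ‖z - z1‖ < r2 := lt_of_lt_of_le hz ((min_le_left _ _).trans (min_le_left _ _))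
  have hzb : ‖z - z1‖ < ρ' - ‖z1 - z0‖ :=
    lt_of_lt_of_le hz ((min_le_left _ _).trans (min_le_right _ _))
  have hzc : ‖z - z1‖ < r1 / (‖P‖ + 1) := lt_of_lt_of_le hz (min_le_right _ _)
  have hzρ : ‖z - z0‖ < ρ' := by
    have : z - z0 = (z - z1) + (z1 - z0) := by abel
    rw [this]
    exact lt_of_le_of_lt (norm_add_le _ _) (by linarith)
  have hF1 := hr2' z hza
  have hk : ‖P (z - z0) - P (z1 - z0)‖ < r1 := by
    rw [← map_sub, show z - z0 - (z1 - z0) = z - z1 by abel]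
    calc ‖P (z - z1)‖ ≤ ‖P‖ * ‖z - z1‖ := P.le_opNorm _
      _ ≤ (‖P‖ + 1) * ‖z - z1‖ := by gcongr; linarith
      _ < (‖P‖ + 1) * (r1 / (‖P‖ + 1)) := by gcongr
      _ = r1 := by field_simp
  have hw := hW _ hk
  have ha := c5 z hzρ
  have hb := c6 z hzρ
  set a := |E z - E (Γ (P (z - z0)))| with ha'
  set b := |E (Γ (P (z - z0))) - E0| with hb'
  set f := ‖F z‖ with hf
  have ha0 : 0 ≤ a := abs_nonneg _
  have hb0 : 0 ≤ b := abs_nonneg _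
  have hf0 : 0 ≤ f := norm_nonneg _
  have hab : |E z - E0| ≤ a + b := by
    have : E z - E0 = (E z - E (Γ (P (z - z0)))) + (E (Γ (P (z - z0))) - E0) := by ring
    rw [this]; exact abs_add_le _ _
  have h1 : a ^ (m - 1) ≤ C ^ (m - 1) * f ^ m := by
    calc a ^ (m - 1) ≤ (C * f ^ 2) ^ (m - 1) := by gcongr
      _ = C ^ (m - 1) * f ^ (2 * (m - 1)) := by rw [mul_pow, pow_mul]
      _ ≤ C ^ (m - 1) * f ^ m := by
          have := pow_le_pow_of_le_one hf0 hF1 (show m ≤ 2 * (m - 1) by omega)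
          gcongr
  have h3 : b ^ (m - 1) ≤ C1 * C ^ m * f ^ m := by
    calc b ^ (m - 1) ≤ C1 * ‖fderiv ℝ (fun k => E (Γ k)) (P (z - z0))‖ ^ m := hw
      _ ≤ C1 * (C * f) ^ m := by gcongr
      _ = _ := by rw [mul_pow]; ring
  have h4 : (a + b) ^ (m - 1) ≤ 2 ^ (m - 1) * (a ^ (m - 1) + b ^ (m - 1)) := by
    rcases le_total a b with h | h
    · calc (a + b) ^ (m - 1) ≤ (2 * b) ^ (m - 1) := by gcongr; linarith
        _ = 2 ^ (m - 1) * b ^ (m - 1) := by rw [mul_pow]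
        _ ≤ _ := by have := pow_nonneg ha0 (m - 1); gcongr; linarith
    · calc (a + b) ^ (m - 1) ≤ (2 * a) ^ (m - 1) := by gcongr; linarith
        _ = 2 ^ (m - 1) * a ^ (m - 1) := by rw [mul_pow]
        _ ≤ _ := by have := pow_nonneg hb0 (m - 1); gcongr; linarith
  calc |E z - E0| ^ (m - 1) ≤ (a + b) ^ (m - 1) := by gcongr
    _ ≤ 2 ^ (m - 1) * (a ^ (m - 1) + b ^ (m - 1)) := h4
    _ ≤ 2 ^ (m - 1) * (C ^ (m - 1) * f ^ m + C1 * C ^ m * f ^ m) := by gcongr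
    _ = _ := by ring

end Pool.Agent.H.MP_e9f8c5_pr
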