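import Mathlib

set_option autoImplicit false

open scoped Topology
open Filter Set

namespace Pool.Agent.H.MP_e9f8c5_pr

/-- The one step estimate for the Lojasiewicz type telescoping. -/
theorem trap_step (C : ℝ) (hC : 0 < C) (m : ℕ) (hm : 2 ≤ m) (a b d : ℝ) (ha1 : a ≤ 1)
    (hb : 0 ≤ b) (hba : b ≤ a) (hd : 0 ≤ d) (h1 : d ^ 2 ≤ C * (a ^ m - b ^ m))
    (h2 : (b ^ m) ^ (m - 1) ≤ C * d ^ m) :
    d ≤ (max C 1 * (2 + C * m * 2 ^ (m - 1))) * (a - b) := by
  have ha : 0 ≤ a := hb.trans hba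
  have hm0 : m ≠ 0 := by omega
  set C1 := max C 1 with hC1
  have hC1C : C ≤ C1 := le_max_left _ _
  have hC11 : 1 ≤ C1 := le_max_right _ _
  have hC10 : 0 < C1 := by linarith
  have hab : 0 ≤ a - b := by linarith
  have hmR : (0 : ℝ) ≤ m := Nat.cast_nonneg m
  -- b^(m-1) ≤ C1 d
  have h3 : b ^ (m - 1) ≤ C1 * d := by
    have h4 : (b ^ (m - 1)) ^ m ≤ (C1 * d) ^ m := by
      calc (b ^ (m - 1)) ^ m = (b ^ m) ^ (m - 1) := by rw [← pow_mul, ← pow_mul, mul_comm]
        _ ≤ C * d ^ m := h2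
        _ ≤ C1 ^ m * d ^ m := by
            gcongr
            calc C ≤ C1 := hC1C
              _ ≤ C1 ^ m := le_self_pow₀ hC11 hm0
        _ = (C1 * d) ^ m := by rw [mul_pow]
    exact le_of_pow_le_pow_left₀ hm0 (by positivity) h4
  have hnn : 0 ≤ C * m * 2 ^ (m - 1) := by positivity
  rcases le_total a (2 * b) with hcase | hcase
  · -- b ≥ a/2
    have h5 : a ^ m - b ^ m ≤ (a - b) * (m * a ^ (m - 1)) := by
      rw [← Commute.geom_sum₂_mul (Commute.all a b) m, mul_comm]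
      refine mul_le_mul_of_nonneg_left ?_ hab
      calc ∑ i ∈ Finset.range m, a ^ i * b ^ (m - 1 - i)
          ≤ ∑ i ∈ Finset.range m, a ^ (m - 1) := by
            refine Finset.sum_le_sum (fun i hi => ?_)
            have hi' : i < m := Finset.mem_range.1 hi
            calc a ^ i * b ^ (m - 1 - i) ≤ a ^ i * a ^ (m - 1 - i) := by gcongr
              _ = a ^ (m - 1) := by rw [← pow_add]; congr 1; omega
        _ = m * a ^ (m - 1) := by simp
    have h6 : a ^ (m - 1) ≤ 2 ^ (m - 1) * (C1 * d) := by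
      calc a ^ (m - 1) ≤ (2 * b) ^ (m - 1) := by gcongr
        _ = 2 ^ (m - 1) * b ^ (m - 1) := by rw [mul_pow]
        _ ≤ _ := by gcongr
    have h7 : d ^ 2 ≤ (C * m * 2 ^ (m - 1) * C1 * (a - b)) * d := by
      calc d ^ 2 ≤ C * (a ^ m - b ^ m) := h1
        _ ≤ C * ((a - b) * (m * a ^ (m - 1))) := by gcongr
        _ ≤ C * ((a - b) * (m * (2 ^ (m - 1) * (C1 * d)))) := by gcongr
        _ = _ := by ring
    have h8 : d ≤ C * m * 2 ^ (m - 1) * C1 * (a - b) := by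
      rcases hd.eq_or_lt with h0 | h0
      · rw [← h0]; positivity
      · rw [pow_two] at h7
        exact le_of_mul_le_mul_right h7 h0
    calc d ≤ C * m * 2 ^ (m - 1) * C1 * (a - b) := h8
      _ ≤ _ := by nlinarith [mul_nonneg hC10.le hab]
  · -- b ≤ a/2
    have h5 : d ^ 2 ≤ (C1 * a) ^ 2 := by
      calc d ^ 2 ≤ C * (a ^ m - b ^ m) := h1
        _ ≤ C * a ^ m := by
            have : 0 ≤ b ^ m := by positivity
            nlinarith
        _ ≤ C1 ^ 2 * a ^ 2 := by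
            have e1 : C ≤ C1 ^ 2 := hC1C.trans (le_self_pow₀ hC11 (by norm_num))
            have e2 : a ^ m ≤ a ^ 2 := pow_le_pow_of_le_one ha ha1 hm
            gcongr
        _ = (C1 * a) ^ 2 := by ring
    have h6 : d ≤ C1 * a := le_of_sq_le_sq h5 (by positivity)
    have h7 : a ≤ 2 * (a - b) := by linarith
    calc d ≤ C1 * a := h6
      _ ≤ C1 * (2 * (a - b)) := by gcongr
      _ ≤ _ := by nlinarith [mul_nonneg (mul_nonneg hC10.le hnn) hab]

theorem trap {M : Type*} [NormedAddCommGroup M] (z : ℕ → M) (z1 : M)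
    (hcl : MapClusterPt z1 atTop z) (ε : ℕ → ℝ) (hε0 : ∀ n, 0 ≤ ε n) (hmono : Antitone ε)
    (hlim : Tendsto ε atTop (𝓝 0)) (C r : ℝ) (hC : 0 < C) (hr : 0 < r) (m : ℕ) (hm : 2 ≤ m)
    (N0 : ℕ)
    (h1 : ∀ n, N0 ≤ n → ‖z (n + 2) - z (n + 1)‖ ^ 2 ≤ C * (ε n - ε (n + 1)))
    (h2 : ∀ n, N0 ≤ n → ‖z (n + 1) - z1‖ < r →
      ε (n + 1) ^ (m - 1) ≤ C * ‖z (n + 2) - z (n + 1)‖ ^ m) :
    Tendsto z atTop (𝓝 z1) := by
  have hm0 : m ≠ 0 := by omega
  -- the m-th roots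
  set δ : ℕ → ℝ := fun n => ε n ^ ((m : ℝ)⁻¹) with hδ
  have hδ0 : ∀ n, 0 ≤ δ n := fun n => Real.rpow_nonneg (hε0 n) _
  have hδm : ∀ n, δ n ^ m = ε n := fun n => Real.rpow_inv_natCast_pow (hε0 n) hm0
  have hδmono : Antitone δ := fun i j hij =>
    Real.rpow_le_rpow (hε0 j) (hmono hij) (by positivity)
  have hδlim : Tendsto δ atTop (𝓝 0) := by
    have h3 : (0 : ℝ) < (m : ℝ)⁻¹ := by
      have : 0 < m := by omega
      positivity
    have h4 := hlim.rpow_const (p := (m : ℝ)⁻¹) (Or.inr h3.le)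
    rwa [Real.zero_rpow h3.ne'] at h4
  set K : ℝ := max C 1 * (2 + C * m * 2 ^ (m - 1)) with hK
  have hK0 : 0 < K := by positivity
  have hstep : ∀ n, N0 ≤ n → δ n ≤ 1 → ‖z (n + 1) - z1‖ < r →
      ‖z (n + 2) - z (n + 1)‖ ≤ K * (δ n - δ (n + 1)) := by
    intro n hn hδ1 hnr
    refine trap_step C hC m hm (δ n) (δ (n + 1)) _ hδ1 (hδ0 _) (hδmono (Nat.le_succ n))
      (norm_nonneg _) ?_ ?_
    · rw [hδm, hδm]; exact h1 n hn
    · rw [hδm]; exact h2 n hn hnr
  rw [Metric.tendsto_atTop]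
  intro e he
  set s := min e r with hs
  have hs0 : 0 < s := lt_min he hr
  have hKδ : Tendsto (fun n => K * δ n) atTop (𝓝 0) := by
    simpa using hδlim.const_mul K
  have ev1 : ∀ᶠ n in atTop, δ n < 1 := hδlim.eventually (gt_mem_nhds one_pos)
  have ev2 : ∀ᶠ n in atTop, K * δ n < s / 2 := hKδ.eventually (gt_mem_nhds (by positivity))
  obtain ⟨N1, hN1⟩ := (ev1.and ev2).exists_forall_of_atTop
  have hfr : ∃ᶠ n in atTop, z n ∈ Metric.ball z1 (s / 2) :=
    mapClusterPt_iff_frequently.1 hcl _ (Metric.ball_mem_nhds z1 (by positivity))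
  obtain ⟨k, hk1, hk2⟩ := (hfr.and_eventually
    (eventually_ge_atTop (max N0 N1 + 1))).exists
  obtain ⟨n1, rfl⟩ : ∃ n1, k = n1 + 1 := ⟨k - 1, by omega⟩
  have hn10 : N0 ≤ n1 := by have := le_max_left N0 N1; omega
  have hn11 : N1 ≤ n1 := by have := le_max_right N0 N1; omega
  have hδn1 := (hN1 n1 hn11).1
  have hKn1 := (hN1 n1 hn11).2
  rw [Metric.mem_ball, dist_eq_norm] at hk1
  have key : ∀ j, ‖z (n1 + j + 1) - z1‖ < s / 2 + K * (δ n1 - δ (n1 + j)) := by
    intro j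
    induction j with
    | zero => simpa using hk1
    | succ j ih =>
      have hlt : ‖z (n1 + j + 1) - z1‖ < r := by
        have : K * (δ n1 - δ (n1 + j)) ≤ K * δ n1 := by
          have := mul_nonneg hK0.le (hδ0 (n1 + j))
          nlinarith
        have := min_le_right e r
        linarith
      have hst := hstep (n1 + j) (by omega) ((hδmono (by omega)).trans hδn1.le) hlt
      have e1 : z (n1 + (j + 1) + 1) - z1
          = (z (n1 + j + 2) - z (n1 + j + 1)) + (z (n1 + j + 1) - z1) := by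
        rw [show n1 + (j + 1) + 1 = n1 + j + 2 by ring]; abel
      have e2 : δ (n1 + (j + 1)) = δ (n1 + j + 1) := by rw [← add_assoc]
      rw [e1, e2]
      have := norm_add_le (z (n1 + j + 2) - z (n1 + j + 1)) (z (n1 + j + 1) - z1)
      nlinarith
  refine ⟨n1 + 1, fun n hn => ?_⟩
  obtain ⟨j, rfl⟩ : ∃ j, n = n1 + j + 1 := ⟨n - n1 - 1, by omega⟩
  rw [dist_eq_norm]
  have hj := key j
  have : K * (δ n1 - δ (n1 + j)) ≤ K * δ n1 := by
    have := mul_nonneg hK0.le (hδ0 (n1 + j))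
    nlinarith
  have := min_le_left e r
  linarith

end Pool.Agent.H.MP_e9f8c5_pr
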