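import Pool.Agent.H.MP_e9f8c5_pr.Core
import Pool.Agent.H.MP_e9f8c5_pr.Nice
import Pool.Agent.H.MP_e9f8c5_pr.Cube
import Pool.Agent.H.MP_e9f8c5_pr.Clusters
import Pool.Agent.H.MP_e9f8c5_pr.Trap
import Pool.Agent.H.MP_e9f8c5_pr.Deriv
import Pool.Agent.H.MP_e9f8c5_pr.Kernel

set_option autoImplicit false

open scoped Topology
open Filter Set

namespace Pool.Agent.H.MP_e9f8c5_pr

variable {c : ℕ} {p : ℕ → X} {J : ℕ → ℝ} {b : ℤ → ℝ}

theorem continuous_pw (n : ℕ) : Continuous (pw n) := by
  induction n with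
  | zero => exact continuous_id
  | succ n ih =>
    have : Continuous fun u : X => (mul u) (pw n u) :=
      (mul : X →L[ℝ] X →L[ℝ] X).continuous.clm_apply ih
    exact this

theorem continuous_Q (c : ℕ) : Continuous (Q c) := by
  unfold Q
  exact continuous_id.inner (continuous_pw _)

theorem continuous_F (c : ℕ) (Λ : ℝ) : Continuous (F c Λ) :=
  continuous_iff_continuousAt.2 fun z => (analyticAt_F c Λ z).continuousAt

theorem continuous_E (c : ℕ) (Λ : ℝ) : Continuous (E c Λ) :=
  continuous_iff_continuousAt.2 fun z => (analyticAt_E c Λ z).continuousAt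

theorem continuous_apply (k : ℤ) : Continuous (fun f : X => f k) := by
  have : Continuous (fun f : X => f k) := by
    rw [Metric.continuous_iff]
    intro f ε hε
    refine ⟨ε, hε, fun g hg => ?_⟩
    rw [Real.dist_eq]
    have h1 := abs_le_norm (g - f) k
    simp only [lp.coeFn_sub, Pi.sub_apply] at h1
    rw [dist_eq_norm] at hg
    exact lt_of_le_of_lt h1 hg
  exact this

theorem Iter.G_step (h : Iter c p J b) (n : ℕ) :
    G c (p n) = ((J n) ^ (c + 2) * J (n + 1)) • p (n + 2) := by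
  unfold G
  rw [h.step n, pw_smul, map_smul, h.step (n + 1), smul_smul]

theorem Iter.F_step (h : Iter c p J b) (Λ : ℝ) (n : ℕ) :
    F c Λ (p n) = p n - (Λ⁻¹ * ((J n) ^ (c + 2) * J (n + 1))) • p (n + 2) := by
  unfold F
  rw [h.G_step, smul_smul]

theorem Iter.E_step (h : Iter c p J b) {lam : ℝ} (hl : 0 < lam) (n : ℕ) :
    E c (lam ^ (c + 3)) (p n) = (c + 1 : ℝ) + eps c lam J n := by
  unfold E eps
  rw [h.Q_one, h.step n, Q_smul, h.Q_one]
  field_simp
  ring

theorem Iter.norm_F_le (h : Iter c p J b) {lam : ℝ} (hl : 0 < lam) (hJ : ∀ n, J n ≤ lam) (n : ℕ) :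
    ‖F c (lam ^ (c + 3)) (p n)‖ ≤
      ‖p (n + 2) - p n‖ + Real.sqrt (∑' k, b k ^ 2) * eps c lam J n := by
  rw [h.F_step]
  set ρ := (lam ^ (c + 3))⁻¹ * ((J n) ^ (c + 2) * J (n + 1)) with hρ
  have hJn := h.J_pos n
  have hm := h.J_mono (show n ≤ n + 1 by omega)
  have h1 : 1 - ρ ≤ eps c lam J n := by
    unfold eps
    have : (J n) ^ (c + 3) / lam ^ (c + 3) ≤ ρ := by
      rw [hρ, div_eq_inv_mul]
      gcongr
      calc (J n) ^ (c + 3) = (J n) ^ (c + 2) * J n := by ring
        _ ≤ _ := by gcongr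
    linarith
  have h2 : 0 ≤ 1 - ρ := by
    have : ρ ≤ 1 := by
      rw [hρ, inv_mul_le_iff₀ (by positivity), mul_one]
      calc (J n) ^ (c + 2) * J (n + 1) ≤ lam ^ (c + 2) * lam := by
            gcongr
            · exact (h.J_pos _).le
            · exact hJ n
            · exact hJ (n + 1)
        _ = _ := by ring
    linarith
  have e : p n - ρ • p (n + 2) = -(p (n + 2) - p n) + (1 - ρ) • p (n + 2) := by
    rw [sub_smul, one_smul]; abel
  rw [e]
  refine (norm_add_le _ _).trans ?_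
  rw [norm_neg, norm_smul, Real.norm_of_nonneg h2]
  have h3 : ‖p (n + 2)‖ ≤ Real.sqrt (∑' k, b k ^ 2) := h.norm_le (n + 1)
  have h4 : (1 - ρ) * ‖p (n + 2)‖ ≤ eps c lam J n * Real.sqrt (∑' k, b k ^ 2) := by
    have : 0 ≤ ‖p (n + 2)‖ := norm_nonneg _
    have := h.eps_nonneg hl hJ n
    gcongr
  linarith

/-- a nonnegative nonzero solution of `F u = 0` is positive everywhere -/
theorem pos_of_fixed (c : ℕ) (Λ : ℝ) (hΛ : 0 < Λ) (u : X) (hu : ∀ k, 0 ≤ u k)
    (hF : F c Λ u = 0) (hQ : Q c u = 1) : ∀ k, 0 < u k := by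
  have hG : ∀ k, G c u k = Λ * u k := by
    intro k
    have h1 : u = Λ⁻¹ • G c u := by
      have := hF
      unfold F at this
      exact sub_eq_zero.1 this
    have h2 : u k = Λ⁻¹ * G c u k := by
      conv_lhs => rw [h1]
      simp only [lp.coeFn_smul, Pi.smul_apply, smul_eq_mul]
    rw [h2]; field_simp
  have hA : ∀ f : X, (∀ k, 0 ≤ f k) → ∀ j k, |j - k| ≤ 1 → f k ≤ A f j := by
    intro f hf j k hjk
    rw [A_apply]
    have := hf (j - 1); have := hf j; have := hf (j + 1)
    rcases abs_le.1 hjk with ⟨h1, h2⟩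
    have : k = j - 1 ∨ k = j ∨ k = j + 1 := by omega
    rcases this with rfl | rfl | rfl <;> linarith
  have hpw : ∀ f : X, (∀ k, 0 ≤ f k) → ∀ k, 0 ≤ pw (c + 1) f k := by
    intro f hf k; rw [pw_apply]; exact pow_nonneg (hf k) _
  have hAn : ∀ f : X, (∀ k, 0 ≤ f k) → ∀ k, 0 ≤ A f k := by
    intro f hf k; rw [A_apply]
    have := hf (k - 1); have := hf k; have := hf (k + 1); linarith
  -- positivity spreads
  have spread : ∀ j k, |j - k| ≤ 1 → 0 < u k → 0 < u j := by
    intro j k hjk hk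
    have h1 : 0 < A (pw (c + 1) u) k := by
      have := hA _ (hpw u hu) k k (by simp)
      rw [pw_apply] at this
      exact lt_of_lt_of_le (pow_pos hk _) this
    have h2 : 0 < G c u j := by
      unfold G
      have := hA _ (hpw _ (hAn _ (hpw u hu))) j k hjk
      rw [pw_apply] at this
      exact lt_of_lt_of_le (pow_pos h1 _) this
    rw [hG j] at h2
    exact (mul_pos_iff_of_pos_left hΛ).1 h2
  obtain ⟨k0, hk0⟩ : ∃ k, 0 < u k := by
    by_contra hcon
    push Not at hcon
    have : u = 0 := extX (fun k => by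
      have h1 := hu k; have h2 := hcon k
      simp only [lp.coeFn_zero, Pi.zero_apply]; linarith)
    rw [Q_eq, this] at hQ
    simp at hQ
  intro k
  have up : ∀ n : ℕ, 0 < u (k0 + n) := by
    intro n
    induction n with
    | zero => simpa using hk0
    | succ n ih => exact spread _ _ (by push_cast; simp) ih
  have down : ∀ n : ℕ, 0 < u (k0 - n) := by
    intro n
    induction n with
    | zero => simpa using hk0
    | succ n ih => exact spread _ _ (by push_cast; simp) ih
  rcases le_total k0 k with h | h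
  · have := up (k - k0).toNat
    rwa [Int.toNat_of_nonneg (by omega), show k0 + (k - k0) = k by ring] at this
  · have := down (k0 - k).toNat
    rwa [Int.toNat_of_nonneg (by omega), show k0 - (k0 - k) = k by ring] at this

theorem add_pow_le_two_pow (x y : ℝ) (hx : 0 ≤ x) (hy : 0 ≤ y) (m : ℕ) :
    (x + y) ^ m ≤ 2 ^ m * (x ^ m + y ^ m) := by
  rcases le_total x y with h | h
  · calc (x + y) ^ m ≤ (2 * y) ^ m := by gcongr; linarith
      _ = 2 ^ m * y ^ m := by rw [mul_pow]
      _ ≤ _ := by have := pow_nonneg hx m; gcongr; linarith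
  · calc (x + y) ^ m ≤ (2 * x) ^ m := by gcongr; linarith
      _ = 2 ^ m * x ^ m := by rw [mul_pow]
      _ ≤ _ := by have := pow_nonneg hy m; gcongr; linarith

/-- **Convergence of the even subsequence.** -/
theorem Iter.converges (h : Iter c p J b) {lam : ℝ} (hl : 0 < lam)
    (hlim : Tendsto J atTop (𝓝 lam)) (hJ : ∀ n, J n ≤ lam) :
    ∃ pl : X, Tendsto (fun m => p (2 * m)) atTop (𝓝 pl) ∧ F c (lam ^ (c + 3)) pl = 0 ∧
      (∀ k, 0 < pl k) := by
  set Λ := lam ^ (c + 3) with hΛ
  have hΛ0 : 0 < Λ := by positivity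
  set B := Real.sqrt (∑' k, b k ^ 2) with hB
  have hB0 : 0 ≤ B := Real.sqrt_nonneg _
  obtain ⟨C1, hC1, hstep⟩ := h.step_bound hl hJ
  have heps0 := h.eps_nonneg hl hJ
  have hanti := h.eps_anti (c := c) hl
  have hepslim := eps_tendsto c hl hlim
  set u : ℕ → X := fun m => p (2 * m + 2) with hu
  set K : Set X := {f : X | ∀ k, |f k| ≤ b k} with hK
  have hKc : IsCompact K := isCompact_cube b h.b_sum
  have huK : ∀ n, u n ∈ K := fun n k => h.b_bound (2 * n + 1) k
  -- steps tend to zero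
  have hsteps : ∀ n, ‖p (2 * n + 4) - p (2 * n + 2)‖ ^ 2
      ≤ C1 * (eps c lam J (2 * n + 1) - eps c lam J (2 * n + 3)) := fun n => hstep (2 * n + 1)
  have hodd : Tendsto (fun n : ℕ => 2 * n + 1) atTop atTop :=
    tendsto_atTop_mono (fun n => by simp only [id]; omega) tendsto_id
  have hodd3 : Tendsto (fun n : ℕ => 2 * n + 3) atTop atTop :=
    tendsto_atTop_mono (fun n => by simp only [id]; omega) tendsto_id
  have heven2 : Tendsto (fun n : ℕ => 2 * n + 2) atTop atTop :=
    tendsto_atTop_mono (fun n => by simp only [id]; omega) tendsto_id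
  have hsq0 : Tendsto (fun n => C1 * (eps c lam J (2 * n + 1) - eps c lam J (2 * n + 3)))
      atTop (𝓝 0) := by
    have := ((hepslim.comp hodd).sub (hepslim.comp hodd3)).const_mul C1
    simpa using this
  have hd0 : Tendsto (fun n => ‖p (2 * n + 4) - p (2 * n + 2)‖) atTop (𝓝 0) := by
    have h2 : Tendsto (fun n => ‖p (2 * n + 4) - p (2 * n + 2)‖ ^ 2) atTop (𝓝 0) :=
      squeeze_zero (fun n => by positivity) hsteps hsq0
    have h3 := h2.sqrt
    rw [Real.sqrt_zero] at h3
    refine h3.congr (fun n => ?_)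
    rw [Real.sqrt_sq (norm_nonneg _)]
  have hstepu : Tendsto (fun n => dist (u n) (u (n + 1))) atTop (𝓝 0) := by
    refine hd0.congr (fun n => ?_)
    rw [dist_comm, dist_eq_norm]
    simp only [hu, show 2 * (n + 1) + 2 = 2 * n + 4 by ring]
  obtain ⟨hΩc, hΩp, hΩn, hΩ1⟩ := cluster_props u K hKc huK hstepu
  set Ω : Set X := {z | MapClusterPt z atTop u} with hΩ
  -- values on cluster points
  have hFu : Tendsto (fun n => F c Λ (u n)) atTop (𝓝 0) := by
    rw [tendsto_zero_iff_norm_tendsto_zero]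
    have h5 : Tendsto (fun n => ‖p (2 * n + 4) - p (2 * n + 2)‖ + B * eps c lam J (2 * n + 2))
        atTop (𝓝 0) := by
      have := hd0.add ((hepslim.comp heven2).const_mul B)
      simpa using this
    exact squeeze_zero (fun n => norm_nonneg _) (fun n => h.norm_F_le hl hJ (2 * n + 2)) h5
  have hEu : Tendsto (fun n => E c Λ (u n)) atTop (𝓝 ((c : ℝ) + 1)) := by
    have : Tendsto (fun n => (c : ℝ) + 1 + eps c lam J (2 * n + 2)) atTop (𝓝 ((c : ℝ) + 1 + 0)) :=
      tendsto_const_nhds.add (hepslim.comp heven2)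
    rw [add_zero] at this
    refine this.congr (fun n => ?_)
    rw [← h.E_step hl]
  have hval : ∀ z ∈ Ω, F c Λ z = 0 ∧ E c Λ z = (c : ℝ) + 1 ∧ Q c z = 1 ∧ ∀ k, 0 ≤ z k := by
    intro z hz
    have hz' : MapClusterPt z atTop u := hz
    have lim_unique : ∀ {Y : Type} [TopologicalSpace Y] [T2Space Y] (f : X → Y)
        (_ : Continuous f) (y : Y) (_ : Tendsto (fun n => f (u n)) atTop (𝓝 y)), f z = y := by
      intro Y _ _ f hf y hy
      have h6 : MapClusterPt (f z) atTop (f ∘ u) := hz'.continuousAt_comp hf.continuousAt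
      have h7 : ClusterPt (f z) (𝓝 y) := h6.clusterPt.mono hy
      exact eq_of_nhds_neBot h7
    refine ⟨?_, lim_unique _ (continuous_E c Λ) _ hEu, ?_, ?_⟩
    · have h8 : ‖F c Λ z‖ = 0 := by
        refine lim_unique (fun x => ‖F c Λ x‖) (continuous_F c Λ).norm 0 ?_
        have := hFu.norm
        rwa [norm_zero] at this
      exact norm_eq_zero.1 h8
    · refine lim_unique _ (continuous_Q c) 1 ?_
      simp only [hu, h.Q_one]
      exact tendsto_const_nhds
    · intro k
      have hcl : IsClosed {f : X | 0 ≤ f k} := isClosed_le continuous_const (continuous_apply k)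
      have : ∃ᶠ n in atTop, u n ∈ {f : X | 0 ≤ f k} :=
        (Eventually.of_forall (fun n => h.nonneg (2 * n + 2) k)).frequently
      by_contra hneg
      have hopen : {f : X | 0 ≤ f k}ᶜ ∈ 𝓝 z := hcl.isOpen_compl.mem_nhds hneg
      have hfr := hz'.frequently hopen
      obtain ⟨n, hn⟩ := hfr.exists
      exact hn (h.nonneg (2 * n + 2) k)
  have hpos : ∀ z ∈ Ω, ∀ k, 0 < z k := fun z hz =>
    pos_of_fixed c Λ hΛ0 z (hval z hz).2.2.2 (hval z hz).1 (hval z hz).2.2.1
  -- it suffices that `u` converges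
  have fin : ∀ z : X, Tendsto u atTop (𝓝 z) → ∃ pl : X, Tendsto (fun m => p (2 * m)) atTop (𝓝 pl) ∧
      F c Λ pl = 0 ∧ (∀ k, 0 < pl k) := by
    intro z hz
    have hzΩ : z ∈ Ω := hz.mapClusterPt
    refine ⟨z, ?_, (hval z hzΩ).1, hpos z hzΩ⟩
    rw [← tendsto_add_atTop_iff_nat 1]
    exact hz
  by_cases hsub : ∀ z z', MapClusterPt z atTop u → MapClusterPt z' atTop u → z = z'
  · obtain ⟨z, hz⟩ := hΩ1 hsub
    exact fin z hz
  · push Not at hsub
    obtain ⟨z0, z2, hz0, hz2, hne⟩ := hsub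
    obtain ⟨P, Jm, L, hL⟩ := exists_PJL c Λ hΛ0 z0 (hpos z0 hz0)
    obtain ⟨z1, hz1, m, hm, C, r, hC, hr, hloj⟩ := exists_nice (F c Λ) (E c Λ) ((c : ℝ) + 1) Ω
      hΩc hΩp z0 z2 hz0 hz2 hne (analyticAt_F c Λ) (analyticAt_E c Λ)
      (fun z hz => (hval z hz).1) (fun z hz => (hval z hz).2.1) (norm_fderiv_E_le c Λ hΛ0) P Jm L
      (fun x => by rw [hL x, fderiv_F_apply])
    -- absorb
    have hmB : 0 < C * 2 ^ m * B ^ m + 1 := by positivity
    obtain ⟨N0, hN0⟩ : ∃ N0, ∀ n, N0 ≤ n →
        eps c lam J (2 * n + 2) ≤ 1 / (2 * (C * 2 ^ m * B ^ m + 1)) := by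
      have h9 := hepslim.comp heven2
      have h10 := h9.eventually (gt_mem_nhds
        (show (0 : ℝ) < 1 / (2 * (C * 2 ^ m * B ^ m + 1)) by positivity))
      obtain ⟨N0, hN0⟩ := eventually_atTop.1 h10
      exact ⟨N0, fun n hn => (hN0 n hn).le⟩
    have key : Tendsto (fun n => p (2 * n)) atTop (𝓝 z1) := by
      refine trap (fun n => p (2 * n)) z1 ?_ (fun n => eps c lam J (2 * n + 1))
        (fun n => heps0 _) (fun a b hab => hanti (by omega)) (hepslim.comp hodd)
        (C1 + 2 * (C * 2 ^ m)) r (by positivity) hr m hm N0 ?_ ?_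
      · have : MapClusterPt z1 atTop ((fun n => p (2 * n)) ∘ (fun n => n + 1)) := hz1
        exact this.of_comp (tendsto_add_atTop_nat 1)
      · intro n _
        have h11 := hsteps n
        have h12 : 0 ≤ eps c lam J (2 * n + 1) - eps c lam J (2 * n + 3) := by
          have := hanti (show 2 * n + 1 ≤ 2 * n + 3 by omega)
          linarith
        have h13 : (0 : ℝ) ≤ 2 * (C * 2 ^ m) := by positivity
        calc ‖p (2 * (n + 2)) - p (2 * (n + 1))‖ ^ 2
            = ‖p (2 * n + 4) - p (2 * n + 2)‖ ^ 2 := by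
              rw [show 2 * (n + 2) = 2 * n + 4 by ring, show 2 * (n + 1) = 2 * n + 2 by ring]
          _ ≤ C1 * (eps c lam J (2 * n + 1) - eps c lam J (2 * n + 3)) := h11
          _ ≤ (C1 + 2 * (C * 2 ^ m)) * (eps c lam J (2 * n + 1) - eps c lam J (2 * n + 3)) := by
              gcongr
              linarith
          _ = _ := by rw [show 2 * (n + 1) + 1 = 2 * n + 3 by ring]
      · intro n hn hnear
        have hnear' : ‖p (2 * n + 2) - z1‖ < r := by
          rwa [show 2 * (n + 1) = 2 * n + 2 by ring] at hnear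
        have h14 := hloj _ hnear'
        rw [h.E_step hl, show (c : ℝ) + 1 + eps c lam J (2 * n + 2) - ((c : ℝ) + 1)
          = eps c lam J (2 * n + 2) by ring, abs_of_nonneg (heps0 _)] at h14
        set e := eps c lam J (2 * n + 2) with he
        set δ := ‖p (2 * n + 4) - p (2 * n + 2)‖ with hδ
        have he0 : 0 ≤ e := heps0 _
        have hδ0 : 0 ≤ δ := norm_nonneg _
        have h15 : ‖F c Λ (p (2 * n + 2))‖ ≤ δ + B * e := h.norm_F_le hl hJ (2 * n + 2)
        have h16 : e ^ (m - 1) ≤ C * (δ + B * e) ^ m := by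
          refine h14.trans ?_
          gcongr
        have h17 : (δ + B * e) ^ m ≤ 2 ^ m * (δ ^ m + (B * e) ^ m) :=
          add_pow_le_two_pow _ _ hδ0 (by positivity) m
        have h18 : C * (2 ^ m * (B * e) ^ m) ≤ (1 / 2) * e ^ (m - 1) := by
          have e1 : e ^ m = e ^ (m - 1) * e := by
            rw [← pow_succ]; congr 1; omega
          have h19 : (C * 2 ^ m * B ^ m) * e ≤ 1 / 2 := by
            have h20 := hN0 n hn
            calc (C * 2 ^ m * B ^ m) * e ≤ (C * 2 ^ m * B ^ m + 1) * e := by gcongr; linarith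
              _ ≤ (C * 2 ^ m * B ^ m + 1) * (1 / (2 * (C * 2 ^ m * B ^ m + 1))) := by gcongr
              _ = 1 / 2 := by field_simp
          calc C * (2 ^ m * (B * e) ^ m) = ((C * 2 ^ m * B ^ m) * e) * e ^ (m - 1) := by
                rw [mul_pow, e1]; ring
            _ ≤ (1 / 2) * e ^ (m - 1) := by gcongr
        have h21 : e ^ (m - 1) ≤ 2 * (C * 2 ^ m) * δ ^ m := by
          have : e ^ (m - 1) ≤ C * (2 ^ m * (δ ^ m + (B * e) ^ m)) := h16.trans (by gcongr)
          have h22 : C * (2 ^ m * (δ ^ m + (B * e) ^ m))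
              = C * 2 ^ m * δ ^ m + C * (2 ^ m * (B * e) ^ m) := by ring
          linarith
        have h23 : eps c lam J (2 * n + 3) ≤ e := hanti (by omega)
        calc eps c lam J (2 * (n + 1) + 1) ^ (m - 1)
            = eps c lam J (2 * n + 3) ^ (m - 1) := by rw [show 2 * (n + 1) + 1 = 2 * n + 3 by ring]
          _ ≤ e ^ (m - 1) := by
              have := heps0 (2 * n + 3)
              gcongr
          _ ≤ 2 * (C * 2 ^ m) * δ ^ m := h21
          _ ≤ (C1 + 2 * (C * 2 ^ m)) * δ ^ m := by gcongr; linarith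
          _ = _ := by
              rw [hδ, show 2 * (n + 2) = 2 * n + 4 by ring, show 2 * (n + 1) = 2 * n + 2 by ring]
    refine ⟨z1, key, (hval z1 hz1).1, hpos z1 hz1⟩

end Pool.Agent.H.MP_e9f8c5_pr
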