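import Mathlib

set_option autoImplicit false

open scoped Topology

namespace Pool.Agent.H.MP_e9f8c5_pr

/-- Square summable real sequences indexed by `ℤ`. -/
abbrev X := lp (fun _ : ℤ => ℝ) 2

theorem memX_iff {f : ℤ → ℝ} : Memℓp f 2 ↔ Summable (fun k => f k ^ 2) := by
  rw [memℓp_gen_iff (by norm_num)]
  simp

/-- Constructor. -/
def mkX (f : ℤ → ℝ) (hf : Summable fun k => f k ^ 2) : X := ⟨f, memX_iff.2 hf⟩

@[simp] theorem mkX_apply (f : ℤ → ℝ) (hf : Summable fun k => f k ^ 2) (k : ℤ) :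
    mkX f hf k = f k := rfl

theorem extX {f g : X} (h : ∀ k, f k = g k) : f = g := lp.ext (funext h)

theorem sq_summable (f : X) : Summable (fun k => f k ^ 2) := memX_iff.1 (lp.memℓp f)

theorem norm_sq_eq (f : X) : ‖f‖ ^ 2 = ∑' k, f k ^ 2 := by
  have h := lp.norm_rpow_eq_tsum (p := 2) (by norm_num) f
  simpa using h

theorem inner_eq (f g : X) : inner ℝ f g = ∑' k, f k * g k := by
  rw [lp.inner_eq_tsum]
  congr 1
  ext k
  simp [mul_comm]

theorem summable_mul (f g : X) : Summable (fun k => f k * g k) := by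
  have := lp.summable_inner (𝕜 := ℝ) g f
  simpa using this

theorem abs_le_norm (f : X) (k : ℤ) : |f k| ≤ ‖f‖ := by
  have := lp.norm_apply_le_norm (by norm_num : (2 : ENNReal) ≠ 0) f k
  simpa using this

theorem norm_le_of {f g : X} {c : ℝ} (hc : 0 ≤ c) (h : ∀ k, |f k| ≤ c * |g k|) :
    ‖f‖ ≤ c * ‖g‖ := by
  have h1 : ‖f‖ ^ 2 ≤ (c * ‖g‖) ^ 2 := by
    rw [mul_pow, norm_sq_eq, norm_sq_eq, ← tsum_mul_left]
    refine Summable.tsum_le_tsum (fun k => ?_) (sq_summable f) ((sq_summable g).mul_left _)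
    have := h k
    calc f k ^ 2 = |f k| ^ 2 := (sq_abs _).symm
      _ ≤ (c * |g k|) ^ 2 := by gcongr
      _ = c ^ 2 * g k ^ 2 := by rw [mul_pow, sq_abs]
  exact le_of_sq_le_sq h1 (by positivity)

theorem norm_le_of_sq {f : X} {c : ℝ} (hc : 0 ≤ c) (h : ∑' k, f k ^ 2 ≤ c ^ 2) : ‖f‖ ≤ c := by
  rw [← norm_sq_eq] at h
  exact le_of_sq_le_sq h hc

/-- Sum over the three nearest sites. -/
def c3 (f : ℤ → ℝ) (k : ℤ) : ℝ := f (k - 1) + f k + f (k + 1)

theorem summable_shift {f : ℤ → ℝ} (hf : Summable f) (j : ℤ) : Summable (fun k => f (k + j)) :=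
  (Equiv.addRight j).summable_iff.2 hf

theorem tsum_shift (f : ℤ → ℝ) (j : ℤ) : ∑' k, f (k + j) = ∑' k, f k :=
  (Equiv.addRight j).tsum_eq f

theorem c3_sq_le (f : ℤ → ℝ) (k : ℤ) :
    c3 f k ^ 2 ≤ 3 * (f (k + -1) ^ 2 + f k ^ 2 + f (k + 1) ^ 2) := by
  unfold c3
  rw [sub_eq_add_neg]
  nlinarith [sq_nonneg (f (k + -1) - f k), sq_nonneg (f k - f (k + 1)),
    sq_nonneg (f (k + -1) - f (k + 1))]

theorem summable_c3_sq (f : X) : Summable (fun k => c3 f k ^ 2) := by
  have h1 := summable_shift (sq_summable f) (-1)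
  have h2 := summable_shift (sq_summable f) 1
  exact Summable.of_nonneg_of_le (fun k => sq_nonneg _) (c3_sq_le f)
    (((h1.add (sq_summable f)).add h2).mul_left 3)

theorem tsum_c3_sq_le (f : X) : ∑' k, c3 f k ^ 2 ≤ 9 * ‖f‖ ^ 2 := by
  have h1 := summable_shift (sq_summable f) (-1)
  have h2 := summable_shift (sq_summable f) 1
  calc ∑' k, c3 f k ^ 2 ≤ ∑' k, 3 * (f (k + -1) ^ 2 + f k ^ 2 + f (k + 1) ^ 2) :=
        Summable.tsum_le_tsum (c3_sq_le f) (summable_c3_sq f)
          (((h1.add (sq_summable f)).add h2).mul_left 3)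
    _ = 9 * ‖f‖ ^ 2 := by
        rw [tsum_mul_left, (h1.add (sq_summable f)).tsum_add h2, h1.tsum_add (sq_summable f),
          tsum_shift (fun k => f k ^ 2) (-1), tsum_shift (fun k => f k ^ 2) 1, norm_sq_eq]
        ring

/-- The operator `A f k = f (k-1) + f k + f (k+1)` on `ℓ²(ℤ)`. -/
noncomputable def A : X →L[ℝ] X :=
  LinearMap.mkContinuous
    { toFun := fun f => mkX (c3 f) (summable_c3_sq f)
      map_add' := fun f g => extX (fun k => by
        simp only [mkX_apply, lp.coeFn_add, Pi.add_apply, c3]; ring)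
      map_smul' := fun r f => extX (fun k => by
        simp only [mkX_apply, lp.coeFn_smul, Pi.smul_apply, c3, smul_eq_mul, RingHom.id_apply]
        ring) }
    3 (fun f => by
      refine norm_le_of_sq (by positivity) ?_
      have := tsum_c3_sq_le f
      calc _ = ∑' k, c3 f k ^ 2 := rfl
        _ ≤ _ := this
        _ = _ := by ring)

@[simp] theorem A_apply (f : X) (k : ℤ) : A f k = f (k - 1) + f k + f (k + 1) := rfl

theorem norm_A_le (f : X) : ‖A f‖ ≤ 3 * ‖f‖ := by
  refine norm_le_of_sq (by positivity) ?_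
  have := tsum_c3_sq_le f
  calc _ = ∑' k, c3 f k ^ 2 := rfl
    _ ≤ _ := this
    _ = _ := by ring

theorem inner_A (f g : X) : inner ℝ (A f) g = inner ℝ f (A g) := by
  rw [inner_eq, inner_eq]
  have e1 : (fun k => A f k * g k)
      = fun k => f (k + -1) * g k + f k * g k + f (k + 1) * g k := by
    ext k; rw [A_apply, sub_eq_add_neg]; ring
  have e2 : (fun k => f k * A g k)
      = fun k => f k * g (k + -1) + f k * g k + f k * g (k + 1) := by
    ext k; rw [A_apply, sub_eq_add_neg]; ring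
  have s0 := summable_mul f g
  have s1 : Summable fun k => f (k + -1) * g k := by
    have := summable_mul (mkX (fun k => f (k + -1)) (summable_shift (sq_summable f) (-1))) g
    simpa using this
  have s2 : Summable fun k => f (k + 1) * g k := by
    have := summable_mul (mkX (fun k => f (k + 1)) (summable_shift (sq_summable f) 1)) g
    simpa using this
  have s3 : Summable fun k => f k * g (k + -1) := by
    have := summable_mul f (mkX (fun k => g (k + -1)) (summable_shift (sq_summable g) (-1)))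
    simpa using this
  have s4 : Summable fun k => f k * g (k + 1) := by
    have := summable_mul f (mkX (fun k => g (k + 1)) (summable_shift (sq_summable g) 1))
    simpa using this
  rw [e1, e2, (s1.add s0).tsum_add s2, s1.tsum_add s0, (s3.add s0).tsum_add s4, s3.tsum_add s0]
  have t1 : ∑' k, f (k + -1) * g k = ∑' k, f k * g (k + 1) := by
    rw [← tsum_shift (fun k => f (k + -1) * g k) 1]
    congr 1; ext k; rw [show k + 1 + -1 = k by ring]
  have t2 : ∑' k, f (k + 1) * g k = ∑' k, f k * g (k + -1) := by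
    rw [← tsum_shift (fun k => f (k + 1) * g k) (-1)]
    congr 1; ext k; rw [show k + -1 + 1 = k by ring]
  rw [t1, t2]; ring

theorem summable_mul_sq (f g : X) : Summable (fun k => (f k * g k) ^ 2) := by
  refine Summable.of_nonneg_of_le (fun k => sq_nonneg _) (fun k => ?_)
    ((sq_summable g).mul_left (‖f‖ ^ 2))
  rw [mul_pow]
  have := abs_le_norm f k
  have h2 : f k ^ 2 ≤ ‖f‖ ^ 2 := by rw [← sq_abs]; gcongr
  gcongr

/-- Pointwise product on `ℓ²(ℤ)` as a bounded bilinear map. -/
noncomputable def mul : X →L[ℝ] X →L[ℝ] X :=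
  LinearMap.mkContinuous₂
    (LinearMap.mk₂ ℝ (fun f g => mkX (fun k => f k * g k) (summable_mul_sq f g))
      (fun f f' g => extX (fun k => by
        simp only [mkX_apply, lp.coeFn_add, Pi.add_apply]; ring))
      (fun c f g => extX (fun k => by
        simp only [mkX_apply, lp.coeFn_smul, Pi.smul_apply, smul_eq_mul]; ring))
      (fun f g g' => extX (fun k => by
        simp only [mkX_apply, lp.coeFn_add, Pi.add_apply]; ring))
      (fun c f g => extX (fun k => by
        simp only [mkX_apply, lp.coeFn_smul, Pi.smul_apply, smul_eq_mul]; ring)))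
    1 (fun f g => by
      rw [one_mul]
      refine norm_le_of (norm_nonneg f) (fun k => ?_)
      show |f k * g k| ≤ _
      rw [abs_mul]
      have := abs_le_norm f k
      gcongr)

@[simp] theorem mul_apply (f g : X) (k : ℤ) : mul f g k = f k * g k := rfl

theorem norm_mul_le (f g : X) : ‖mul f g‖ ≤ ‖f‖ * ‖g‖ := by
  refine norm_le_of (norm_nonneg f) (fun k => ?_)
  rw [mul_apply, abs_mul]
  have := abs_le_norm f k
  gcongr

/-- `pw n u = u ^ (n+1)` (pointwise power). -/
noncomputable def pw : ℕ → X → X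
  | 0, u => u
  | n + 1, u => mul u (pw n u)

@[simp] theorem pw_apply (n : ℕ) (u : X) (k : ℤ) : pw n u k = u k ^ (n + 1) := by
  induction n with
  | zero => simp [pw]
  | succ n ih => rw [pw, mul_apply, ih]; ring

/-- `G u = A ((A u^d)^d)` with `d = c + 2`. -/
noncomputable def G (c : ℕ) (u : X) : X := A (pw (c + 1) (A (pw (c + 1) u)))

/-- The polynomial energy. `Q u = ∑ u^(d+1)` with `d = c + 2`. -/
noncomputable def Q (c : ℕ) (u : X) : ℝ := inner ℝ u (pw (c + 1) u)

/-- `F u = u - Λ⁻¹ G u`. -/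
noncomputable def F (c : ℕ) (Λ : ℝ) (u : X) : X := u - Λ⁻¹ • G c u

/-- `E u = d ∑ u^(d+1) - Λ⁻¹ ∑ (A u^d)^(d+1)`, `d = c + 2`. -/
noncomputable def E (c : ℕ) (Λ : ℝ) (u : X) : ℝ :=
  (c + 2 : ℝ) * Q c u - Λ⁻¹ * Q c (A (pw (c + 1) u))

end Pool.Agent.H.MP_e9f8c5_pr
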