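import Mathlib

set_option autoImplicit false

open scoped Topology
open Filter

namespace Pool.Agent.H.MP_e9f8c5_pr

/-- Vertices of the finite `d`-ary tree of depth `n`: words of length at most `n` over `Fin d`
(the empty word is the root, the children of `w` are the words `w ++ [i]`). -/
abbrev Node (d n : ℕ) := {w : List (Fin d) // w.length ≤ n}

/-- The (1-)Lipschitz condition along every edge `w -- w ++ [i]` of the tree. -/
def IsLip {d n : ℕ} (f : Node d n → ℤ) : Prop :=
  ∀ (w : List (Fin d)) (i : Fin d) (h : (w ++ [i]).length ≤ n),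
    |f ⟨w ++ [i], h⟩ - f ⟨w, le_trans (by simp) h⟩| ≤ 1

/-- Lipschitz functions on the depth `n` tree whose values at all leaves lie in `S`. -/
def lipSet (d n : ℕ) (S : Finset ℤ) : Set (Node d n → ℤ) :=
  {f | IsLip f ∧ ∀ w : Node d n, w.1.length = n → f w ∈ S}

/-- `f` (on the depth `n` tree) and `φ` (on the depth `r` tree) agree on all common vertices.
For `r ≤ n` this says that `φ` is the restriction of `f` to the depth `r` tree. -/
def Agree {d n r : ℕ} (f : Node d n → ℤ) (φ : Node d r → ℤ) : Prop :=
  ∀ (w : List (Fin d)) (h : w.length ≤ n) (h' : w.length ≤ r), f ⟨w, h⟩ = φ ⟨w, h'⟩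

/-- The probability, under the uniform measure on `lipSet d n S`, that the restriction to the depth
`r` tree is `φ`. -/
noncomputable def law (d n r : ℕ) (S : Finset ℤ) (φ : Node d r → ℤ) : ℝ :=
  (Set.ncard {f ∈ lipSet d n S | Agree f φ} : ℝ) / (Set.ncard (lipSet d n S) : ℝ)

/-- Local weak convergence of the uniform measures on `lipSet d (u j) S` as `j → ∞`: for every `r`
the law of the restriction to the depth `r` tree converges to a probability measure. -/
def ConvergesAlong (d : ℕ) (S : Finset ℤ) (u : ℕ → ℕ) : Prop :=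
  ∀ r : ℕ, ∃ ν : PMF (Node d r → ℤ), ∀ φ : Node d r → ℤ,
    Tendsto (fun j => law d (u j) r S φ) atTop (𝓝 (ν φ).toReal)

/-- `xs d S n k` = number of Lipschitz functions on the depth `n` `d`-ary tree with value `k` at
the root and values in `S` at the leaves. -/
def xs (d : ℕ) (S : Finset ℤ) : ℕ → ℤ → ℕ
  | 0, k => if k ∈ S then 1 else 0
  | n + 1, k => (xs d S n (k - 1) + xs d S n k + xs d S n (k + 1)) ^ d

end Pool.Agent.H.MP_e9f8c5_pr
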