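import Pool.Agent.H.MP_e9f8c5_pr.Defs
import Pool.Agent.H.MP_e9f8c5_pr.TreeDefs

set_option autoImplicit false

open scoped Topology
open Filter Set

namespace Pool.Agent.H.MP_e9f8c5_pr

/-! ### Pointwise inequality -/

theorem young_pt (c : ℕ) {a b : ℝ} (ha : 0 ≤ a) (hb : 0 ≤ b) :
    (a ^ (c + 1) + b ^ (c + 1)) * (b - a) ^ 2 ≤
      (c + 2 : ℝ) * a ^ (c + 3) + b ^ (c + 3) - (c + 3 : ℝ) * (a ^ (c + 2) * b) := by
  induction c with
  | zero =>
    have h : 0 ≤ a * (b - a) ^ 2 := mul_nonneg ha (sq_nonneg _)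
    norm_num
    nlinarith
  | succ c ih =>
    have h1 : 0 ≤ a ^ (c + 1) * b * (b - a) ^ 2 := by positivity
    have h2 : 0 ≤ ((c : ℝ) + 2) * a ^ (c + 2) * (b - a) ^ 2 := by positivity
    have h3 := mul_le_mul_of_nonneg_left ih hb
    push_cast
    have e1 : (a ^ (c + 1 + 1) + b ^ (c + 1 + 1)) * (b - a) ^ 2
        = b * ((a ^ (c + 1) + b ^ (c + 1)) * (b - a) ^ 2) + a ^ (c + 2) * (b - a) ^ 2
          - a ^ (c + 1) * b * (b - a) ^ 2 := by ring
    have e2 : ((c : ℝ) + 1 + 2) * a ^ (c + 1 + 3) + b ^ (c + 1 + 3)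
          - ((c : ℝ) + 1 + 3) * (a ^ (c + 1 + 2) * b)
        = b * ((c + 2 : ℝ) * a ^ (c + 3) + b ^ (c + 3) - (c + 3 : ℝ) * (a ^ (c + 2) * b))
          + ((c : ℝ) + 3) * a ^ (c + 2) * (b - a) ^ 2 := by ring
    rw [e1, e2]
    nlinarith

/-! ### Finite support -/

theorem xs_support (d : ℕ) (hd : d ≠ 0) (S : Finset ℤ) (n : ℕ) :
    (Function.support fun k => (xs d S n k : ℝ)).Finite := by
  induction n with
  | zero =>
    refine S.finite_toSet.subset fun k hk => ?_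
    by_contra h
    simp only [Finset.mem_coe] at h
    simp [xs, h] at hk
  | succ n ih =>
    have h1 : ((fun k : ℤ => k - 1) ⁻¹' (Function.support fun k => (xs d S n k : ℝ))).Finite :=
      ih.preimage (fun a _ b _ h => by simpa using h)
    have h2 : ((fun k : ℤ => k + 1) ⁻¹' (Function.support fun k => (xs d S n k : ℝ))).Finite :=
      ih.preimage (fun a _ b _ h => by simpa using h)
    refine ((h1.union ih).union h2).subset fun k hk => ?_
    by_contra h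
    simp only [mem_union, mem_preimage, Function.mem_support, ne_eq, Nat.cast_eq_zero,
      not_or, not_not] at h
    apply hk
    simp [xs, h.1.1, h.1.2, h.2, hd]

/-- `vv d S n k = A (x_n) k` as a real number. -/
noncomputable def vv (d : ℕ) (S : Finset ℤ) (n : ℕ) (k : ℤ) : ℝ :=
  c3 (fun k => (xs d S n k : ℝ)) k

theorem vv_nonneg (d : ℕ) (S : Finset ℤ) (n : ℕ) (k : ℤ) : 0 ≤ vv d S n k := by
  unfold vv c3; positivity

theorem xs_succ (d : ℕ) (S : Finset ℤ) (n : ℕ) (k : ℤ) :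
    (xs d S (n + 1) k : ℝ) = vv d S n k ^ d := by
  simp [xs, vv, c3]

theorem vv_support (d : ℕ) (hd : d ≠ 0) (S : Finset ℤ) (n : ℕ) :
    (Function.support (vv d S n)).Finite := by
  refine (xs_support d hd S (n + 1)).subset fun k hk => ?_
  simp only [Function.mem_support] at hk ⊢
  rw [xs_succ]
  exact pow_ne_zero _ hk

theorem vv_pow_summable (d : ℕ) (hd : d ≠ 0) (S : Finset ℤ) (n e : ℕ) (he : e ≠ 0) :
    Summable (fun k => vv d S n k ^ e) := by
  apply summable_of_hasFiniteSupport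
  refine (vv_support d hd S n).subset fun k hk => ?_
  simp only [Function.mem_support] at hk ⊢
  intro h
  exact hk (by rw [h, zero_pow he])

theorem xs_pos (d : ℕ) (S : Finset ℤ) (s : ℤ) (hs : s ∈ S) (n : ℕ) : 0 < xs d S n s := by
  induction n with
  | zero => simp [xs, hs]
  | succ n ih => simp only [xs]; positivity

theorem vv_pos (d : ℕ) (S : Finset ℤ) (s : ℤ) (hs : s ∈ S) (n : ℕ) : 0 < vv d S n s := by
  have h : (0 : ℝ) < xs d S n s := by exact_mod_cast xs_pos d S s hs n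
  unfold vv c3
  positivity

/-! ### Monotonicity of the tails -/

theorem xs_right (d : ℕ) (S : Finset ℤ) (M : ℤ) (hM : ∀ s ∈ S, s ≤ M) (n : ℕ) :
    ∀ a b : ℤ, b ≤ a → 2 * M ≤ a + b → xs d S n a ≤ xs d S n b := by
  induction n with
  | zero =>
    intro a b hab h
    simp only [xs]
    by_cases ha : a ∈ S
    · have := hM a ha
      have : a = b := by omega
      rw [this]
    · simp [ha]
  | succ n ih =>
    intro a b hab h
    simp only [xs]
    refine Nat.pow_le_pow_left ?_ d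
    rcases eq_or_lt_of_le hab with rfl | hlt
    · exact le_rfl
    · have h1 := ih (a + 1) (b - 1) (by omega) (by omega)
      have h2 := ih a b (by omega) (by omega)
      by_cases hc : b + 1 ≤ a - 1
      · have h3 := ih (a - 1) (b + 1) hc (by omega)
        omega
      · have h3 : b + 1 = a := by omega
        have h4 : a - 1 = b := by omega
        rw [h3, h4]
        omega

theorem xs_left (d : ℕ) (S : Finset ℤ) (m : ℤ) (hm : ∀ s ∈ S, m ≤ s) (n : ℕ) :
    ∀ a b : ℤ, a ≤ b → a + b ≤ 2 * m → xs d S n a ≤ xs d S n b := by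
  induction n with
  | zero =>
    intro a b hab h
    simp only [xs]
    by_cases ha : a ∈ S
    · have := hm a ha
      have : a = b := by omega
      rw [this]
    · simp [ha]
  | succ n ih =>
    intro a b hab h
    simp only [xs]
    refine Nat.pow_le_pow_left ?_ d
    rcases eq_or_lt_of_le hab with rfl | hlt
    · exact le_rfl
    · have h1 := ih (a - 1) (b + 1) (by omega) (by omega)
      have h2 := ih a b (by omega) (by omega)
      by_cases hc : a + 1 ≤ b - 1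
      · have h3 := ih (a + 1) (b - 1) hc (by omega)
        omega
      · have h3 : a + 1 = b := by omega
        have h4 : b - 1 = a := by omega
        rw [h3, h4]
        omega

theorem vv_right (d : ℕ) (hd : d ≠ 0) (S : Finset ℤ) (M : ℤ) (hM : ∀ s ∈ S, s ≤ M) (n : ℕ)
    (a b : ℤ) (hab : b ≤ a) (h : 2 * M ≤ a + b) : vv d S n a ≤ vv d S n b := by
  have h1 := xs_right d S M hM (n + 1) a b hab h
  have h2 : (xs d S (n + 1) a : ℝ) ≤ xs d S (n + 1) b := by exact_mod_cast h1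
  rw [xs_succ, xs_succ] at h2
  exact le_of_pow_le_pow_left₀ hd (vv_nonneg _ _ _ _) h2

theorem vv_left (d : ℕ) (hd : d ≠ 0) (S : Finset ℤ) (m : ℤ) (hm : ∀ s ∈ S, m ≤ s) (n : ℕ)
    (a b : ℤ) (hab : a ≤ b) (h : a + b ≤ 2 * m) : vv d S n a ≤ vv d S n b := by
  have h1 := xs_left d S m hm (n + 1) a b hab h
  have h2 : (xs d S (n + 1) a : ℝ) ≤ xs d S (n + 1) b := by exact_mod_cast h1
  rw [xs_succ, xs_succ] at h2
  exact le_of_pow_le_pow_left₀ hd (vv_nonneg _ _ _ _) h2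

/-- A nonincreasing tail of a summable nonnegative family of total mass at most one. -/
theorem tail_bound (f : ℤ → ℝ) (hf0 : ∀ k, 0 ≤ f k) (hfs : Summable f) (hf1 : ∑' k, f k ≤ 1)
    (j : ℕ) (e : ℕ → ℤ) (he : Function.Injective e)
    (hmono : ∀ i ≤ j, f (e j) ≤ f (e i)) : ((j : ℝ) + 1) * f (e j) ≤ 1 := by
  have h1 : ∑ i ∈ Finset.range (j + 1), f (e j) ≤ ∑ i ∈ Finset.range (j + 1), f (e i) :=
    Finset.sum_le_sum fun i hi => hmono i (by simpa [Nat.lt_succ_iff] using hi)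
  have h2 : ∑ i ∈ Finset.range (j + 1), f (e i) = ∑ k ∈ (Finset.range (j + 1)).map ⟨e, he⟩, f k := by
    rw [Finset.sum_map]; rfl
  have h3 : ∑ k ∈ (Finset.range (j + 1)).map ⟨e, he⟩, f k ≤ ∑' k, f k :=
    hfs.sum_le_tsum _ (fun k _ => hf0 k)
  have h4 : ∑ i ∈ Finset.range (j + 1), f (e j) = ((j : ℝ) + 1) * f (e j) := by
    rw [Finset.sum_const, Finset.card_range, nsmul_eq_mul]; push_cast; ring
  linarith

/-! ### The normalised iteration -/

/-- The normalisation `N_n`. -/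
noncomputable def NN (c : ℕ) (S : Finset ℤ) (n : ℕ) : ℝ :=
  (∑' k, vv (c + 2) S n k ^ (c + 3)) ^ ((1 : ℝ) / (c + 3))

theorem vv_sum_pos (c : ℕ) (S : Finset ℤ) (hS : S.Nonempty) (n : ℕ) :
    0 < ∑' k, vv (c + 2) S n k ^ (c + 3) := by
  obtain ⟨s, hs⟩ := hS
  exact (vv_pow_summable (c + 2) (by omega) S n (c + 3) (by omega)).tsum_pos
    (fun k => pow_nonneg (vv_nonneg _ _ _ _) _) s (pow_pos (vv_pos (c + 2) S s hs n) _)

theorem NN_pos (c : ℕ) (S : Finset ℤ) (hS : S.Nonempty) (n : ℕ) : 0 < NN c S n :=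
  Real.rpow_pos_of_pos (vv_sum_pos c S hS n) _

theorem NN_pow (c : ℕ) (S : Finset ℤ) (hS : S.Nonempty) (n : ℕ) :
    NN c S n ^ (c + 3) = ∑' k, vv (c + 2) S n k ^ (c + 3) := by
  have h := (vv_sum_pos c S hS n).le
  rw [NN, ← Real.rpow_natCast, ← Real.rpow_mul h]
  have : (1 : ℝ) / (c + 3) * ((c + 3 : ℕ) : ℝ) = 1 := by
    push_cast
    field_simp
  rw [this, Real.rpow_one]

theorem pp_sq (c : ℕ) (S : Finset ℤ) (n : ℕ) :
    Summable (fun k => (vv (c + 2) S n k / NN c S n) ^ 2) := by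
  have := (vv_pow_summable (c + 2) (by omega) S n 2 (by omega)).div_const (NN c S n ^ 2)
  simpa [div_pow] using this

/-- The normalised profile `p_n`. -/
noncomputable def pp (c : ℕ) (S : Finset ℤ) (n : ℕ) : X :=
  mkX (fun k => vv (c + 2) S n k / NN c S n) (pp_sq c S n)

theorem pp_apply (c : ℕ) (S : Finset ℤ) (n : ℕ) (k : ℤ) :
    pp c S n k = vv (c + 2) S n k / NN c S n := rfl

theorem NN_mul_pp (c : ℕ) (S : Finset ℤ) (hS : S.Nonempty) (n : ℕ) (k : ℤ) :
    NN c S n * pp c S n k = vv (c + 2) S n k := by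
  have := (NN_pos c S hS n).ne'
  rw [pp_apply]; field_simp

theorem pp_nonneg (c : ℕ) (S : Finset ℤ) (hS : S.Nonempty) (n : ℕ) (k : ℤ) : 0 ≤ pp c S n k :=
  div_nonneg (vv_nonneg _ _ _ _) (NN_pos c S hS n).le

theorem Q_eq (c : ℕ) (u : X) : Q c u = ∑' k, u k ^ (c + 3) := by
  rw [Q, inner_eq]
  congr 1; ext k
  rw [pw_apply]; ring

theorem pow_summable (c : ℕ) (u : X) : Summable (fun k => u k ^ (c + 3)) := by
  have := summable_mul u (pw (c + 1) u)
  refine this.congr fun k => ?_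
  rw [pw_apply]; ring

theorem Q_pp (c : ℕ) (S : Finset ℤ) (hS : S.Nonempty) (n : ℕ) : Q c (pp c S n) = 1 := by
  rw [Q_eq]
  have h : ∀ k, pp c S n k ^ (c + 3) = vv (c + 2) S n k ^ (c + 3) / NN c S n ^ (c + 3) := by
    intro k; rw [pp_apply, div_pow]
  simp_rw [h]
  rw [tsum_div_const, ← NN_pow c S hS, div_self]
  exact pow_ne_zero _ (NN_pos c S hS n).ne'

/-- The ratio `J_n`. -/
noncomputable def JJ (c : ℕ) (S : Finset ℤ) (n : ℕ) : ℝ := NN c S (n + 1) / NN c S n ^ (c + 2)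

theorem JJ_pos (c : ℕ) (S : Finset ℤ) (hS : S.Nonempty) (n : ℕ) : 0 < JJ c S n :=
  div_pos (NN_pos c S hS _) (pow_pos (NN_pos c S hS _) _)

theorem A_pp (c : ℕ) (S : Finset ℤ) (hS : S.Nonempty) (n : ℕ) :
    A (pw (c + 1) (pp c S n)) = JJ c S n • pp c S (n + 1) := by
  refine extX fun k => ?_
  have h1 := (NN_pos c S hS (n + 1)).ne'
  have h2 := (NN_pos c S hS n).ne'
  rw [A_apply, lp.coeFn_smul, Pi.smul_apply, smul_eq_mul, pw_apply, pw_apply, pw_apply,
    pp_apply, pp_apply, pp_apply, pp_apply, JJ]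
  have h3 : vv (c + 2) S (n + 1) k = vv (c + 2) S n (k - 1) ^ (c + 2) + vv (c + 2) S n k ^ (c + 2)
      + vv (c + 2) S n (k + 1) ^ (c + 2) := by
    rw [← xs_succ, ← xs_succ, ← xs_succ]; rfl
  rw [h3]
  have e : c + 1 + 1 = c + 2 := rfl
  rw [e, div_pow, div_pow, div_pow]
  field_simp

theorem inner_cross (c : ℕ) (S : Finset ℤ) (hS : S.Nonempty) (n : ℕ) :
    inner ℝ (pw (c + 1) (pp c S n)) (pp c S (n + 2)) = JJ c S n / JJ c S (n + 1) := by
  have h1 : JJ c S (n + 1) * inner ℝ (pw (c + 1) (pp c S n)) (pp c S (n + 2))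
      = JJ c S n := by
    calc JJ c S (n + 1) * inner ℝ (pw (c + 1) (pp c S n)) (pp c S (n + 2))
        = inner ℝ (pw (c + 1) (pp c S n)) (JJ c S (n + 1) • pp c S (n + 1 + 1)) := by
          rw [real_inner_smul_right]
      _ = inner ℝ (A (pw (c + 1) (pp c S n))) (pw (c + 1) (pp c S (n + 1))) := by
          rw [← A_pp c S hS, inner_A]
      _ = JJ c S n * Q c (pp c S (n + 1)) := by
          rw [A_pp c S hS, real_inner_smul_left, Q]
      _ = JJ c S n := by rw [Q_pp c S hS, mul_one]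
  rw [eq_div_iff (JJ_pos c S hS _).ne']
  linarith

theorem deficit (c : ℕ) (S : Finset ℤ) (hS : S.Nonempty) (n : ℕ) :
    ∑' k, ((pp c S n k) ^ (c + 1) + (pp c S (n + 2) k) ^ (c + 1)) *
      (pp c S (n + 2) k - pp c S n k) ^ 2 ≤ (c + 3 : ℝ) * (1 - JJ c S n / JJ c S (n + 1)) := by
  set a := pp c S n with ha
  set b := pp c S (n + 2) with hb
  have ha0 : ∀ k, 0 ≤ a k := pp_nonneg c S hS n
  have hb0 : ∀ k, 0 ≤ b k := pp_nonneg c S hS (n + 2)
  have sa := pow_summable c a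
  have sb := pow_summable c b
  have sab : Summable (fun k => a k ^ (c + 2) * b k) := by
    have := summable_mul (pw (c + 1) a) b
    refine this.congr fun k => ?_
    rw [pw_apply]
  have hpt : ∀ k, ((a k) ^ (c + 1) + (b k) ^ (c + 1)) * (b k - a k) ^ 2
      ≤ (c + 2 : ℝ) * a k ^ (c + 3) + b k ^ (c + 3) - (c + 3 : ℝ) * (a k ^ (c + 2) * b k) :=
    fun k => young_pt c (ha0 k) (hb0 k)
  have hs : Summable (fun k => (c + 2 : ℝ) * a k ^ (c + 3) + b k ^ (c + 3)
      - (c + 3 : ℝ) * (a k ^ (c + 2) * b k)) := ((sa.mul_left _).add sb).sub (sab.mul_left _)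
  have hn : ∀ k, 0 ≤ ((a k) ^ (c + 1) + (b k) ^ (c + 1)) * (b k - a k) ^ 2 := fun k =>
    mul_nonneg (add_nonneg (pow_nonneg (ha0 k) _) (pow_nonneg (hb0 k) _)) (sq_nonneg _)
  have hl := Summable.of_nonneg_of_le hn hpt hs
  have h1 := hl.tsum_le_tsum hpt hs
  rw [((sa.mul_left _).add sb).tsum_sub (sab.mul_left _), (sa.mul_left _).tsum_add sb,
    tsum_mul_left, tsum_mul_left, ← Q_eq, ← Q_eq] at h1
  have h2 : ∑' k, a k ^ (c + 2) * b k = JJ c S n / JJ c S (n + 1) := by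
    rw [← inner_cross c S hS n, inner_eq]
    refine tsum_congr fun k => ?_
    rw [pw_apply]
  rw [h2, ha, hb, Q_pp c S hS, Q_pp c S hS] at h1
  linarith

theorem JJ_mono (c : ℕ) (S : Finset ℤ) (hS : S.Nonempty) : Monotone (JJ c S) := by
  refine monotone_nat_of_le_succ fun n => ?_
  have h := deficit c S hS n
  have h0 : 0 ≤ ∑' k, ((pp c S n k) ^ (c + 1) + (pp c S (n + 2) k) ^ (c + 1)) *
      (pp c S (n + 2) k - pp c S n k) ^ 2 := tsum_nonneg fun k =>
    mul_nonneg (add_nonneg (pow_nonneg (pp_nonneg c S hS n k) _)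
      (pow_nonneg (pp_nonneg c S hS (n + 2) k) _)) (sq_nonneg _)
  have hc : (0 : ℝ) < c + 3 := by positivity
  have h1 : 0 ≤ 1 - JJ c S n / JJ c S (n + 1) := by
    by_contra hneg
    push Not at hneg
    have := mul_neg_of_pos_of_neg hc hneg
    linarith
  have h2 : JJ c S n / JJ c S (n + 1) ≤ 1 := by linarith
  rwa [div_le_one (JJ_pos c S hS _)] at h2

theorem pp_le_one (c : ℕ) (S : Finset ℤ) (hS : S.Nonempty) (n : ℕ) (k : ℤ) :
    pp c S n k ≤ 1 := by
  have h1 : pp c S n k ^ (c + 3) ≤ 1 := by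
    rw [← Q_pp c S hS n, Q_eq]
    exact (pow_summable c _).le_tsum k
      (fun j _ => pow_nonneg (pp_nonneg c S hS n j) _)
  exact (pow_le_one_iff_of_nonneg (pp_nonneg c S hS n k) (by omega)).1 h1

theorem shift_le (c : ℕ) (a b : X) (ha0 : ∀ k, 0 ≤ a k) (hb0 : ∀ k, 0 ≤ b k)
    (hb1 : ∀ k, b k ≤ 1) (hQa : Q c a = 1) (hQb : Q c b = 1) (j : ℤ) :
    Summable (fun k => a (k + j) ^ (c + 2) * b k ^ (c + 2)) ∧
    ∑' k, a (k + j) ^ (c + 2) * b k ^ (c + 2) ≤ 1 := by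
  have sa : Summable (fun k => a (k + j) ^ (c + 3)) :=
    summable_shift (f := fun k => a k ^ (c + 3)) (pow_summable c a) j
  have sb := pow_summable c b
  have hc : (0 : ℝ) < c + 3 := by positivity
  have hpt : ∀ k, a (k + j) ^ (c + 2) * b k ^ (c + 2)
      ≤ ((c + 2 : ℝ) * a (k + j) ^ (c + 3) + b k ^ (c + 3)) / (c + 3) := by
    intro k
    have h1 := young_pt c (ha0 (k + j)) (hb0 k)
    have h0 : 0 ≤ ((a (k + j)) ^ (c + 1) + (b k) ^ (c + 1)) * (b k - a (k + j)) ^ 2 :=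
      mul_nonneg (add_nonneg (pow_nonneg (ha0 _) _) (pow_nonneg (hb0 k) _)) (sq_nonneg _)
    have h2 : b k ^ (c + 2) ≤ b k := by
      have := pow_le_pow_of_le_one (hb0 k) (hb1 k) (show 1 ≤ c + 2 by omega)
      simpa using this
    have h3 : a (k + j) ^ (c + 2) * b k ^ (c + 2) ≤ a (k + j) ^ (c + 2) * b k :=
      mul_le_mul_of_nonneg_left h2 (pow_nonneg (ha0 _) _)
    rw [le_div_iff₀ hc]
    nlinarith
  have hs : Summable (fun k => ((c + 2 : ℝ) * a (k + j) ^ (c + 3) + b k ^ (c + 3)) / (c + 3)) :=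
    ((sa.mul_left _).add sb).div_const _
  have hn : ∀ k, 0 ≤ a (k + j) ^ (c + 2) * b k ^ (c + 2) := fun k =>
    mul_nonneg (pow_nonneg (ha0 _) _) (pow_nonneg (hb0 k) _)
  have hl := Summable.of_nonneg_of_le hn hpt hs
  refine ⟨hl, (hl.tsum_le_tsum hpt hs).trans ?_⟩
  rw [tsum_div_const, (sa.mul_left _).tsum_add sb, tsum_mul_left,
    tsum_shift (fun k => a k ^ (c + 3)) j, ← Q_eq, ← Q_eq, hQa, hQb]
  rw [div_le_one hc]; linarith

theorem JJ_le (c : ℕ) (S : Finset ℤ) (hS : S.Nonempty) (n : ℕ) : JJ c S n ≤ 3 := by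
  set a := pp c S n with ha
  set b := pp c S (n + 1) with hb
  have h1 : JJ c S n = inner ℝ (A (pw (c + 1) a)) (pw (c + 1) b) := by
    have := Q_pp c S hS (n + 1)
    rw [ha, A_pp c S hS, real_inner_smul_left, ← hb]
    rw [Q, ← hb] at this
    rw [this, mul_one]
  have ha0 : ∀ k, 0 ≤ a k := pp_nonneg c S hS n
  have hb0 : ∀ k, 0 ≤ b k := pp_nonneg c S hS (n + 1)
  have hb1 : ∀ k, b k ≤ 1 := pp_le_one c S hS (n + 1)
  have q := shift_le c a b ha0 hb0 hb1 (Q_pp c S hS n) (Q_pp c S hS (n + 1))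
  obtain ⟨s1, t1⟩ := q (-1)
  obtain ⟨s2, t2⟩ := q 0
  obtain ⟨s3, t3⟩ := q 1
  have e : (fun k => A (pw (c + 1) a) k * pw (c + 1) b k)
      = fun k => a (k + -1) ^ (c + 2) * b k ^ (c + 2) + a (k + 0) ^ (c + 2) * b k ^ (c + 2)
        + a (k + 1) ^ (c + 2) * b k ^ (c + 2) := by
    ext k
    rw [A_apply, pw_apply, pw_apply, pw_apply, pw_apply, sub_eq_add_neg, add_zero]
    ring
  rw [h1, inner_eq, e, (s1.add s2).tsum_add s3, s1.tsum_add s2]
  linarith

/-! ### Tails -/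

theorem pp_right (c : ℕ) (S : Finset ℤ) (hS : S.Nonempty) (M : ℤ) (hM : ∀ s ∈ S, s ≤ M) (n : ℕ)
    (a b : ℤ) (hab : b ≤ a) (h : 2 * M ≤ a + b) : pp c S n a ≤ pp c S n b := by
  rw [pp_apply, pp_apply]
  exact div_le_div_of_nonneg_right (vv_right (c + 2) (by omega) S M hM n a b hab h)
    (NN_pos c S hS n).le

theorem pp_left (c : ℕ) (S : Finset ℤ) (hS : S.Nonempty) (m : ℤ) (hm : ∀ s ∈ S, m ≤ s) (n : ℕ)
    (a b : ℤ) (hab : a ≤ b) (h : a + b ≤ 2 * m) : pp c S n a ≤ pp c S n b := by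
  rw [pp_apply, pp_apply]
  exact div_le_div_of_nonneg_right (vv_left (c + 2) (by omega) S m hm n a b hab h)
    (NN_pos c S hS n).le

theorem pp_tail_right (c : ℕ) (S : Finset ℤ) (hS : S.Nonempty) (M : ℤ) (hM : ∀ s ∈ S, s ≤ M)
    (n j : ℕ) : ((j : ℝ) + 1) * pp c S n (M + j) ^ (c + 3) ≤ 1 := by
  refine tail_bound (fun k => pp c S n k ^ (c + 3)) (fun k => pow_nonneg (pp_nonneg c S hS n k) _)
    (pow_summable c _) (by rw [← Q_eq, Q_pp c S hS]) j (fun i => M + i)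
    (fun x y h => by simpa using h) (fun i hi => ?_)
  exact pow_le_pow_left₀ (pp_nonneg c S hS n _)
    (pp_right c S hS M hM n _ _ (by omega) (by omega)) _

theorem pp_tail_left (c : ℕ) (S : Finset ℤ) (hS : S.Nonempty) (m : ℤ) (hm : ∀ s ∈ S, m ≤ s)
    (n j : ℕ) : ((j : ℝ) + 1) * pp c S n (m - j) ^ (c + 3) ≤ 1 := by
  refine tail_bound (fun k => pp c S n k ^ (c + 3)) (fun k => pow_nonneg (pp_nonneg c S hS n k) _)
    (pow_summable c _) (by rw [← Q_eq, Q_pp c S hS]) j (fun i => m - i)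
    (fun x y h => by simpa using h) (fun i hi => ?_)
  exact pow_le_pow_left₀ (pp_nonneg c S hS n _)
    (pp_left c S hS m hm n _ _ (by omega) (by omega)) _

/-- From `t x^(c+3) ≤ 1` get `x^(c+2) ≤ t^(-r)` with `r = (c+2)/(c+3)`. -/
theorem pow_rpow_bound (c : ℕ) {t x : ℝ} (ht : 0 < t) (hx : 0 ≤ x) (h : t * x ^ (c + 3) ≤ 1) :
    x ^ (c + 2) ≤ t ^ (-(((c : ℝ) + 2) / (c + 3))) := by
  have hc : (0 : ℝ) < c + 3 := by positivity
  have h1 : x ^ (c + 3) ≤ t⁻¹ := by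
    rw [← one_div, le_div_iff₀ ht]; linarith
  have h2 : x ^ (c + 2) = (x ^ (c + 3)) ^ (((c : ℝ) + 2) / (c + 3)) := by
    rw [← Real.rpow_natCast x (c + 3), ← Real.rpow_mul hx]
    have : ((c + 3 : ℕ) : ℝ) * (((c : ℝ) + 2) / (c + 3)) = ((c + 2 : ℕ) : ℝ) := by
      push_cast; field_simp
    rw [this, Real.rpow_natCast]
  rw [h2, Real.rpow_neg ht.le, ← Real.inv_rpow ht.le]
  exact Real.rpow_le_rpow (pow_nonneg hx _) h1 (by positivity)

theorem pp_succ_le (c : ℕ) (S : Finset ℤ) (hS : S.Nonempty) (n : ℕ) (k : ℤ) (x : ℝ)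
    (hx : ∀ i : ℤ, k - 1 ≤ i → i ≤ k + 1 → pp c S n i ^ (c + 2) ≤ x) :
    pp c S (n + 1) k ≤ 3 / JJ c S 0 * x := by
  have h1 : JJ c S n * pp c S (n + 1) k = pp c S n (k - 1) ^ (c + 2) + pp c S n k ^ (c + 2)
      + pp c S n (k + 1) ^ (c + 2) := by
    have := congrArg (fun f : X => f k) (A_pp c S hS n)
    simp only [A_apply, pw_apply, lp.coeFn_smul, Pi.smul_apply, smul_eq_mul] at this
    exact this.symm
  have h2 : JJ c S n * pp c S (n + 1) k ≤ 3 * x := by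
    rw [h1]
    have := hx (k - 1) (by omega) (by omega)
    have := hx k (by omega) (by omega)
    have := hx (k + 1) (by omega) (by omega)
    linarith
  have h3 : JJ c S 0 ≤ JJ c S n := JJ_mono c S hS (Nat.zero_le n)
  have h4 := JJ_pos c S hS 0
  have h5 := pp_nonneg c S hS (n + 1) k
  rw [div_mul_eq_mul_div, le_div_iff₀ h4]
  nlinarith [mul_le_mul_of_nonneg_right h3 h5]

theorem summable_envelope (B r : ℝ) (hr : 1 < 2 * r) :
    Summable (fun k : ℤ => (B * (|(k : ℝ)| + 1) ^ (-r)) ^ 2) := by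
  have key : Summable (fun n : ℕ => (B * ((n : ℝ) + 1) ^ (-r)) ^ 2) := by
    have h1 : Summable (fun n : ℕ => ((n : ℝ)) ^ (-(2 * r))) := by
      rw [Real.summable_nat_rpow]; linarith
    have h2 := ((summable_nat_add_iff 1).2 h1).mul_left (B ^ 2)
    refine h2.congr fun n => ?_
    have hn : (0 : ℝ) ≤ (n : ℝ) + 1 := by positivity
    rw [mul_pow, ← Real.rpow_natCast (((n : ℝ) + 1) ^ (-r)) 2, ← Real.rpow_mul hn]
    push_cast
    congr 2
    ring
  refine Summable.of_nat_of_neg ?_ ?_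
  · refine key.congr fun n => ?_
    simp
  · refine key.congr fun n => ?_
    simp

theorem iter_exists (c : ℕ) (S : Finset ℤ) (hS : S.Nonempty) :
    ∃ (p : ℕ → X) (J N : ℕ → ℝ) (b : ℤ → ℝ),
      (∀ n, 0 < N n) ∧ (∀ n k, (xs (c + 2) S (n + 1) k : ℝ) = (N n * p n k) ^ (c + 2)) ∧
      (∀ n k, 0 ≤ p n k) ∧ (∀ n, Q c (p n) = 1) ∧ (∀ n, 0 < J n) ∧ Monotone J ∧
      (∀ n, J n ≤ 3) ∧ (∀ n, A (pw (c + 1) (p n)) = J n • p (n + 1)) ∧
      (∀ n, ∑' k, ((p n k) ^ (c + 1) + (p (n + 2) k) ^ (c + 1)) * (p (n + 2) k - p n k) ^ 2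
        ≤ (c + 3 : ℝ) * (1 - J n / J (n + 1))) ∧
      Summable (fun k => b k ^ 2) ∧ (∀ n k, |p (n + 1) k| ≤ b k) := by
  set M := S.max' hS with hM
  set m := S.min' hS with hm
  have hMS : ∀ s ∈ S, s ≤ M := fun s hs => S.le_max' s hs
  have hmS : ∀ s ∈ S, m ≤ s := fun s hs => S.min'_le s hs
  have hJ0 := JJ_pos c S hS 0
  have hc3 : (0 : ℝ) < c + 3 := by positivity
  set r : ℝ := ((c : ℝ) + 2) / (c + 3) with hr
  have hr0 : 0 < r := by positivity
  have hr1 : r ≤ 1 := by rw [hr, div_le_one hc3]; linarith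
  have hr2 : 1 < 2 * r := by
    rw [hr, ← mul_div_assoc, lt_div_iff₀ hc3]
    have : (0 : ℝ) ≤ c := Nat.cast_nonneg c
    linarith
  set B : ℝ := (3 / JJ c S 0 + 1) * (|(M : ℝ)| + |(m : ℝ)| + 2) with hB
  have hM0 := abs_nonneg (M : ℝ)
  have hm0 := abs_nonneg (m : ℝ)
  have h3J : 0 < 3 / JJ c S 0 := by positivity
  -- comparison of `t ^ (-r)` with the envelope
  have hcmp : ∀ (k : ℤ) (t D : ℝ), 0 < t → 0 < D → D ≤ |(M : ℝ)| + |(m : ℝ)| + 2 →
      |(k : ℝ)| + 1 ≤ t * D → 3 / JJ c S 0 * t ^ (-r) ≤ B * (|(k : ℝ)| + 1) ^ (-r) := by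
    intro k t D ht hD hD2 hk
    have hk0 : 0 < |(k : ℝ)| + 1 := by positivity
    have h1 : (|(k : ℝ)| + 1) ^ r ≤ t ^ r * (|(M : ℝ)| + |(m : ℝ)| + 2) := by
      calc (|(k : ℝ)| + 1) ^ r ≤ (t * (|(M : ℝ)| + |(m : ℝ)| + 2)) ^ r := by
            refine Real.rpow_le_rpow hk0.le (hk.trans ?_) hr0.le
            exact mul_le_mul_of_nonneg_left hD2 ht.le
        _ = t ^ r * (|(M : ℝ)| + |(m : ℝ)| + 2) ^ r := Real.mul_rpow ht.le (by positivity)
        _ ≤ t ^ r * (|(M : ℝ)| + |(m : ℝ)| + 2) := by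
            refine mul_le_mul_of_nonneg_left ?_ (by positivity)
            calc (|(M : ℝ)| + |(m : ℝ)| + 2) ^ r ≤ (|(M : ℝ)| + |(m : ℝ)| + 2) ^ (1 : ℝ) :=
                  Real.rpow_le_rpow_of_exponent_le (by linarith) hr1
              _ = _ := Real.rpow_one _
    have htr : 0 < t ^ r := Real.rpow_pos_of_pos ht r
    have hkr : 0 < (|(k : ℝ)| + 1) ^ r := Real.rpow_pos_of_pos hk0 r
    rw [Real.rpow_neg ht.le, Real.rpow_neg hk0.le, ← div_eq_mul_inv, ← div_eq_mul_inv,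
      div_le_div_iff₀ htr hkr, hB]
    nlinarith [mul_le_mul_of_nonneg_left h1 h3J.le, mul_pos htr (by linarith : 0 < |(M : ℝ)| + |(m : ℝ)| + 2)]
  refine ⟨pp c S, JJ c S, NN c S, fun k => B * (|(k : ℝ)| + 1) ^ (-r), NN_pos c S hS, ?_,
    pp_nonneg c S hS, Q_pp c S hS, JJ_pos c S hS, JJ_mono c S hS, JJ_le c S hS, A_pp c S hS,
    deficit c S hS, summable_envelope B r hr2, ?_⟩
  · intro n k
    rw [NN_mul_pp c S hS, xs_succ]
  · intro n k
    rw [abs_of_nonneg (pp_nonneg c S hS (n + 1) k)]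
    rcases lt_or_ge M k with hk | hk
    · -- right tail
      obtain ⟨j, hj⟩ : ∃ j : ℕ, k = M + j + 1 := ⟨(k - M - 1).toNat, by omega⟩
      have ht : (0 : ℝ) < (j : ℝ) + 1 := by positivity
      have h1 : pp c S (n + 1) k ≤ 3 / JJ c S 0 * ((j : ℝ) + 1) ^ (-r) := by
        refine pp_succ_le c S hS n k _ fun i hi1 hi2 => ?_
        have h2 := pow_rpow_bound c ht (pp_nonneg c S hS n (M + j))
          (pp_tail_right c S hS M hMS n j)
        refine le_trans ?_ h2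
        exact pow_le_pow_left₀ (pp_nonneg c S hS n _)
          (pp_right c S hS M hMS n _ _ (by omega) (by omega)) _
      refine h1.trans (hcmp k _ (|(M : ℝ)| + 2) ht (by positivity) (by linarith) ?_)
      have : (k : ℝ) = M + (j + 1) := by rw [hj]; push_cast; ring
      rw [this]
      have h3 := abs_add_le (M : ℝ) ((j : ℝ) + 1)
      rw [abs_of_pos ht] at h3
      nlinarith [mul_nonneg hM0 (Nat.cast_nonneg (α := ℝ) j)]
    rcases lt_or_ge k m with hk' | hk'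
    · -- left tail
      obtain ⟨j, hj⟩ : ∃ j : ℕ, k = m - j - 1 := ⟨(m - k - 1).toNat, by omega⟩
      have ht : (0 : ℝ) < (j : ℝ) + 1 := by positivity
      have h1 : pp c S (n + 1) k ≤ 3 / JJ c S 0 * ((j : ℝ) + 1) ^ (-r) := by
        refine pp_succ_le c S hS n k _ fun i hi1 hi2 => ?_
        have h2 := pow_rpow_bound c ht (pp_nonneg c S hS n (m - j))
          (pp_tail_left c S hS m hmS n j)
        refine le_trans ?_ h2
        exact pow_le_pow_left₀ (pp_nonneg c S hS n _)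
          (pp_left c S hS m hmS n _ _ (by omega) (by omega)) _
      refine h1.trans (hcmp k _ (|(m : ℝ)| + 2) ht (by positivity) (by linarith) ?_)
      have : (k : ℝ) = m - (j + 1) := by rw [hj]; push_cast; ring
      rw [this]
      have h3 := abs_sub (m : ℝ) ((j : ℝ) + 1)
      rw [abs_of_pos ht] at h3
      nlinarith [mul_nonneg hm0 (Nat.cast_nonneg (α := ℝ) j)]
    · -- middle
      have hk1 : |(k : ℝ)| ≤ |(M : ℝ)| + |(m : ℝ)| := by
        have a1 : (k : ℝ) ≤ M := by exact_mod_cast hk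
        have a2 : (m : ℝ) ≤ k := by exact_mod_cast hk'
        rw [abs_le]
        constructor
        · linarith [neg_abs_le (m : ℝ)]
        · linarith [le_abs_self (M : ℝ)]
      have hk0 : 0 < |(k : ℝ)| + 1 := by positivity
      have h1 : (|(k : ℝ)| + 1) ^ r ≤ B := by
        calc (|(k : ℝ)| + 1) ^ r ≤ (|(k : ℝ)| + 1) ^ (1 : ℝ) :=
              Real.rpow_le_rpow_of_exponent_le (by linarith [abs_nonneg (k : ℝ)]) hr1
          _ = |(k : ℝ)| + 1 := Real.rpow_one _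
          _ ≤ B := by rw [hB]; nlinarith
      refine (pp_le_one c S hS (n + 1) k).trans ?_
      show 1 ≤ B * (|(k : ℝ)| + 1) ^ (-r)
      rw [Real.rpow_neg hk0.le, ← div_eq_mul_inv, le_div_iff₀ (Real.rpow_pos_of_pos hk0 r)]
      linarith

end Pool.Agent.H.MP_e9f8c5_pr
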