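import Pool.Agent.H.MP_e9f8c5_pr.Defs

set_option autoImplicit false

open scoped Topology
open Filter Set

namespace Pool.Agent.H.MP_e9f8c5_pr

/-! Kernel of `I - K` with `K h = μ A (b · A (a · h))`, `a b > 0`, and a rank two correction. -/

section Kernel

variable (a b : X) (μ : ℝ)

/-- The operator `K h = μ A (b · A (a · h))`. -/
noncomputable def opK : X →L[ℝ] X := μ • (A ∘L mul b ∘L A ∘L mul a)

theorem opK_apply (h : X) : opK a b μ h = μ • A (mul b (A (mul a h))) := rfl

theorem opK_symm (f g : X) :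
    inner ℝ (opK a b μ f) (mul a g) = inner ℝ f (mul a (opK a b μ g)) := by
  have hm : ∀ u v w : X, inner ℝ (mul u v) w = inner ℝ v (mul u w) := by
    intro u v w
    rw [inner_eq, inner_eq]
    congr 1
    ext k
    rw [mul_apply, mul_apply]
    ring
  rw [opK_apply, opK_apply, map_smul, real_inner_smul_left, real_inner_smul_right, inner_A, hm,
    inner_A, hm]

/-- Truncation to `k > N`. -/
noncomputable def trunc (N : ℤ) (f : X) : X :=
  mkX (fun k => if N < k then f k else 0) (by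
    refine Summable.of_nonneg_of_le (fun k => sq_nonneg _) (fun k => ?_) (sq_summable f)
    split_ifs
    · exact le_refl _
    · rw [zero_pow two_ne_zero]
      exact sq_nonneg _)

theorem trunc_apply (N : ℤ) (f : X) (k : ℤ) : trunc N f k = if N < k then f k else 0 := rfl

theorem norm_mul_trunc_le (N : ℤ) (f g : X) (δ : ℝ) (hδ : 0 ≤ δ) (hf : ∀ k, N < k → |f k| ≤ δ) :
    ‖mul f (trunc N g)‖ ≤ δ * ‖trunc N g‖ := by
  refine norm_le_of hδ (fun k => ?_)
  rw [mul_apply, abs_mul, trunc_apply]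
  split_ifs with h
  · exact mul_le_mul_of_nonneg_right (hf k h) (abs_nonneg _)
  · simp

theorem norm_trunc_A_le (N : ℤ) (f g : X) (δ : ℝ) (hδ : 0 ≤ δ) (hf : ∀ k, N < k → |f k| ≤ δ)
    (hg : g N = 0) : ‖trunc N (A (mul f g))‖ ≤ 3 * δ * ‖trunc N g‖ := by
  have h1 : ‖trunc N (A (mul f g))‖ ≤ 1 * ‖A (mul f (trunc N g))‖ := by
    refine norm_le_of zero_le_one (fun k => ?_)
    rw [one_mul, trunc_apply]
    split_ifs with h
    · rw [A_apply, A_apply]
      have e1 : mul f (trunc N g) (k - 1) = mul f g (k - 1) := by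
        rw [mul_apply, mul_apply, trunc_apply]
        split_ifs with h2
        · rfl
        · have : k - 1 = N := by omega
          rw [this, hg]
      have e2 : mul f (trunc N g) k = mul f g k := by
        rw [mul_apply, mul_apply, trunc_apply, if_pos h]
      have e3 : mul f (trunc N g) (k + 1) = mul f g (k + 1) := by
        rw [mul_apply, mul_apply, trunc_apply, if_pos (by omega)]
      rw [e1, e2, e3]
    · simp
  have h2 := norm_A_le (mul f (trunc N g))
  have h3 := norm_mul_trunc_le N f g δ hδ hf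
  linarith

theorem ker_aux (ha : ∀ k, 0 < a k) (hb : ∀ k, 0 < b k) (hμ : 0 < μ) (N : ℤ) (δ : ℝ) (hδ : 0 ≤ δ)
    (haN : ∀ k, N < k → |a k| ≤ δ) (hbN : ∀ k, N < k → |b k| ≤ δ) (hsmall : 9 * μ * δ ^ 2 < 1)
    (h : X) (hh : opK a b μ h = h) (h0 : h N = 0) (h1 : A (mul a h) N = 0) : h = 0 := by
  set η : X := A (mul a h) with hη
  have hhk : h = μ • A (mul b η) := by rw [hη, ← opK_apply, hh]
  have n1 : ‖trunc N h‖ ≤ μ * (3 * δ * ‖trunc N η‖) := by
    have e1 : trunc N h = μ • trunc N (A (mul b η)) := by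
      apply extX
      intro k
      rw [lp.coeFn_smul, Pi.smul_apply, trunc_apply, trunc_apply, smul_eq_mul]
      split_ifs with hk
      · conv_lhs => rw [hhk]
        rw [lp.coeFn_smul, Pi.smul_apply, smul_eq_mul]
      · rw [mul_zero]
    rw [e1, norm_smul, Real.norm_of_nonneg hμ.le]
    exact mul_le_mul_of_nonneg_left (norm_trunc_A_le N b η δ hδ hbN h1) hμ.le
  have n2 : ‖trunc N η‖ ≤ 3 * δ * ‖trunc N h‖ := norm_trunc_A_le N a h δ hδ haN h0
  have n3 : ‖trunc N h‖ ≤ 9 * μ * δ ^ 2 * ‖trunc N h‖ := by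
    calc ‖trunc N h‖ ≤ μ * (3 * δ * ‖trunc N η‖) := n1
      _ ≤ μ * (3 * δ * (3 * δ * ‖trunc N h‖)) := by gcongr
      _ = 9 * μ * δ ^ 2 * ‖trunc N h‖ := by ring
  have n4 : ‖trunc N h‖ = 0 := by
    have := norm_nonneg (trunc N h)
    by_contra hne
    have hpos : 0 < ‖trunc N h‖ := lt_of_le_of_ne this (Ne.symm hne)
    nlinarith
  have n5 : ‖trunc N η‖ = 0 := by
    rw [n4, mul_zero] at n2
    exact le_antisymm n2 (norm_nonneg _)
  have z1 : ∀ k, N < k → h k = 0 := by
    intro k hk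
    have : trunc N h k = 0 := by
      rw [norm_eq_zero.1 n4]
      rfl
    rwa [trunc_apply, if_pos hk] at this
  have z2 : ∀ k, N < k → η k = 0 := by
    intro k hk
    have : trunc N η k = 0 := by
      rw [norm_eq_zero.1 n5]
      rfl
    rwa [trunc_apply, if_pos hk] at this
  have down : ∀ n : ℕ, h (N - n) = 0 ∧ η (N - n) = 0 ∧ h (N - n + 1) = 0 ∧ η (N - n + 1) = 0 := by
    intro n
    induction n with
    | zero =>
      simp only [Nat.cast_zero, sub_zero]
      exact ⟨h0, h1, z1 _ (by omega), z2 _ (by omega)⟩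
    | succ n ih =>
      obtain ⟨i1, i2, i3, i4⟩ := ih
      have ecast : N - ((n + 1 : ℕ) : ℤ) = N - n - 1 := by push_cast; ring
      have ecast2 : N - (n : ℤ) - 1 + 1 = N - n := by ring
      rw [ecast, ecast2]
      refine ⟨?_, ?_, i1, i2⟩
      · -- from `η (N - n) = 0`
        have e : η (N - n) = a (N - n - 1) * h (N - n - 1) + a (N - n) * h (N - n) +
            a (N - n + 1) * h (N - n + 1) := by
          rw [hη, A_apply, mul_apply, mul_apply, mul_apply]
        rw [i2, i1, i3, mul_zero, mul_zero, add_zero, add_zero] at e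
        rcases mul_eq_zero.1 e.symm with e | e
        · exact absurd e (ha _).ne'
        · exact e
      · have e : h (N - n) = μ * (b (N - n - 1) * η (N - n - 1) + b (N - n) * η (N - n) +
            b (N - n + 1) * η (N - n + 1)) := by
          conv_lhs => rw [hhk]
          rw [lp.coeFn_smul, Pi.smul_apply, smul_eq_mul, A_apply, mul_apply, mul_apply, mul_apply]
        rw [i1, i2, i4, mul_zero, mul_zero, add_zero, add_zero] at e
        rcases mul_eq_zero.1 e.symm with e | e
        · exact absurd e hμ.ne'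
        · rcases mul_eq_zero.1 e with e | e
          · exact absurd e (hb _).ne'
          · exact e
  apply extX
  intro k
  show h k = 0
  rcases lt_or_ge N k with hk | hk
  · exact z1 k hk
  · have := (down (N - k).toNat).1
    rwa [Int.toNat_of_nonneg (by omega), show N - (N - k) = k by ring] at this

theorem exists_small (f : X) (δ : ℝ) (hδ : 0 < δ) : ∃ N : ℤ, ∀ k, N < k → |f k| ≤ δ := by
  have h1 : Tendsto (fun k : ℤ => f k ^ 2) cofinite (𝓝 0) := (sq_summable f).tendsto_cofinite_zero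
  have h2 : ∀ᶠ k : ℤ in cofinite, f k ^ 2 < δ ^ 2 := h1.eventually_lt_const (by positivity)
  have h3 : {k : ℤ | ¬ f k ^ 2 < δ ^ 2}.Finite := Filter.eventually_cofinite.1 h2
  obtain ⟨N, hN⟩ := h3.bddAbove
  refine ⟨N, fun k hk => ?_⟩
  by_contra hcon
  push Not at hcon
  have h4 : k ∈ {k : ℤ | ¬ f k ^ 2 < δ ^ 2} := by
    intro h5
    rw [← sq_abs] at h5
    have := lt_of_pow_lt_pow_left₀ 2 hδ.le h5
    linarith
  have := hN h4
  omega

/-- Coordinate functional. -/
noncomputable def coordX (N : ℤ) : X →L[ℝ] ℝ :=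
  LinearMap.mkContinuous
    { toFun := fun f => f N
      map_add' := fun f g => by simp
      map_smul' := fun r f => by simp }
    1 (fun f => by
      rw [one_mul]
      exact abs_le_norm f N)

theorem coordX_apply (N : ℤ) (f : X) : coordX N f = f N := rfl

theorem exists_PJL_aux (ha : ∀ k, 0 < a k) (hb : ∀ k, 0 < b k) (hμ : 0 < μ)
    (hca : IsCompactOperator (mul a : X → X)) :
    ∃ (P : X →L[ℝ] ℝ × ℝ) (J : ℝ × ℝ →L[ℝ] X) (L : X ≃L[ℝ] X),
      ∀ h, L h = (h - opK a b μ h) + J (P h) := by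
  -- choice of `N`
  obtain ⟨δ, hδ, hδs⟩ : ∃ δ : ℝ, 0 < δ ∧ 9 * μ * δ ^ 2 < 1 := by
    refine ⟨min 1 (1 / (18 * μ)), by positivity, ?_⟩
    set δ := min 1 (1 / (18 * μ)) with hδd
    have h1 : δ ≤ 1 := min_le_left _ _
    have h2 : δ ≤ 1 / (18 * μ) := min_le_right _ _
    have h3 : 0 < δ := by positivity
    have h4 : 18 * μ * δ ≤ 1 := by
      rw [le_div_iff₀ (by positivity)] at h2
      linarith
    nlinarith
  obtain ⟨N1, hN1⟩ := exists_small a δ hδ
  obtain ⟨N2, hN2⟩ := exists_small b δ hδ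
  set N := max N1 N2 with hN
  have haN : ∀ k, N < k → |a k| ≤ δ := fun k hk => hN1 k (lt_of_le_of_lt (le_max_left _ _) hk)
  have hbN : ∀ k, N < k → |b k| ≤ δ := fun k hk => hN2 k (lt_of_le_of_lt (le_max_right _ _) hk)
  let P : X →L[ℝ] ℝ × ℝ := (coordX N).prod ((coordX N) ∘L A ∘L mul a)
  have hP : ∀ h, P h = (h N, A (mul a h) N) := fun h => rfl
  let T1 : X →L[ℝ] X := ContinuousLinearMap.id ℝ X - opK a b μ
  let K0 : Submodule ℝ X := LinearMap.ker (T1 : X →ₗ[ℝ] X)
  have hK0 : ∀ h : X, h ∈ K0 ↔ opK a b μ h = h := by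
    intro h
    rw [LinearMap.mem_ker]
    show h - opK a b μ h = 0 ↔ _
    rw [sub_eq_zero, eq_comm]
  let f0 : K0 →ₗ[ℝ] ℝ × ℝ := (P : X →ₗ[ℝ] ℝ × ℝ) ∘ₗ K0.subtype
  have hf0 : LinearMap.ker f0 = ⊥ := by
    rw [LinearMap.ker_eq_bot']
    rintro ⟨h, hh⟩ hzero
    have h2 : P h = 0 := hzero
    rw [hP, Prod.mk_eq_zero] at h2
    have h3 := ker_aux a b μ ha hb hμ N δ hδ.le haN hbN hδs h ((hK0 h).1 hh) h2.1 h2.2
    exact Subtype.ext h3
  obtain ⟨g, hg⟩ := LinearMap.exists_leftInverse_of_injective f0 hf0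
  let J0 : ℝ × ℝ →ₗ[ℝ] X := K0.subtype ∘ₗ g
  let J : ℝ × ℝ →L[ℝ] X := LinearMap.toContinuousLinearMap J0
  have hJ : ∀ x, J x = ((g x : K0) : X) := fun x => rfl
  have hJmem : ∀ x, J x ∈ K0 := fun x => by
    rw [hJ]
    exact (g x).2
  have hJP : ∀ n ∈ K0, J (P n) = n := by
    intro n hn
    have h2 : g (f0 ⟨n, hn⟩) = ⟨n, hn⟩ := by
      rw [← LinearMap.comp_apply, hg]
      rfl
    have h3 : f0 ⟨n, hn⟩ = P n := rfl
    rw [hJ, ← h3, h2]
  let T : X →L[ℝ] X := opK a b μ - J ∘L P
  have hT : ∀ h, T h = opK a b μ h - J (P h) := fun h => rfl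
  have hcK : IsCompactOperator (opK a b μ : X → X) := by
    have h1 : IsCompactOperator ((A ∘L mul b ∘L A : X →L[ℝ] X) ∘ (mul a : X → X)) :=
      hca.clm_comp _
    have h2 := h1.smul μ
    exact h2
  have hcJ : IsCompactOperator ((J ∘L P : X →L[ℝ] X) : X → X) := by
    have h1 : IsCompactOperator (P : X → ℝ × ℝ) := isCompactOperator_of_locallyCompactSpace_dom P
    exact h1.clm_comp J
  have hcT : IsCompactOperator (T : X → X) := hcK.sub hcJ
  have hev : ¬ Module.End.HasEigenvalue (T : Module.End ℝ X) (1 : ℝ) := by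
    intro hev
    obtain ⟨h, hh⟩ := hev.exists_hasEigenvector
    have h1 : T h = h := by
      have := hh.apply_eq_smul
      rwa [one_smul] at this
    have h2 : h ≠ 0 := hh.2
    apply h2
    set n : X := h - opK a b μ h with hn
    have hn2 : n = -J (P h) := by
      rw [hn]
      rw [hT] at h1
      conv_lhs => rw [← h1]
      have : opK a b μ (opK a b μ h - J (P h)) = opK a b μ h := by rw [h1]
      rw [this]
      abel
    have hnK : n ∈ K0 := by
      rw [hn2]
      exact K0.neg_mem (hJmem _)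
    have hnK2 := (hK0 n).1 hnK
    have hin : inner ℝ n (mul a n) = 0 := by
      have e1 : inner ℝ n (mul a n) = inner ℝ h (mul a n) - inner ℝ (opK a b μ h) (mul a n) := by
        conv_lhs => rw [hn]
        rw [inner_sub_left]
      rw [e1, opK_symm, hnK2, sub_self]
    have hn0 : n = 0 := by
      rw [inner_eq] at hin
      have hs : Summable (fun k => n k * mul a n k) := summable_mul n (mul a n)
      have hnonneg : ∀ k, 0 ≤ n k * mul a n k := by
        intro k
        rw [mul_apply]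
        have := ha k
        nlinarith [mul_nonneg (ha k).le (mul_self_nonneg (n k))]
      have h5 := (hasSum_zero_iff_of_nonneg hnonneg).1 (hin ▸ hs.hasSum)
      apply extX
      intro k
      show n k = 0
      have h6 : n k * mul a n k = 0 := congrFun h5 k
      rw [mul_apply] at h6
      have h7 : a k * (n k * n k) = 0 := by linarith
      rcases mul_eq_zero.1 h7 with h8 | h8
      · exact absurd h8 (ha k).ne'
      · exact mul_self_eq_zero.1 h8
    have hhK : h ∈ K0 := by
      rw [hK0]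
      rw [hn0] at hn
      exact (sub_eq_zero.1 hn.symm).symm
    have h9 := hJP h hhK
    rw [← h9]
    have : J (P h) = -n := by rw [hn2, neg_neg]
    rw [this, hn0, neg_zero]
  have hres := (hcT.hasEigenvalue_or_mem_resolventSet (one_ne_zero)).resolve_left hev
  rw [spectrum.mem_resolventSet_iff] at hres
  obtain ⟨U, hU⟩ := hres
  refine ⟨P, J, ContinuousLinearEquiv.unitsEquiv ℝ X U, ?_⟩
  intro h
  rw [ContinuousLinearEquiv.unitsEquiv_apply, hU, map_one]
  show h - T h = _
  rw [hT]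
  abel

end Kernel

theorem exists_PJL' (c : ℕ) (Λ : ℝ) (hΛ : 0 < Λ) (z : X) (hz : ∀ k, 0 < z k)
    (hcomp : ∀ a : X, IsCompactOperator (mul a : X → X)) :
    ∃ (P : X →L[ℝ] ℝ × ℝ) (J : ℝ × ℝ →L[ℝ] X) (L : X ≃L[ℝ] X),
      ∀ h, L h = (h - (Λ⁻¹ * (c + 2 : ℝ) ^ 2) •
        A (mul (pw c (A (pw (c + 1) z))) (A (mul (pw c z) h)))) + J (P h) := by
  have ha : ∀ k, 0 < pw c z k := fun k => by
    rw [pw_apply]
    have := hz k
    positivity
  have hb : ∀ k, 0 < pw c (A (pw (c + 1) z)) k := fun k => by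
    rw [pw_apply, A_apply, pw_apply, pw_apply, pw_apply]
    have h1 := hz (k - 1)
    have h2 := hz k
    have h3 := hz (k + 1)
    positivity
  exact exists_PJL_aux (pw c z) (pw c (A (pw (c + 1) z))) (Λ⁻¹ * (c + 2 : ℝ) ^ 2) ha hb
    (by positivity) (hcomp _)

end Pool.Agent.H.MP_e9f8c5_pr
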