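import Pool.Agent.H.MP_e9f8c5_pr.TreeDefs

set_option autoImplicit false

open scoped Topology ENNReal NNReal
open Filter

namespace Pool.Agent.H.MP_e9f8c5_pr

section Decomp
variable {d n r : ℕ}

/-- The root. -/
def rt (d n : ℕ) : Node d n := ⟨[], by simp⟩

/-- The vertex `w` of the `i`-th subtree. -/
def cn (i : Fin d) (w : Node d n) : Node d (n + 1) := ⟨i :: w.1, by simpa using w.2⟩

/-- Restriction to the `i`-th subtree. -/
def sb (f : Node d (n + 1) → ℤ) (i : Fin d) : Node d n → ℤ := fun w => f (cn i w)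

/-- Glue a root value and functions on the subtrees. -/
def gl (k : ℤ) (g : Fin d → Node d n → ℤ) : Node d (n + 1) → ℤ
  | ⟨[], _⟩ => k
  | ⟨i :: w, h⟩ => g i ⟨w, by simpa using h⟩

/-- The decomposition of functions. -/
def dec (d n : ℕ) : (Node d (n + 1) → ℤ) ≃ ℤ × (Fin d → Node d n → ℤ) where
  toFun f := (f (rt d (n + 1)), sb f)
  invFun p := gl p.1 p.2
  left_inv f := by
    funext ⟨w, h⟩
    cases w <;> rfl
  right_inv p := rfl

@[simp] theorem gl_rt (k : ℤ) (g : Fin d → Node d n → ℤ) : gl k g (rt d (n + 1)) = k := rfl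

@[simp] theorem sb_gl (k : ℤ) (g : Fin d → Node d n → ℤ) : sb (gl k g) = g := rfl

theorem isLip_zero (f : Node d 0 → ℤ) : IsLip f := by
  intro w i h
  simp at h

theorem isLip_succ (f : Node d (n + 1) → ℤ) :
    IsLip f ↔ ∀ i, |sb f i (rt d n) - f (rt d (n + 1))| ≤ 1 ∧ IsLip (sb f i) := by
  constructor
  · intro h i
    refine ⟨h [] i (by simp), fun w j hw => ?_⟩
    exact h (i :: w) j (by simpa using hw)
  · intro h w j hw
    cases w with
    | nil => exact (h j).1
    | cons i w => exact (h i).2 w j (by simpa using hw)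

theorem mem_lipSet_zero (S : Finset ℤ) (f : Node d 0 → ℤ) :
    f ∈ lipSet d 0 S ↔ f (rt d 0) ∈ S := by
  constructor
  · intro h
    exact h.2 (rt d 0) rfl
  · intro h
    refine ⟨isLip_zero f, ?_⟩
    rintro ⟨w, hw⟩ hw'
    have : w = [] := by simpa using hw
    subst this
    exact h

theorem mem_lipSet_succ (S : Finset ℤ) (f : Node d (n + 1) → ℤ) :
    f ∈ lipSet d (n + 1) S ↔
      ∀ i, |sb f i (rt d n) - f (rt d (n + 1))| ≤ 1 ∧ sb f i ∈ lipSet d n S := by
  unfold lipSet
  simp only [Set.mem_ofPred_eq, isLip_succ]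
  constructor
  · rintro ⟨h1, h2⟩ i
    exact ⟨(h1 i).1, (h1 i).2, fun w hw => h2 (cn i w) (by simpa [cn] using hw)⟩
  · intro h
    refine ⟨fun i => ⟨(h i).1, (h i).2.1⟩, ?_⟩
    rintro ⟨w, hw⟩ hw'
    cases w with
    | nil => simp at hw'
    | cons i w => exact (h i).2.2 ⟨w, by simpa using hw⟩ (by simpa using hw')

theorem agree_zero (f : Node d n → ℤ) (φ : Node d 0 → ℤ) :
    Agree f φ ↔ f (rt d n) = φ (rt d 0) := by
  constructor
  · intro h
    exact h [] _ _
  · intro h w h1 h2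
    have : w = [] := by simpa using h2
    subst this
    exact h

theorem agree_succ (f : Node d (n + 1) → ℤ) (φ : Node d (r + 1) → ℤ) :
    Agree f φ ↔ f (rt d (n + 1)) = φ (rt d (r + 1)) ∧ ∀ i, Agree (sb f i) (sb φ i) := by
  constructor
  · intro h
    refine ⟨h [] _ _, fun i w h1 h2 => h (i :: w) (by simpa using h1) (by simpa using h2)⟩
  · rintro ⟨h0, h⟩ w h1 h2
    cases w with
    | nil => exact h0
    | cons i w => exact h i w (by simpa using h1) (by simpa using h2)

theorem agree_root {f : Node d n → ℤ} {φ : Node d r → ℤ} (h : Agree f φ) :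
    f (rt d n) = φ (rt d r) := h [] _ _

end Decomp

/-- The recursive weight of a function on the depth `r` tree. -/
def W {R : Type*} [CommSemiring R] {d : ℕ} (q : ℤ → R) : (r : ℕ) → (Node d r → ℤ) → R
  | 0, φ => q (φ (rt d 0))
  | r + 1, φ => ∏ i : Fin d,
      (if |sb φ i (rt d r) - φ (rt d (r + 1))| ≤ 1 then W q r (sb φ i) else 0)

/-- One step of the recursion. -/
def T {R : Type*} [CommSemiring R] (d : ℕ) (q : ℤ → R) : ℤ → R :=
  fun k => (q (k - 1) + q k + q (k + 1)) ^ d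

section maps
variable {R R' : Type*} [CommSemiring R] [CommSemiring R']

theorem W_map (f : R →+* R') {d : ℕ} (q : ℤ → R) (r : ℕ) (φ : Node d r → ℤ) :
    W (fun k => f (q k)) r φ = f (W q r φ) := by
  induction r with
  | zero => rfl
  | succ r ih =>
    simp only [W, map_prod, apply_ite f, map_zero, ih]

theorem T_map (f : R →+* R') (d : ℕ) (q : ℤ → R) :
    T d (fun k => f (q k)) = fun k => f (T d q k) := by
  funext k
  simp [T, map_pow, map_add]

theorem Titer_map (f : R →+* R') (d : ℕ) (q : ℤ → R) (n : ℕ) :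
    (T d)^[n] (fun k => f (q k)) = fun k => f ((T d)^[n] q k) := by
  induction n generalizing q with
  | zero => rfl
  | succ n ih =>
    rw [Function.iterate_succ_apply, T_map, ih, Function.iterate_succ_apply]

theorem xs_eq (d : ℕ) (S : Finset ℤ) (n : ℕ) :
    (fun k => xs d S n k) = (T d)^[n] (fun k => if k ∈ S then 1 else 0) := by
  induction n with
  | zero => rfl
  | succ n ih =>
    rw [Function.iterate_succ_apply', ← ih]
    rfl

theorem xs_cast (R : Type*) [CommSemiring R] (d : ℕ) (S : Finset ℤ) (n : ℕ) :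
    (fun k => (xs d S n k : R)) = (T d)^[n] (fun k => if k ∈ S then 1 else 0) := by
  have h := Titer_map (Nat.castRingHom R) d (fun k => if k ∈ S then 1 else 0) n
  have h1 : (fun k => (Nat.castRingHom R) ((T d)^[n] (fun k => if k ∈ S then 1 else 0) k))
      = fun k => (xs d S n k : R) := by
    funext k
    rw [← xs_eq]
    rfl
  rw [← h1, ← h]
  congr 1
  funext k
  simp

theorem W_indicator {d : ℕ} (S : Finset ℤ) (n : ℕ) (f : Node d n → ℤ)
    [Decidable (f ∈ lipSet d n S)] :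
    W (fun k => if k ∈ S then (1 : R) else 0) n f = if f ∈ lipSet d n S then 1 else 0 := by
  classical
  induction n with
  | zero => simp only [W, mem_lipSet_zero]
  | succ n ih =>
    simp only [W, mem_lipSet_succ]
    by_cases h : ∀ i, |sb f i (rt d n) - f (rt d (n + 1))| ≤ 1 ∧ sb f i ∈ lipSet d n S
    · rw [if_pos h]
      refine Finset.prod_eq_one fun i _ => ?_
      rw [if_pos (h i).1, ih, if_pos (h i).2]
    · rw [if_neg h]
      push Not at h
      obtain ⟨i, hi⟩ := h
      refine Finset.prod_eq_zero (Finset.mem_univ i) ?_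
      by_cases h1 : |sb f i (rt d n) - f (rt d (n + 1))| ≤ 1
      · rw [if_pos h1, ih, if_neg (hi h1)]
      · rw [if_neg h1]

theorem W_smul {d : ℕ} (a : R) (q : ℤ → R) (r : ℕ) (φ : Node d r → ℤ) :
    W (fun k => a * q k) r φ = a ^ (d ^ r) * W q r φ := by
  induction r with
  | zero => simp [W]
  | succ r ih =>
    simp only [W]
    have : ∀ i : Fin d, (if |sb φ i (rt d r) - φ (rt d (r + 1))| ≤ 1 then
        W (fun k => a * q k) r (sb φ i) else 0) = a ^ (d ^ r) *
        (if |sb φ i (rt d r) - φ (rt d (r + 1))| ≤ 1 then W q r (sb φ i) else 0) := by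
      intro i
      split_ifs
      · exact ih _
      · simp
    simp only [this, Finset.prod_mul_distrib, Finset.prod_const, Finset.card_univ,
      Fintype.card_fin]
    rw [← pow_mul, ← pow_succ]

theorem T_smul (d : ℕ) (a : R) (q : ℤ → R) :
    T d (fun k => a * q k) = fun k => a ^ d * T d q k := by
  funext k
  simp only [T, ← mul_add, mul_pow]

theorem Titer_smul (d : ℕ) (a : R) (q : ℤ → R) (r : ℕ) :
    (T d)^[r] (fun k => a * q k) = fun k => a ^ (d ^ r) * (T d)^[r] q k := by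
  induction r generalizing a q with
  | zero => simp
  | succ r ih =>
    rw [Function.iterate_succ_apply, T_smul, ih, Function.iterate_succ_apply]
    funext k
    rw [← pow_mul, pow_succ' d r]

end maps

section counting

theorem ennreal_prod_tsum {α : Type*} (d : ℕ) (F : Fin d → α → ℝ≥0∞) :
    ∑' g : Fin d → α, ∏ i, F i (g i) = ∏ i, ∑' a, F i a := by
  induction d with
  | zero =>
    simp
  | succ d ih =>
    rw [← (Fin.consEquiv (fun _ : Fin (d + 1) => α)).tsum_eq, ENNReal.tsum_prod']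
    simp only [Fin.consEquiv_apply, Fin.prod_univ_succ, Fin.cons_zero, Fin.cons_succ]
    simp only [ENNReal.tsum_mul_left, ih, ENNReal.tsum_mul_right]

open Classical in
/-- The main counting identity. -/
theorem tsum_agree (d n r : ℕ) (q : ℤ → ℝ≥0∞) (φ : Node d r → ℤ) :
    ∑' f : Node d (n + r) → ℤ, (if Agree f φ then W q (n + r) f else 0)
      = W ((T d)^[n] q) r φ := by
  induction r with
  | zero =>
    simp only [agree_zero, W, Nat.add_zero]
    generalize φ (rt d 0) = k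
    clear φ
    induction n generalizing k with
    | zero =>
      simp only [Function.iterate_zero, id]
      rw [tsum_eq_single (fun _ => k)]
      · simp [W]
      · intro f hf
        rw [if_neg]
        intro h
        apply hf
        funext w
        rw [← h]
        congr 1
        apply Subtype.ext
        have := w.2
        show w.1 = []
        simpa using this
    | succ n ih =>
      rw [← (dec d n).symm.tsum_eq, ENNReal.tsum_prod', tsum_eq_single k]
      · simp only [dec, Equiv.coe_fn_symm_mk, gl_rt, if_true, W, sb_gl]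
        rw [ennreal_prod_tsum d (fun _ g => if |g (rt d n) - k| ≤ 1 then W q n g else 0)]
        rw [Finset.prod_const, Finset.card_univ, Fintype.card_fin, Function.iterate_succ_apply']
        have hT : ∀ y : ℤ → ℝ≥0∞, T d y k = (y (k - 1) + y k + y (k + 1)) ^ d := fun _ => rfl
        rw [hT]
        congr 1
        rw [← ih, ← ih, ← ih, ← ENNReal.tsum_add, ← ENNReal.tsum_add]
        congr 1
        funext g
        by_cases h0 : g (rt d n) = k
        · rw [if_pos (by rw [h0]; simp), if_neg (by rw [h0]; omega), if_pos h0,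
            if_neg (by rw [h0]; omega)]
          simp
        · by_cases h1 : g (rt d n) = k - 1
          · rw [if_pos (by rw [h1]; norm_num), if_pos h1, if_neg h0, if_neg (by rw [h1]; omega)]
            simp
          · by_cases h2 : g (rt d n) = k + 1
            · rw [if_pos (by rw [h2]; norm_num), if_neg h1, if_neg h0, if_pos h2]
              simp
            · rw [if_neg, if_neg h1, if_neg h0, if_neg h2]
              · simp
              · rw [abs_le]; omega
      · intro k' hk'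
        simp only [dec, Equiv.coe_fn_symm_mk, gl_rt, if_neg hk', tsum_zero]
  | succ r ih =>
    rw [show n + (r + 1) = n + r + 1 from rfl]
    rw [← (dec d (n + r)).symm.tsum_eq, ENNReal.tsum_prod', tsum_eq_single (φ (rt d (r + 1)))]
    · simp only [dec, Equiv.coe_fn_symm_mk]
      have e : ∀ g : Fin d → Node d (n + r) → ℤ,
          (if Agree (gl (φ (rt d (r + 1))) g) φ then
            W q (n + r + 1) (gl (φ (rt d (r + 1))) g) else 0)
          = ∏ i, (if Agree (g i) (sb φ i) then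
            (if |g i (rt d (n + r)) - φ (rt d (r + 1))| ≤ 1 then W q (n + r) (g i) else 0)
            else 0) := by
        intro g
        simp only [agree_succ, gl_rt, sb_gl, true_and, W]
        by_cases h : ∀ i, Agree (g i) (sb φ i)
        · rw [if_pos h]
          refine Finset.prod_congr rfl fun i _ => ?_
          rw [if_pos (h i)]
        · rw [if_neg h]
          push Not at h
          obtain ⟨i, hi⟩ := h
          symm
          exact Finset.prod_eq_zero (Finset.mem_univ i) (by rw [if_neg hi])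
      simp only [e]
      rw [ennreal_prod_tsum d (fun i gi => if Agree gi (sb φ i) then
            (if |gi (rt d (n + r)) - φ (rt d (r + 1))| ≤ 1 then W q (n + r) gi else 0)
            else 0)]
      simp only [W]
      refine Finset.prod_congr rfl fun i _ => ?_
      rw [← ih (sb φ i)]
      by_cases h : |sb φ i (rt d r) - φ (rt d (r + 1))| ≤ 1
      · rw [if_pos h]
        congr 1
        funext gi
        by_cases h' : Agree gi (sb φ i)
        · rw [if_pos h', if_pos h', agree_root h', if_pos h]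
        · rw [if_neg h', if_neg h']
      · rw [if_neg h]
        rw [ENNReal.tsum_eq_zero]
        intro gi
        by_cases h' : Agree gi (sb φ i)
        · rw [if_pos h', agree_root h', if_neg h]
        · rw [if_neg h']
    · intro k' hk'
      rw [ENNReal.tsum_eq_zero]
      intro g
      simp only [dec, Equiv.coe_fn_symm_mk]
      rw [if_neg]
      intro h
      exact hk' (agree_root h)

open Classical in
theorem tsum_root (d n : ℕ) (q : ℤ → ℝ≥0∞) (k : ℤ) :
    ∑' f : Node d n → ℤ, (if f (rt d n) = k then W q n f else 0) = (T d)^[n] q k := by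
  have := tsum_agree d n 0 q (fun _ => k)
  simpa only [agree_zero, W, Nat.add_zero] using this

theorem tsum_W (d n : ℕ) (q : ℤ → ℝ≥0∞) :
    ∑' f : Node d n → ℤ, W q n f = ∑' k, (T d)^[n] q k := by
  classical
  simp only [← tsum_root]
  rw [ENNReal.tsum_comm]
  congr 1
  funext f
  rw [tsum_eq_single (f (rt d n))]
  · simp
  · intro k hk
    rw [if_neg (Ne.symm hk)]

end counting

section finiteness

instance finite_node (d n : ℕ) : Finite (Node d n) :=
  Set.Finite.to_subtype (List.finite_length_le (Fin d) n)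

theorem lipSet_bdd (d : ℕ) (hd : 1 ≤ d) (n : ℕ) (S : Finset ℤ) (a b : ℤ)
    (hab : ∀ s ∈ S, a ≤ s ∧ s ≤ b) (f : Node d n → ℤ) (hf : f ∈ lipSet d n S) (w : Node d n) :
    a - n ≤ f w ∧ f w ≤ b + n := by
  induction n with
  | zero =>
    rw [mem_lipSet_zero] at hf
    have hw : w = rt d 0 := by
      apply Subtype.ext
      show w.1 = []
      simpa using w.2
    rw [hw]
    simpa using hab _ hf
  | succ n ih =>
    rw [mem_lipSet_succ] at hf
    obtain ⟨w, hw⟩ := w
    cases w with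
    | nil =>
      have h1 := hf ⟨0, hd⟩
      have h2 := ih _ h1.2 (rt d n)
      have h3 := abs_le.1 h1.1
      show a - ((n + 1 : ℕ) : ℤ) ≤ f (rt d (n + 1)) ∧ f (rt d (n + 1)) ≤ b + ((n + 1 : ℕ) : ℤ)
      push_cast
      omega
    | cons i w =>
      have h2 := ih _ (hf i).2 ⟨w, by simpa using hw⟩
      have h3 : sb f i ⟨w, by simpa using hw⟩ = f ⟨i :: w, hw⟩ := rfl
      rw [h3] at h2
      push_cast
      omega

theorem lipSet_finite (d : ℕ) (hd : 1 ≤ d) (n : ℕ) (S : Finset ℤ) : (lipSet d n S).Finite := by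
  obtain ⟨a, b, hab⟩ : ∃ a b : ℤ, ∀ s ∈ S, a ≤ s ∧ s ≤ b := by
    obtain ⟨b, hb⟩ := S.bddAbove
    obtain ⟨a, ha⟩ := S.bddBelow
    exact ⟨a, b, fun s hs => ⟨ha hs, hb hs⟩⟩
  have h : (Set.pi Set.univ (fun _ : Node d n => Set.Icc (a - n) (b + n))).Finite :=
    Set.Finite.pi fun _ => Set.finite_Icc _ _
  refine h.subset fun f hf => ?_
  intro w _
  exact lipSet_bdd d hd n S a b hab f hf w

theorem lipSet_nonempty (d n : ℕ) (S : Finset ℤ) (hS : S.Nonempty) :
    (lipSet d n S).Nonempty := by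
  obtain ⟨s, hs⟩ := hS
  refine ⟨fun _ => s, ?_, fun _ _ => hs⟩
  intro w i h
  simp

theorem tsum_indicator_ncard {α : Type*} (s : Set α) (hs : s.Finite)
    [DecidablePred (· ∈ s)] : ∑' a, (if a ∈ s then (1 : ℝ≥0∞) else 0) = (s.ncard : ℝ≥0∞) := by
  classical
  rw [tsum_eq_sum (s := hs.toFinset) (fun a ha => by
    rw [if_neg]; simpa using ha)]
  rw [Finset.sum_congr rfl (g := fun _ => (1 : ℝ≥0∞)) (fun a ha => by
    rw [if_pos]; simpa using ha)]
  rw [Finset.sum_const, nsmul_eq_mul, mul_one, Set.ncard_eq_toFinset_card s hs]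

theorem ncard_agree (d : ℕ) (hd : 1 ≤ d) (n r : ℕ) (S : Finset ℤ) (φ : Node d r → ℤ) :
    Set.ncard {f ∈ lipSet d (n + r) S | Agree f φ} = W (fun k => xs d S n k) r φ := by
  classical
  have h := tsum_agree d n r (fun k => if k ∈ S then (1 : ℝ≥0∞) else 0) φ
  have hc : W (fun k => (xs d S n k : ℝ≥0∞)) r φ = ((W (fun k => xs d S n k) r φ : ℕ) : ℝ≥0∞) :=
    W_map (Nat.castRingHom ℝ≥0∞) (fun k => xs d S n k) r φ
  rw [← xs_cast, hc] at h
  have hfin : {f ∈ lipSet d (n + r) S | Agree f φ}.Finite :=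
    (lipSet_finite d hd (n + r) S).subset (Set.sep_subset _ _)
  have h2 := tsum_indicator_ncard _ hfin
  have h3 : (fun f => if Agree f φ then
      W (fun k => if k ∈ S then (1 : ℝ≥0∞) else 0) (n + r) f else 0) =
      fun f => if f ∈ {f ∈ lipSet d (n + r) S | Agree f φ} then (1 : ℝ≥0∞) else 0 := by
    funext f
    rw [W_indicator]
    by_cases h1 : Agree f φ
    · by_cases h2 : f ∈ lipSet d (n + r) S
      · rw [if_pos h1, if_pos h2, if_pos ⟨h2, h1⟩]
      · rw [if_pos h1, if_neg h2, if_neg (fun h => h2 h.1)]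
    · rw [if_neg h1, if_neg (fun h => h1 h.2)]
  rw [h3, h2] at h
  exact_mod_cast h

theorem ncard_lipSet (d : ℕ) (hd : 1 ≤ d) (n : ℕ) (S : Finset ℤ) :
    (Set.ncard (lipSet d n S) : ℝ≥0∞) = ∑' k, (xs d S n k : ℝ≥0∞) := by
  classical
  have h := tsum_W d n (fun k => if k ∈ S then (1 : ℝ≥0∞) else 0)
  rw [← xs_cast] at h
  rw [← tsum_indicator_ncard _ (lipSet_finite d hd n S), ← h]
  congr 1
  funext f
  rw [W_indicator]

theorem xs_summable (d : ℕ) (hd : 1 ≤ d) (n : ℕ) (S : Finset ℤ) :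
    Summable (fun k => (xs d S n k : ℝ)) := by
  have h := ncard_lipSet d hd n S
  have h1 : ∑' k, ((xs d S n k : ℝ≥0) : ℝ≥0∞) ≠ ⊤ := by
    have : ∀ k, ((xs d S n k : ℝ≥0) : ℝ≥0∞) = (xs d S n k : ℝ≥0∞) := fun k => by simp
    simp only [this]
    rw [← h]
    exact ENNReal.natCast_ne_top _
  have h2 := ENNReal.tsum_coe_ne_top_iff_summable_coe.1 h1
  simpa using h2

theorem ncard_lipSet_real (d : ℕ) (hd : 1 ≤ d) (n : ℕ) (S : Finset ℤ) :
    (Set.ncard (lipSet d n S) : ℝ) = ∑' k, (xs d S n k : ℝ) := by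
  have h := ncard_lipSet d hd n S
  have h2 := congrArg ENNReal.toReal h
  rw [ENNReal.toReal_natCast] at h2
  rw [h2, ENNReal.tsum_toReal_eq (fun k => ENNReal.natCast_ne_top _)]
  simp

end finiteness

section analytic

theorem T_nonneg (d : ℕ) (q : ℤ → ℝ) (hq : ∀ k, 0 ≤ q k) (k : ℤ) : 0 ≤ T d q k := by
  have := hq (k - 1)
  have := hq k
  have := hq (k + 1)
  unfold T
  positivity

theorem tsum_shift3 (f : ℤ → ℝ) (hf : Summable f) :
    Summable (fun k => f (k - 1) + f k + f (k + 1)) ∧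
      ∑' k, (f (k - 1) + f k + f (k + 1)) = 3 * ∑' k, f k := by
  have s1 : Summable (fun k => f (k - 1)) := (Equiv.subRight (1 : ℤ)).summable_iff.2 hf
  have s2 : Summable (fun k => f (k + 1)) := (Equiv.addRight (1 : ℤ)).summable_iff.2 hf
  have t1 : ∑' k, f (k - 1) = ∑' k, f k := (Equiv.subRight (1 : ℤ)).tsum_eq f
  have t2 : ∑' k, f (k + 1) = ∑' k, f k := (Equiv.addRight (1 : ℤ)).tsum_eq f
  refine ⟨(s1.add hf).add s2, ?_⟩
  rw [(s1.add hf).tsum_add s2, s1.tsum_add hf, t1, t2]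
  ring

theorem T_diff (d : ℕ) (x y : ℤ → ℝ) (M : ℝ) (hx : ∀ k, 0 ≤ x k ∧ x k ≤ M)
    (hy : ∀ k, 0 ≤ y k ∧ y k ≤ M) (k : ℤ) :
    |T d x k - T d y k| ≤ (d * (3 * M) ^ (d - 1)) *
      (|x (k - 1) - y (k - 1)| + |x k - y k| + |x (k + 1) - y (k + 1)|) := by
  unfold T
  have h := abs_pow_sub_pow_le (x (k - 1) + x k + x (k + 1)) (y (k - 1) + y k + y (k + 1)) d
  refine h.trans ?_
  have hM : max |x (k - 1) + x k + x (k + 1)| |y (k - 1) + y k + y (k + 1)| ≤ 3 * M := by
    have h1 := hx (k - 1)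
    have h2 := hx k
    have h3 := hx (k + 1)
    have h4 := hy (k - 1)
    have h5 := hy k
    have h6 := hy (k + 1)
    rw [max_le_iff, abs_of_nonneg (by linarith), abs_of_nonneg (by linarith)]
    constructor <;> linarith
  have hD : |x (k - 1) + x k + x (k + 1) - (y (k - 1) + y k + y (k + 1))| ≤
      |x (k - 1) - y (k - 1)| + |x k - y k| + |x (k + 1) - y (k + 1)| := by
    have e : x (k - 1) + x k + x (k + 1) - (y (k - 1) + y k + y (k + 1)) =
      (x (k - 1) - y (k - 1)) + (x k - y k) + (x (k + 1) - y (k + 1)) := by ring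
    rw [e]
    exact abs_add_three _ _ _
  calc |x (k - 1) + x k + x (k + 1) - (y (k - 1) + y k + y (k + 1))| * d *
        max |x (k - 1) + x k + x (k + 1)| |y (k - 1) + y k + y (k + 1)| ^ (d - 1)
      ≤ (|x (k - 1) - y (k - 1)| + |x k - y k| + |x (k + 1) - y (k + 1)|) * d *
        (3 * M) ^ (d - 1) := by gcongr
    _ = _ := by ring

theorem T_summable (d : ℕ) (hd : 1 ≤ d) (q : ℤ → ℝ) (hq : ∀ k, 0 ≤ q k) (hs : Summable q) :
    Summable (T d q) := by
  have hb : ∀ k, 0 ≤ q k ∧ q k ≤ ∑' k, q k := fun k => ⟨hq k, hs.le_tsum k (fun j _ => hq j)⟩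
  have hM : 0 ≤ ∑' k, q k := tsum_nonneg hq
  have h0 := (tsum_shift3 q hs).1
  refine Summable.of_nonneg_of_le (T_nonneg d q hq) (fun k => ?_)
    (h0.mul_left (d * (3 * ∑' k, q k) ^ (d - 1)))
  have h := T_diff d q (fun _ => 0) (∑' k, q k) hb (fun k => ⟨le_rfl, hM⟩) k
  have h1 : T d (fun _ => (0 : ℝ)) k = 0 := by
    simp only [T, add_zero]
    exact zero_pow (by omega)
  rw [h1] at h
  simp only [sub_zero] at h
  rw [abs_of_nonneg (T_nonneg d q hq k), abs_of_nonneg (hq _), abs_of_nonneg (hq _),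
    abs_of_nonneg (hq _)] at h
  exact h

theorem T_ne_zero (d : ℕ) (q : ℤ → ℝ) (hq : ∀ k, 0 ≤ q k) (h : ∃ k, q k ≠ 0) :
    ∃ k, T d q k ≠ 0 := by
  obtain ⟨k, hk⟩ := h
  refine ⟨k, ?_⟩
  have h1 : 0 < q k := lt_of_le_of_ne (hq k) (Ne.symm hk)
  have := hq (k - 1)
  have := hq (k + 1)
  unfold T
  positivity

theorem T_tendsto (d : ℕ) (hd : 1 ≤ d) (y : ℕ → ℤ → ℝ) (q : ℤ → ℝ)
    (hy : ∀ j k, 0 ≤ y j k) (hys : ∀ j, Summable (y j)) (hq : ∀ k, 0 ≤ q k) (hs : Summable q)
    (h : Tendsto (fun j => ∑' k, |y j k - q k|) atTop (𝓝 0)) :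
    Tendsto (fun j => ∑' k, |T d (y j) k - T d q k|) atTop (𝓝 0) := by
  set M := (∑' k, q k) + 1 with hM
  have hM0 : 0 ≤ M := by
    have : 0 ≤ ∑' k, q k := tsum_nonneg hq
    rw [hM]; linarith
  have hdiff : ∀ j, Summable (fun k => |y j k - q k|) := fun j => ((hys j).sub hs).abs
  have hev : ∀ᶠ j in atTop, ∑' k, |y j k - q k| < 1 :=
    (tendsto_order.1 h).2 1 one_pos
  have hlim : Tendsto (fun j => (d * (3 * M) ^ (d - 1)) * (3 * ∑' k, |y j k - q k|)) atTop
      (𝓝 0) := by
    have := (h.const_mul (3 : ℝ)).const_mul ((d : ℝ) * (3 * M) ^ (d - 1))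
    simpa using this
  refine squeeze_zero' (Eventually.of_forall fun j => tsum_nonneg fun k => abs_nonneg _) ?_ hlim
  filter_upwards [hev] with j hj
  have hqb : ∀ k, 0 ≤ q k ∧ q k ≤ M := fun k =>
    ⟨hq k, (hs.le_tsum k (fun j _ => hq j)).trans (by rw [hM]; linarith)⟩
  have hyb : ∀ k, 0 ≤ y j k ∧ y j k ≤ M := fun k => by
    refine ⟨hy j k, ?_⟩
    have h1 : |y j k - q k| ≤ ∑' k, |y j k - q k| :=
      (hdiff j).le_tsum k (fun _ _ => abs_nonneg _)
    have h2 := hs.le_tsum k (fun j _ => hq j)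
    have h3 := le_abs_self (y j k - q k)
    rw [hM]
    linarith
  obtain ⟨hs3, ht3⟩ := tsum_shift3 (fun k => |y j k - q k|) (hdiff j)
  rw [← ht3, ← tsum_mul_left]
  refine Summable.tsum_le_tsum (fun k => T_diff d (y j) q M hyb hqb k) ?_ (hs3.mul_left _)
  exact ((T_summable d hd (y j) (hy j) (hys j)).sub (T_summable d hd q hq hs)).abs

theorem Titer_props (d : ℕ) (hd : 1 ≤ d) (r : ℕ) (q : ℤ → ℝ)
    (hq : ∀ k, 0 ≤ q k) (hs : Summable q) (hne : ∃ k, q k ≠ 0) :
    (∀ k, 0 ≤ (T d)^[r] q k) ∧ Summable ((T d)^[r] q) ∧ ∃ k, (T d)^[r] q k ≠ 0 := by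
  induction r with
  | zero => exact ⟨hq, hs, hne⟩
  | succ r ih =>
    rw [Function.iterate_succ_apply']
    exact ⟨T_nonneg d _ ih.1, T_summable d hd _ ih.1 ih.2.1, T_ne_zero d _ ih.1 ih.2.2⟩

theorem Titer_tendsto (d : ℕ) (hd : 1 ≤ d) (r : ℕ) (y : ℕ → ℤ → ℝ) (q : ℤ → ℝ)
    (hy : ∀ j k, 0 ≤ y j k) (hys : ∀ j, Summable (y j)) (hq : ∀ k, 0 ≤ q k) (hs : Summable q)
    (h : Tendsto (fun j => ∑' k, |y j k - q k|) atTop (𝓝 0)) :
    Tendsto (fun j => ∑' k, |(T d)^[r] (y j) k - (T d)^[r] q k|) atTop (𝓝 0) := by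
  induction r generalizing y q with
  | zero => exact h
  | succ r ih =>
    simp only [Function.iterate_succ_apply]
    exact ih (fun j => T d (y j)) (T d q) (fun j => T_nonneg d _ (hy j))
      (fun j => T_summable d hd _ (hy j) (hys j)) (T_nonneg d q hq) (T_summable d hd q hq hs)
      (T_tendsto d hd y q hy hys hq hs h)

theorem Titer_nonneg_summable (d : ℕ) (hd : 1 ≤ d) (r : ℕ) (q : ℤ → ℝ)
    (hq : ∀ k, 0 ≤ q k) (hs : Summable q) :
    (∀ k, 0 ≤ (T d)^[r] q k) ∧ Summable ((T d)^[r] q) := by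
  induction r with
  | zero => exact ⟨hq, hs⟩
  | succ r ih =>
    rw [Function.iterate_succ_apply']
    exact ⟨T_nonneg d _ ih.1, T_summable d hd _ ih.1 ih.2⟩

theorem tsum_tendsto_of_l1 (y : ℕ → ℤ → ℝ) (q : ℤ → ℝ) (hys : ∀ j, Summable (y j))
    (hs : Summable q) (h : Tendsto (fun j => ∑' k, |y j k - q k|) atTop (𝓝 0)) :
    Tendsto (fun j => ∑' k, y j k) atTop (𝓝 (∑' k, q k)) := by
  rw [tendsto_iff_dist_tendsto_zero]
  refine squeeze_zero (fun _ => dist_nonneg) (fun j => ?_) h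
  rw [Real.dist_eq, ← (hys j).tsum_sub hs]
  have := norm_tsum_le_tsum_norm (f := fun k => y j k - q k) ((hys j).sub hs).norm
  simpa [Real.norm_eq_abs] using this

theorem pointwise_of_l1 (y : ℕ → ℤ → ℝ) (q : ℤ → ℝ) (hys : ∀ j, Summable (y j))
    (hs : Summable q) (h : Tendsto (fun j => ∑' k, |y j k - q k|) atTop (𝓝 0)) (k : ℤ) :
    Tendsto (fun j => y j k) atTop (𝓝 (q k)) := by
  rw [tendsto_iff_dist_tendsto_zero]
  refine squeeze_zero (fun _ => dist_nonneg) (fun j => ?_) h
  rw [Real.dist_eq]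
  exact (((hys j).sub hs).abs).le_tsum k (fun _ _ => abs_nonneg _)

theorem W_tendsto {d : ℕ} (y : ℕ → ℤ → ℝ) (q : ℤ → ℝ)
    (h : ∀ k, Tendsto (fun j => y j k) atTop (𝓝 (q k))) (r : ℕ) (φ : Node d r → ℤ) :
    Tendsto (fun j => W (y j) r φ) atTop (𝓝 (W q r φ)) := by
  induction r with
  | zero => exact h _
  | succ r ih =>
    simp only [W]
    refine tendsto_finsetProd _ fun i _ => ?_
    split_ifs
    · exact ih _
    · exact tendsto_const_nhds

end analytic

theorem W_ofReal {d : ℕ} (q : ℤ → ℝ) (hq : ∀ k, 0 ≤ q k) (r : ℕ) (φ : Node d r → ℤ) :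
    W (fun k => ENNReal.ofReal (q k)) r φ = ENNReal.ofReal (W q r φ) ∧ 0 ≤ W q r φ := by
  lift q to ℤ → ℝ≥0 using hq
  have h1 := W_map ENNReal.ofNNRealHom q r φ
  have h2 := W_map NNReal.toRealHom q r φ
  have e1 : (fun k => ENNReal.ofReal ((q k : ℝ≥0) : ℝ)) = fun k => ENNReal.ofNNRealHom (q k) := by
    funext k
    simp
  have e2 : (fun k => ((q k : ℝ≥0) : ℝ)) = fun k => NNReal.toRealHom (q k) := rfl
  rw [e1, e2, h1, h2]
  simp

theorem T_ofReal (d : ℕ) (q : ℤ → ℝ) (hq : ∀ k, 0 ≤ q k) (r : ℕ) :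
    (T d)^[r] (fun k => ENNReal.ofReal (q k)) = fun k => ENNReal.ofReal ((T d)^[r] q k) := by
  lift q to ℤ → ℝ≥0 using hq
  have h1 := Titer_map ENNReal.ofNNRealHom d q r
  have h2 := Titer_map NNReal.toRealHom d q r
  have e1 : (fun k => ENNReal.ofReal ((q k : ℝ≥0) : ℝ)) = fun k => ENNReal.ofNNRealHom (q k) := by
    funext k
    simp
  have e2 : (fun k => ((q k : ℝ≥0) : ℝ)) = fun k => NNReal.toRealHom (q k) := rfl
  rw [e1, e2, h1, h2]
  funext k
  simp

/-- Module Tree. -/
theorem tree_converges (d : ℕ) (hd : 1 ≤ d) (S : Finset ℤ) (hS : S.Nonempty) (u : ℕ → ℕ)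
    (hu : Tendsto u atTop atTop)
    (h : ∀ r : ℕ, ∃ (a : ℕ → ℝ) (q : ℤ → ℝ), (∀ j, 0 < a j) ∧ (∀ k, 0 ≤ q k) ∧ Summable q ∧
      (∃ k, q k ≠ 0) ∧
      Tendsto (fun j => ∑' k, |a j * (xs d S (u j - r) k : ℝ) - q k|) atTop (𝓝 0)) :
    ConvergesAlong d S u := by
  intro r
  obtain ⟨a, q, ha, hq, hqs, hqne, hlim⟩ := h r
  have hT := Titer_props d hd r q hq hqs hqne
  set Z := ∑' k, (T d)^[r] q k with hZ
  have hZpos : 0 < Z := by
    obtain ⟨k, hk⟩ := hT.2.2
    exact hT.2.1.tsum_pos hT.1 k (lt_of_le_of_ne (hT.1 k) (Ne.symm hk))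
  have hsum : ∑' φ : Node d r → ℤ, ENNReal.ofReal (W q r φ / Z) = 1 := by
    have e : ∀ φ : Node d r → ℤ, ENNReal.ofReal (W q r φ / Z)
        = W (fun k => ENNReal.ofReal (q k)) r φ / ENNReal.ofReal Z := by
      intro φ
      rw [ENNReal.ofReal_div_of_pos hZpos, (W_ofReal q hq r φ).1]
    rw [tsum_congr e]
    simp only [div_eq_mul_inv]
    rw [ENNReal.tsum_mul_right, tsum_W, T_ofReal d q hq r,
      ← ENNReal.ofReal_tsum_of_nonneg hT.1 hT.2.1, ← hZ]
    exact ENNReal.mul_inv_cancel (by simpa using hZpos) ENNReal.ofReal_ne_top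
  refine ⟨⟨fun φ => ENNReal.ofReal (W q r φ / Z), ?_⟩, fun φ => ?_⟩
  · rw [← hsum]
    exact ENNReal.summable.hasSum
  · show Tendsto _ atTop (𝓝 (ENNReal.ofReal (W q r φ / Z)).toReal)
    rw [ENNReal.toReal_ofReal (div_nonneg (W_ofReal q hq r φ).2 hZpos.le)]
    set y : ℕ → ℤ → ℝ := fun j k => a j * (xs d S (u j - r) k : ℝ) with hy
    have hy0 : ∀ j k, 0 ≤ y j k := fun j k => by
      have := (ha j).le
      simp only [hy]
      positivity
    have hys : ∀ j, Summable (y j) := fun j => (xs_summable d hd _ S).mul_left _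
    have h1 : Tendsto (fun j => W (y j) r φ) atTop (𝓝 (W q r φ)) :=
      W_tendsto y q (pointwise_of_l1 y q hys hqs hlim) r φ
    have h2 : Tendsto (fun j => ∑' k, (T d)^[r] (y j) k) atTop (𝓝 Z) :=
      tsum_tendsto_of_l1 _ _ (fun j => (Titer_nonneg_summable d hd r (y j) (hy0 j) (hys j)).2)
        hT.2.1 (Titer_tendsto d hd r y q hy0 hys hq hqs hlim)
    refine (h1.div h2 hZpos.ne').congr' ?_
    filter_upwards [hu.eventually_ge_atTop r] with j hj
    obtain ⟨n, hn⟩ : ∃ n, u j = n + r := ⟨u j - r, by omega⟩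
    have hn' : u j - r = n := by omega
    show W (y j) r φ / ∑' k, (T d)^[r] (y j) k = law d (u j) r S φ
    unfold law
    rw [hn, ncard_agree d hd n r S φ, ncard_lipSet_real d hd]
    simp only [hy, hn', W_smul, Titer_smul, tsum_mul_left]
    have e1 : W (fun k => (xs d S n k : ℝ)) r φ = ((W (fun k => xs d S n k) r φ : ℕ) : ℝ) :=
      W_map (Nat.castRingHom ℝ) (fun k => xs d S n k) r φ
    have e2 : (T d)^[r] (fun k => (xs d S n k : ℝ)) = fun k => (xs d S (n + r) k : ℝ) := by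
      rw [xs_cast, xs_cast, ← Function.iterate_add_apply, Nat.add_comm]
    rw [e1, e2]
    exact mul_div_mul_left _ _ (pow_pos (ha j) _).ne'

end Pool.Agent.H.MP_e9f8c5_pr
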