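import Pool.Agent.H.MP_e9f8c5_pr.Defs

set_option autoImplicit false

open scoped Topology
open Filter Set

namespace Pool.Agent.H.MP_e9f8c5_pr

/-- A positive element of `ℓ²(ℤ)` attains its maximum. -/
theorem exists_max_of_pos (f : X) (hf : ∀ k, 0 < f k) : ∃ k0, ∀ k, f k ≤ f k0 := by
  have h1 : Tendsto (fun k => f k ^ 2) cofinite (𝓝 0) := (sq_summable f).tendsto_cofinite_zero
  have h2 : ∀ᶠ k in cofinite, f k ^ 2 < f 0 ^ 2 :=
    h1.eventually (gt_mem_nhds (by have := hf 0; positivity))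
  have h3 : {k | ¬ f k ^ 2 < f 0 ^ 2}.Finite := h2
  obtain ⟨k0, hk0, hmax⟩ := h3.exists_maximalFor (fun k => f k) _ ⟨0, by simp⟩
  refine ⟨k0, fun k => ?_⟩
  by_cases hk : f k ^ 2 < f 0 ^ 2
  · have h4 : f k < f 0 := lt_of_pow_lt_pow_left₀ 2 (hf 0).le hk
    have h5 : f 0 ≤ f k0 := by
      by_contra hcon
      push Not at hcon
      exact hk0 (pow_lt_pow_left₀ hcon (hf k0).le (by norm_num))
    linarith
  · by_contra hcon
    push Not at hcon
    have := hmax (j := k) hk hcon.le
    simp only at this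
    linarith

/-- `⟨g, A g⟩ ≥ -‖g‖²` -/
theorem inner_A_ge (g : X) : 0 ≤ inner ℝ g (A g) + inner ℝ g g := by
  have s1 : Summable (fun k => g k ^ 2) := sq_summable g
  have s2 : Summable (fun k => g (k + 1) ^ 2) := summable_shift s1 1
  have s3 : Summable (fun k => g k * g (k + 1)) := by
    have := summable_mul g (mkX (fun k => g (k + 1)) s2)
    simpa using this
  have s4 : Summable (fun k => g k * g (k + -1)) := by
    have := summable_mul g (mkX (fun k => g (k + -1)) (summable_shift s1 (-1)))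
    simpa using this
  have e1 : inner ℝ g (A g) = ∑' k, g k * g (k + -1) + ∑' k, g k ^ 2 + ∑' k, g k * g (k + 1) := by
    rw [inner_eq, ← s4.tsum_add s1, ← (s4.add s1).tsum_add s3]
    congr 1; ext k; rw [A_apply, sub_eq_add_neg]; ring
  have e2 : inner ℝ g g = ∑' k, g k ^ 2 := by
    rw [inner_eq]; congr 1; ext k; ring
  have e3 : ∑' k, g k * g (k + -1) = ∑' k, g k * g (k + 1) := by
    rw [← tsum_shift (fun k => g k * g (k + -1)) 1]
    congr 1; ext k; rw [show k + 1 + -1 = k by ring]; ring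
  have e4 : ∑' k, (g k + g (k + 1)) ^ 2 = ∑' k, g k ^ 2 + 2 * ∑' k, g k * g (k + 1) + ∑' k, g k ^ 2 := by
    have : ∑' k, g (k + 1) ^ 2 = ∑' k, g k ^ 2 := tsum_shift (fun k => g k ^ 2) 1
    calc ∑' k, (g k + g (k + 1)) ^ 2 = ∑' k, (g k ^ 2 + 2 * (g k * g (k + 1)) + g (k + 1) ^ 2) := by
          congr 1; ext k; ring
      _ = ∑' k, g k ^ 2 + ∑' k, 2 * (g k * g (k + 1)) + ∑' k, g (k + 1) ^ 2 := by
          rw [(s1.add (s3.mul_left 2)).tsum_add s2, s1.tsum_add (s3.mul_left 2)]
      _ = _ := by rw [this, tsum_mul_left]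
  have e5 : 0 ≤ ∑' k, (g k + g (k + 1)) ^ 2 := tsum_nonneg fun k => sq_nonneg _
  rw [e1, e2, e3]
  rw [e4] at e5
  linarith

theorem no_two_cycle (p q : X) (lam : ℝ) (hlam : 0 < lam) (hp : ∀ k, 0 < p k)
    (hq : ∀ k, 0 < q k) (h1 : A (pw 1 p) = lam • q) (h2 : A (pw 1 q) = lam • p) : p = q := by
  set u : X := lam⁻¹ • p with hu
  set v : X := lam⁻¹ • q with hv
  have hup : ∀ k, 0 < u k := fun k => by
    rw [hu, lp.coeFn_smul, Pi.smul_apply, smul_eq_mul]
    exact mul_pos (inv_pos.2 hlam) (hp k)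
  have hvp : ∀ k, 0 < v k := fun k => by
    rw [hv, lp.coeFn_smul, Pi.smul_apply, smul_eq_mul]
    exact mul_pos (inv_pos.2 hlam) (hq k)
  have pu : ∀ k, p k = lam * u k := fun k => by
    rw [hu, lp.coeFn_smul, Pi.smul_apply, smul_eq_mul]; field_simp
  have pv : ∀ k, q k = lam * v k := fun k => by
    rw [hv, lp.coeFn_smul, Pi.smul_apply, smul_eq_mul]; field_simp
  have ev : ∀ k, v k = u (k - 1) ^ 2 + u k ^ 2 + u (k + 1) ^ 2 := fun k => by
    have h := congrArg (fun f : X => f k) h1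
    simp only [A_apply, pw_apply, lp.coeFn_smul, Pi.smul_apply, smul_eq_mul, pu, pv] at h
    have hl : lam ^ 2 ≠ 0 := by positivity
    apply mul_left_cancel₀ hl
    linear_combination -h
  have eu : ∀ k, u k = v (k - 1) ^ 2 + v k ^ 2 + v (k + 1) ^ 2 := fun k => by
    have h := congrArg (fun f : X => f k) h2
    simp only [A_apply, pw_apply, lp.coeFn_smul, Pi.smul_apply, smul_eq_mul, pu, pv] at h
    have hl : lam ^ 2 ≠ 0 := by positivity
    apply mul_left_cancel₀ hl
    linear_combination -h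
  -- the maximum of u + v
  obtain ⟨k0, hk0⟩ := exists_max_of_pos (u + v) (fun k => by
    rw [lp.coeFn_add, Pi.add_apply]; exact add_pos (hup k) (hvp k))
  have hk0' : ∀ k, u k + v k ≤ u k0 + v k0 := fun k => by
    have := hk0 k
    rwa [lp.coeFn_add, Pi.add_apply, Pi.add_apply] at this
  have hb1 : u k0 + v k0 < 1 := by
    have e1 := ev (k0 + 1)
    have e2 := eu (k0 + 1)
    rw [show k0 + 1 - 1 = k0 by ring] at e1 e2
    have a1 := hup (k0 + 1 + 1)
    have a2 := hvp (k0 + 1 + 1)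
    have a3 := hup k0
    have a4 := hvp k0
    by_contra hcon
    push Not at hcon
    nlinarith [sq_nonneg (u k0 - v k0), sq_nonneg (u (k0 + 1) - v (k0 + 1)),
      sq_nonneg (u (k0 + 1) + v (k0 + 1) - 1), mul_pos a1 a1, mul_pos a2 a2]
  have hb : ∀ k, u k + v k < 1 := fun k => lt_of_le_of_lt (hk0' k) hb1
  set w : X := u - v with hw
  set g : X := mul (u + v) w with hg
  have gk : ∀ k, g k = (u k + v k) * (u k - v k) := fun k => by
    rw [hg, mul_apply, hw, lp.coeFn_add, lp.coeFn_sub, Pi.add_apply, Pi.sub_apply]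
  have wk : ∀ k, w k = u k - v k := fun k => by rw [hw, lp.coeFn_sub, Pi.sub_apply]
  have hwA : w = -A g := extX fun k => by
    rw [lp.coeFn_neg, Pi.neg_apply, A_apply, wk, gk, gk, gk]
    linear_combination eu k - ev k
  have h3 := inner_A_ge g
  have h4 : inner ℝ g w = -inner ℝ g (A g) := by
    conv_lhs => rw [hwA]
    rw [inner_neg_right]
  have h5 : inner ℝ g w - inner ℝ g g ≤ 0 := by linarith
  have s1 := summable_mul g w
  have s2 := summable_mul g g
  have h6 : ∑' k, (u k + v k) * (1 - (u k + v k)) * (u k - v k) ^ 2 ≤ 0 := by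
    rw [inner_eq, inner_eq, ← s1.tsum_sub s2] at h5
    convert h5 using 1
    congr 1; ext k; rw [gk, wk]; ring
  have s3 : Summable (fun k => (u k + v k) * (1 - (u k + v k)) * (u k - v k) ^ 2) := by
    refine (s1.sub s2).congr (fun k => ?_)
    rw [gk, wk]; ring
  have hnn : ∀ k, 0 ≤ (u k + v k) * (1 - (u k + v k)) * (u k - v k) ^ 2 := fun k => by
    have := hb k
    have := hup k
    have := hvp k
    have h7 : 0 ≤ 1 - (u k + v k) := by linarith
    positivity
  apply extX
  intro k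
  have h8 : (u k + v k) * (1 - (u k + v k)) * (u k - v k) ^ 2 ≤ 0 :=
    (s3.le_tsum k (fun j _ => hnn j)).trans h6
  have h9 : 0 < (u k + v k) * (1 - (u k + v k)) := by
    have := hb k
    have := hup k
    have := hvp k
    have h7 : 0 < 1 - (u k + v k) := by linarith
    positivity
  have h10 : (u k - v k) ^ 2 ≤ 0 := by
    by_contra hcon
    push Not at hcon
    have := mul_pos h9 hcon
    linarith
  have h11 : u k - v k = 0 := by
    have := sq_nonneg (u k - v k)
    exact pow_eq_zero_iff (two_ne_zero) |>.1 (le_antisymm h10 this)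
  rw [pu, pv, sub_eq_zero.1 h11]

end Pool.Agent.H.MP_e9f8c5_pr
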