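import Pool.Agent.H.MP_e9f8c5_pr.Core2
import Pool.Agent.H.MP_e9f8c5_pr.Tree
import Pool.Agent.H.MP_e9f8c5_pr.Iter
import Pool.Agent.H.MP_e9f8c5_pr.TwoCycle

set_option autoImplicit false

open scoped Topology
open Filter Set

namespace Pool.Agent.H.MP_e9f8c5_pr

theorem summable_abs_mul (f g : X) : Summable (fun k => |f k * g k|) := (summable_mul f g).abs

theorem tsum_abs_mul_le (f g : X) : ∑' k, |f k * g k| ≤ ‖f‖ * ‖g‖ := by
  have hf : Summable fun k => |f k| ^ 2 := by simpa [sq_abs] using sq_summable f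
  have hg : Summable fun k => |g k| ^ 2 := by simpa [sq_abs] using sq_summable g
  have nf : ‖mkX (fun k => |f k|) hf‖ = ‖f‖ := by
    rw [← abs_of_nonneg (norm_nonneg f), ← abs_of_nonneg (norm_nonneg (mkX _ hf)), ← sq_eq_sq_iff_abs_eq_abs,
      norm_sq_eq, norm_sq_eq]
    simp [sq_abs]
  have ng : ‖mkX (fun k => |g k|) hg‖ = ‖g‖ := by
    rw [← abs_of_nonneg (norm_nonneg g), ← abs_of_nonneg (norm_nonneg (mkX _ hg)), ← sq_eq_sq_iff_abs_eq_abs,
      norm_sq_eq, norm_sq_eq]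
    simp [sq_abs]
  have := real_inner_le_norm (mkX (fun k => |f k|) hf) (mkX (fun k => |g k|) hg)
  rw [nf, ng, inner_eq] at this
  simpa [abs_mul] using this

theorem tendsto_l1 (c : ℕ) (f : ℕ → X) (f0 : X) (h : Tendsto f atTop (𝓝 f0)) :
    Tendsto (fun j => ∑' k, |f j k ^ (c + 2) - f0 k ^ (c + 2)|) atTop (𝓝 0) := by
  have h1 : Tendsto (fun j => ‖f j - f0‖ * ‖pw c (f j)‖ + ‖f0‖ * ‖pw c (f j) - pw c f0‖)
      atTop (𝓝 0) := by
    have e1 : Tendsto (fun j => ‖f j - f0‖) atTop (𝓝 0) := by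
      have := (h.sub_const f0).norm
      simpa using this
    have e2 : Tendsto (fun j => ‖pw c (f j)‖) atTop (𝓝 ‖pw c f0‖) :=
      (((continuous_pw c).tendsto f0).comp h).norm
    have e3 : Tendsto (fun j => ‖pw c (f j) - pw c f0‖) atTop (𝓝 0) := by
      have := ((((continuous_pw c).tendsto f0).comp h).sub_const (pw c f0)).norm
      simpa using this
    have := (e1.mul e2).add (e3.const_mul ‖f0‖)
    simpa using this
  refine squeeze_zero (fun j => tsum_nonneg (fun k => abs_nonneg _)) (fun j => ?_) h1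
  have hs1 := summable_abs_mul (f j - f0) (pw c (f j))
  have hs2 := summable_abs_mul f0 (pw c (f j) - pw c f0)
  have hle : ∀ k, |f j k ^ (c + 2) - f0 k ^ (c + 2)| ≤
      |(f j - f0 : X) k * pw c (f j) k| + |f0 k * (pw c (f j) - pw c f0 : X) k| := by
    intro k
    refine le_trans (le_of_eq ?_) (abs_add_le _ _)
    congr 1
    simp only [lp.coeFn_sub, Pi.sub_apply, pw_apply]
    ring
  calc ∑' k, |f j k ^ (c + 2) - f0 k ^ (c + 2)|
      ≤ ∑' k, (|(f j - f0 : X) k * pw c (f j) k| + |f0 k * (pw c (f j) - pw c f0 : X) k|) :=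
        Summable.tsum_le_tsum hle
          (Summable.of_nonneg_of_le (fun k => abs_nonneg _) hle (hs1.add hs2)) (hs1.add hs2)
    _ = ∑' k, |(f j - f0 : X) k * pw c (f j) k| + ∑' k, |f0 k * (pw c (f j) - pw c f0 : X) k| :=
        hs1.tsum_add hs2
    _ ≤ _ := add_le_add (tsum_abs_mul_le _ _) (tsum_abs_mul_le _ _)

theorem summable_pow (c : ℕ) (f : X) : Summable (fun k => f k ^ (c + 2)) := by
  have := summable_mul f (pw c f)
  refine this.congr (fun k => ?_)
  rw [pw_apply]; ring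

theorem conv_of_tendsto (c : ℕ) (S : Finset ℤ) (hS : S.Nonempty) (p : ℕ → X) (N : ℕ → ℝ)
    (hN : ∀ n, 0 < N n)
    (hx : ∀ n k, (xs (c + 2) S (n + 1) k : ℝ) = (N n * p n k) ^ (c + 2)) (u : ℕ → ℕ)
    (hu : Tendsto u atTop atTop)
    (h : ∀ r, ∃ pl : X, (∀ k, 0 < pl k) ∧ Tendsto (fun j => p (u j - r - 1)) atTop (𝓝 pl)) :
    ConvergesAlong (c + 2) S u := by
  refine tree_converges (c + 2) (by omega) S hS u hu (fun r => ?_)
  obtain ⟨pl, hpl, hlim⟩ := h r
  refine ⟨fun j => ((N (u j - r - 1)) ^ (c + 2))⁻¹, fun k => pl k ^ (c + 2),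
    fun j => by have := hN (u j - r - 1); positivity,
    fun k => by have := hpl k; positivity, summable_pow c pl,
    ⟨0, by have := hpl 0; positivity⟩, ?_⟩
  refine (tendsto_l1 c _ pl hlim).congr' ?_
  filter_upwards [hu.eventually_ge_atTop (r + 1)] with j hj
  congr 1
  ext k
  have e : u j - r = (u j - r - 1) + 1 := by omega
  have h1 : (xs (c + 2) S (u j - r) k : ℝ) = (N (u j - r - 1) * p (u j - r - 1) k) ^ (c + 2) := by
    rw [e, hx]
    simp
  rw [h1, mul_pow]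
  have := hN (u j - r - 1)
  congr 2
  field_simp

theorem tendsto_even_odd {Y : Type*} [PseudoMetricSpace Y] (p : ℕ → Y) (y : Y)
    (h0 : Tendsto (fun m => p (2 * m)) atTop (𝓝 y))
    (h1 : Tendsto (fun m => p (2 * m + 1)) atTop (𝓝 y)) : Tendsto p atTop (𝓝 y) := by
  rw [Metric.tendsto_atTop] at *
  intro ε hε
  obtain ⟨a, ha⟩ := h0 ε hε
  obtain ⟨b, hb⟩ := h1 ε hε
  refine ⟨2 * a + 2 * b + 1, fun n hn => ?_⟩
  rcases Nat.even_or_odd' n with ⟨m, rfl | rfl⟩
  · exact ha m (by omega)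
  · exact hb m (by omega)

/-- Convergence of the even and of the odd subsequence of the normalised iteration. -/
theorem both_converge (c : ℕ) (S : Finset ℤ) (hS : S.Nonempty) :
    ∃ (p : ℕ → X) (N : ℕ → ℝ) (lam : ℝ) (pl ql : X), (∀ n, 0 < N n) ∧
      (∀ n k, (xs (c + 2) S (n + 1) k : ℝ) = (N n * p n k) ^ (c + 2)) ∧ 0 < lam ∧
      (∀ k, 0 < pl k) ∧ (∀ k, 0 < ql k) ∧
      Tendsto (fun m => p (2 * m)) atTop (𝓝 pl) ∧ Tendsto (fun m => p (2 * m + 1)) atTop (𝓝 ql) ∧
      A (pw (c + 1) pl) = lam • ql ∧ F c (lam ^ (c + 3)) pl = 0 := by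
  obtain ⟨p, J, N, b, hN, hx, h1, h2, h3, h4, h5, h6, h7, h8, h9⟩ := iter_exists c S hS
  have h : Iter c p J b := ⟨h1, h2, h3, h4, h5, h6, h7, h8, h9⟩
  obtain ⟨lam, hl, hlim, hJ⟩ := h.exists_lam
  obtain ⟨pl, hpl, hF, hpos⟩ := h.converges hl hlim hJ
  refine ⟨p, N, lam, pl, lam⁻¹ • A (pw (c + 1) pl), hN, hx, hl, hpos, fun k => ?_, hpl, ?_, ?_, hF⟩
  · simp only [lp.coeFn_smul, Pi.smul_apply, smul_eq_mul, A_apply, pw_apply]
    have := hpos (k - 1); have := hpos k; have := hpos (k + 1)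
    positivity
  · have e : ∀ m, p (2 * m + 1) = (J (2 * m))⁻¹ • A (pw (c + 1) (p (2 * m))) := by
      intro m
      rw [h.step, smul_smul, inv_mul_cancel₀ (h.J_pos _).ne', one_smul]
    have hJ2 : Tendsto (fun m => J (2 * m)) atTop (𝓝 lam) :=
      hlim.comp (tendsto_atTop_mono (fun n => by simp only [id]; omega) tendsto_id)
    have hA : Tendsto (fun m => A (pw (c + 1) (p (2 * m)))) atTop (𝓝 (A (pw (c + 1) pl))) :=
      ((A.continuous.comp (continuous_pw (c + 1))).tendsto pl).comp hpl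
    have := (hJ2.inv₀ hl.ne').smul hA
    exact this.congr (fun m => (e m).symm)
  · rw [smul_smul, mul_inv_cancel₀ hl.ne', one_smul]

theorem tendsto_two_mul_sub (s : ℕ) : Tendsto (fun j : ℕ => j - s) atTop atTop :=
  tendsto_sub_atTop_nat s

theorem even_depths (d : ℕ) (hd : 2 ≤ d) (S : Finset ℤ) (hS : S.Nonempty) :
    ConvergesAlong d S (fun n => 2 * n) := by
  obtain ⟨c, rfl⟩ : ∃ c, d = c + 2 := ⟨d - 2, by omega⟩
  obtain ⟨p, N, lam, pl, ql, hN, hx, hl, hpl, hql, h0, h1, -, -⟩ := both_converge c S hS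
  refine conv_of_tendsto c S hS p N hN hx _
    (tendsto_atTop_mono (fun n => by simp only [id]; omega) tendsto_id) (fun r => ?_)
  rcases Nat.even_or_odd' r with ⟨s, rfl | rfl⟩
  · refine ⟨ql, hql, (h1.comp (tendsto_sub_atTop_nat (s + 1))).congr' ?_⟩
    filter_upwards [eventually_ge_atTop (s + 1)] with j hj
    simp only [Function.comp]
    congr 1; omega
  · refine ⟨pl, hpl, (h0.comp (tendsto_sub_atTop_nat (s + 1))).congr' ?_⟩
    filter_upwards [eventually_ge_atTop (s + 1)] with j hj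
    simp only [Function.comp]
    congr 1; omega

theorem odd_depths (d : ℕ) (hd : 2 ≤ d) (S : Finset ℤ) (hS : S.Nonempty) :
    ConvergesAlong d S (fun n => 2 * n + 1) := by
  obtain ⟨c, rfl⟩ : ∃ c, d = c + 2 := ⟨d - 2, by omega⟩
  obtain ⟨p, N, lam, pl, ql, hN, hx, hl, hpl, hql, h0, h1, -, -⟩ := both_converge c S hS
  refine conv_of_tendsto c S hS p N hN hx _
    (tendsto_atTop_mono (fun n => by simp only [id]; omega) tendsto_id) (fun r => ?_)
  rcases Nat.even_or_odd' r with ⟨s, rfl | rfl⟩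
  · refine ⟨pl, hpl, (h0.comp (tendsto_sub_atTop_nat s)).congr' ?_⟩
    filter_upwards [eventually_ge_atTop (s + 1)] with j hj
    simp only [Function.comp]
    congr 1; omega
  · refine ⟨ql, hql, (h1.comp (tendsto_sub_atTop_nat (s + 1))).congr' ?_⟩
    filter_upwards [eventually_ge_atTop (s + 1)] with j hj
    simp only [Function.comp]
    congr 1; omega

theorem binary_all_depths (S : Finset ℤ) (hS : S.Nonempty) :
    ConvergesAlong 2 S (fun n => n) := by
  obtain ⟨p, N, lam, pl, ql, hN, hx, hl, hpl, hql, h0, h1, hA, hF⟩ := both_converge 0 S hS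
  have hA' : A (pw 1 pl) = lam • ql := hA
  have hq : A (pw 1 ql) = lam • pl := by
    unfold F G at hF
    have e : pl = (lam ^ (0 + 3))⁻¹ • A (pw (0 + 1) (A (pw (0 + 1) pl))) := sub_eq_zero.1 hF
    rw [hA, pw_smul, map_smul, smul_smul] at e
    have e2 : lam • pl = lam • (((lam ^ (0 + 3))⁻¹ * lam ^ (0 + 1 + 1)) • A (pw (0 + 1) ql)) := by
      rw [← e]
    rw [e2, smul_smul]
    have : lam * ((lam ^ (0 + 3))⁻¹ * lam ^ (0 + 1 + 1)) = 1 := by
      field_simp
      ring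
    rw [this, one_smul]
  have heq : pl = ql := no_two_cycle pl ql lam hl hpl hql hA' hq
  subst heq
  have hall : Tendsto p atTop (𝓝 pl) := tendsto_even_odd p pl h0 h1
  refine conv_of_tendsto 0 S hS p N hN hx _ tendsto_id (fun r => ⟨pl, hpl, ?_⟩)
  exact (hall.comp (tendsto_sub_atTop_nat (r + 1))).congr (fun j => by
    simp only [Function.comp]; congr 1)

end Pool.Agent.H.MP_e9f8c5_pr
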