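import Mathlib

set_option autoImplicit false

open scoped Topology
open Filter Set

namespace Pool.Agent.H.MP_e9f8c5_pr

/-- Analytic local inverse. -/
theorem exists_local_inverse {X : Type*} [NormedAddCommGroup X] [NormedSpace ℝ X]
    [CompleteSpace X] (Ψ : X → X) (z0 : X) (L : X ≃L[ℝ] X) (hΨ : AnalyticAt ℝ Ψ z0)
    (hs : HasStrictFDerivAt Ψ (L : X →L[ℝ] X) z0) :
    ∃ χ : X → X, AnalyticAt ℝ χ (Ψ z0) ∧ χ (Ψ z0) = z0 ∧ (∀ᶠ z in 𝓝 z0, χ (Ψ z) = z) := by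
  refine ⟨(hs.toOpenPartialHomeomorph Ψ).symm, ?_, ?_, hs.eventually_left_inverse⟩
  · obtain ⟨p, hp⟩ := hΨ
    have hx : z0 ∈ (hs.toOpenPartialHomeomorph Ψ).source :=
      hs.mem_toOpenPartialHomeomorph_source
    refine ((hs.toOpenPartialHomeomorph Ψ).hasFPowerSeriesAt_symm hx (p := p) (i := L)
      hp ?_).analyticAt
    have h1 : (continuousMultilinearCurryFin1 ℝ X X (p 1)) = (L : X →L[ℝ] X) :=
      hp.hasStrictFDerivAt.hasFDerivAt.unique hs.hasFDerivAt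
    rw [← h1]
    simp
  · exact hs.localInverse_apply_image

/-- Module NA (chart by the inverse function theorem). -/
theorem exists_chart {X : Type*} [NormedAddCommGroup X] [NormedSpace ℝ X] [CompleteSpace X]
    (F : X → X) (E : X → ℝ) (z0 : X) (hz0 : F z0 = 0)
    (hF : ∀ z, AnalyticAt ℝ F z) (hE : ∀ z, AnalyticAt ℝ E z)
    (hDE : ∀ R : ℝ, ∃ C : ℝ, ∀ z, ‖z‖ ≤ R → ‖fderiv ℝ E z‖ ≤ C * ‖F z‖)
    (P : X →L[ℝ] ℝ × ℝ) (J : ℝ × ℝ →L[ℝ] X) (L : X ≃L[ℝ] X)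
    (hL : ∀ h, L h = fderiv ℝ F z0 h + J (P h)) :
    ∃ (Γ : ℝ × ℝ → X) (ρ ρ' C : ℝ), 0 < ρ ∧ 0 < ρ' ∧ 0 < C ∧
      (∀ k, ‖k‖ < ρ → ContinuousAt Γ k) ∧
      (∀ k, ‖k‖ < ρ → AnalyticAt ℝ (fun k => E (Γ k)) k) ∧
      (∀ z, ‖z - z0‖ < ρ' → ‖P (z - z0)‖ < ρ) ∧
      (∀ z, ‖z - z0‖ < ρ' → F z = 0 → Γ (P (z - z0)) = z) ∧
      (∀ z, ‖z - z0‖ < ρ' → |E z - E (Γ (P (z - z0)))| ≤ C * ‖F z‖ ^ 2) ∧
      (∀ z, ‖z - z0‖ < ρ' →
        ‖fderiv ℝ (fun k => E (Γ k)) (P (z - z0))‖ ≤ C * ‖F z‖) := by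
  set Ψ : X → X := fun z => F z + J (P (z - z0)) with hΨdef
  have hΨ0 : Ψ z0 = 0 := by simp [hΨdef, hz0]
  have hJP : AnalyticAt ℝ (fun z => J (P (z - z0))) z0 :=
    ((J.comp P).analyticAt _).comp (analyticAt_id.sub analyticAt_const)
  have hΨa : AnalyticAt ℝ Ψ z0 := (hF z0).add hJP
  have hΨs : HasStrictFDerivAt Ψ (L : X →L[ℝ] X) z0 := by
    have h1 : HasStrictFDerivAt (fun z => J (P (z - z0))) (J.comp P) z0 := by
      have h2 : HasStrictFDerivAt (fun z : X => z - z0) (ContinuousLinearMap.id ℝ X) z0 :=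
        (hasStrictFDerivAt_id z0).sub_const z0
      have h3 := HasStrictFDerivAt.comp (g := fun z : X => (J.comp P) z)
        (f := fun z : X => z - z0) z0 ((J.comp P).hasStrictFDerivAt (x := z0 - z0)) h2
      rw [ContinuousLinearMap.comp_id] at h3
      exact h3
    have h4 := (hF z0).hasStrictFDerivAt.add h1
    have h5 : fderiv ℝ F z0 + J.comp P = (L : X →L[ℝ] X) := by
      ext h; simp [hL]
    rw [h5] at h4
    exact h4
  obtain ⟨χ, hχa, hχ0, hχΨ⟩ := exists_local_inverse Ψ z0 L hΨa hΨs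
  rw [hΨ0] at hχa hχ0
  obtain ⟨Kχ, s, hs, hsL⟩ := hχa.hasStrictFDerivAt.exists_lipschitzOnWith
  obtain ⟨KF, t, ht, htL⟩ := (hF z0).hasStrictFDerivAt.exists_lipschitzOnWith
  obtain ⟨CE, hCE⟩ := hDE (‖z0‖ + 1)
  -- δ
  obtain ⟨δ0, hδ0, hδ0t⟩ := Metric.mem_nhds_iff.1 (Filter.inter_mem ht hχΨ)
  set δ := min δ0 1 with hδ
  have hδpos : 0 < δ := lt_min hδ0 one_pos
  have hδt : Metric.ball z0 δ ⊆ t := fun z hz =>
    (hδ0t (Metric.ball_subset_ball (min_le_left _ _) hz)).1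
  have hδχ : ∀ z ∈ Metric.ball z0 δ, χ (Ψ z) = z := fun z hz =>
    (hδ0t (Metric.ball_subset_ball (min_le_left _ _) hz)).2
  have hδn : ∀ z ∈ Metric.ball z0 δ, ‖z‖ ≤ ‖z0‖ + 1 := by
    intro z hz
    rw [Metric.mem_ball, dist_eq_norm] at hz
    have h1 : ‖z - z0‖ ≤ 1 := hz.le.trans (min_le_right _ _)
    calc ‖z‖ = ‖z0 + (z - z0)‖ := by congr 1; abel
      _ ≤ ‖z0‖ + ‖z - z0‖ := norm_add_le _ _
      _ ≤ _ := by linarith
  -- η
  have hχδ : ∀ᶠ y in 𝓝 (0 : X), χ y ∈ Metric.ball z0 δ := by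
    have := hχa.continuousAt.eventually (Metric.ball_mem_nhds (χ 0) hδpos)
    rwa [hχ0] at this
  obtain ⟨η, hη, hηs⟩ := Metric.mem_nhds_iff.1
    (Filter.inter_mem hs (Filter.inter_mem hχδ hχa.eventually_analyticAt))
  have hη1 : ∀ y ∈ Metric.ball (0 : X) η, y ∈ s := fun y hy => (hηs hy).1
  have hη2 : ∀ y ∈ Metric.ball (0 : X) η, χ y ∈ Metric.ball z0 δ := fun y hy => (hηs hy).2.1
  have hη3 : ∀ y ∈ Metric.ball (0 : X) η, AnalyticAt ℝ χ y := fun y hy => (hηs hy).2.2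
  -- ρ
  have hJ0 : ∀ᶠ k in 𝓝 (0 : ℝ × ℝ), J k ∈ Metric.ball (0 : X) η := by
    have := J.continuous.continuousAt.eventually (Metric.ball_mem_nhds (J 0) hη)
    rwa [map_zero] at this
  obtain ⟨ρ, hρ, hρJ⟩ := Metric.mem_nhds_iff.1 hJ0
  have hρJ' : ∀ k : ℝ × ℝ, ‖k‖ < ρ → J k ∈ Metric.ball (0 : X) η := fun k hk =>
    hρJ (by simpa using hk)
  -- ρ'
  have hP0 : ∀ᶠ z in 𝓝 z0, ‖P (z - z0)‖ < ρ := by
    have h1 : ContinuousAt (fun z => ‖P (z - z0)‖) z0 := by fun_prop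
    have h2 : ‖P (z0 - z0)‖ < ρ := by simpa using hρ
    exact h1.eventually (gt_mem_nhds h2)
  have hΨ1 : ∀ᶠ z in 𝓝 z0, Ψ z ∈ Metric.ball (0 : X) η := by
    have := hΨa.continuousAt.eventually (Metric.ball_mem_nhds (Ψ z0) hη)
    rwa [hΨ0] at this
  obtain ⟨ρ', hρ', hρs⟩ := Metric.mem_nhds_iff.1
    (Filter.inter_mem (Metric.ball_mem_nhds z0 hδpos) (Filter.inter_mem hP0 hΨ1))
  have hr0 : ∀ z, ‖z - z0‖ < ρ' → z ∈ Metric.ball z0 ρ' := fun z hz => by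
    rwa [Metric.mem_ball, dist_eq_norm]
  have hr1 : ∀ z, ‖z - z0‖ < ρ' → z ∈ Metric.ball z0 δ := fun z hz => (hρs (hr0 z hz)).1
  have hr2 : ∀ z, ‖z - z0‖ < ρ' → ‖P (z - z0)‖ < ρ := fun z hz => (hρs (hr0 z hz)).2.1
  have hr3 : ∀ z, ‖z - z0‖ < ρ' → Ψ z ∈ Metric.ball (0 : X) η := fun z hz =>
    (hρs (hr0 z hz)).2.2
  -- constants
  set M : ℝ := 1 + KF * Kχ with hM
  have hM0 : 0 < M := by positivity
  -- basic estimates
  have hΓδ : ∀ z, ‖z - z0‖ < ρ' → χ (J (P (z - z0))) ∈ Metric.ball z0 δ := fun z hz =>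
    hη2 _ (hρJ' _ (hr2 z hz))
  have hdist : ∀ z, ‖z - z0‖ < ρ' → ‖χ (J (P (z - z0))) - z‖ ≤ Kχ * ‖F z‖ := by
    intro z hz
    have h1 := hsL.dist_le_mul (J (P (z - z0))) (hη1 _ (hρJ' _ (hr2 z hz))) (Ψ z)
      (hη1 _ (hr3 z hz))
    rw [hδχ z (hr1 z hz), dist_eq_norm, dist_eq_norm] at h1
    have h2 : ‖J (P (z - z0)) - Ψ z‖ = ‖F z‖ := by
      rw [hΨdef]
      simp only
      rw [← norm_neg]
      congr 1
      abel
    rwa [h2] at h1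
  have hFy : ∀ z, ‖z - z0‖ < ρ' → ∀ y ∈ Metric.ball z0 δ,
      ‖y - z‖ ≤ ‖χ (J (P (z - z0))) - z‖ → ‖F y‖ ≤ M * ‖F z‖ := by
    intro z hz y hy hyz
    have h1 := htL.dist_le_mul y (hδt hy) z (hδt (hr1 z hz))
    rw [dist_eq_norm, dist_eq_norm] at h1
    have h2 := hdist z hz
    calc ‖F y‖ = ‖F z + (F y - F z)‖ := by congr 1; abel
      _ ≤ ‖F z‖ + ‖F y - F z‖ := norm_add_le _ _
      _ ≤ ‖F z‖ + KF * ‖y - z‖ := by gcongr
      _ ≤ ‖F z‖ + KF * (Kχ * ‖F z‖) := by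
          gcongr
          exact hyz.trans h2
      _ = M * ‖F z‖ := by rw [hM]; ring
  refine ⟨fun k => χ (J k), ρ, ρ',
    |CE| * M * Kχ + |CE| * M * Kχ * ‖J‖ + 1, hρ, hρ', by positivity, ?_, ?_, hr2, ?_, ?_, ?_⟩
  · intro k hk
    exact ContinuousAt.comp (f := fun k => J k) (hη3 _ (hρJ' k hk)).continuousAt
      J.continuous.continuousAt
  · intro k hk
    exact (hE _).fun_comp ((hη3 _ (hρJ' k hk)).fun_comp (J.analyticAt k))
  · intro z hz hFz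
    have h1 := hδχ z (hr1 z hz)
    rw [hΨdef] at h1
    simpa [hFz] using h1
  · intro z hz
    set w := χ (J (P (z - z0))) with hw
    have hconv : Convex ℝ (Metric.ball z0 δ ∩ Metric.closedBall z ‖w - z‖) :=
      (convex_ball z0 δ).inter (convex_closedBall z _)
    have hb : ∀ y ∈ Metric.ball z0 δ ∩ Metric.closedBall z ‖w - z‖,
        ‖fderiv ℝ E y‖ ≤ |CE| * (M * ‖F z‖) := by
      intro y hy
      have h1 := hCE y (hδn y hy.1)
      have h2 := hFy z hz y hy.1 (by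
        have := hy.2
        rwa [Metric.mem_closedBall, dist_eq_norm] at this)
      calc ‖fderiv ℝ E y‖ ≤ CE * ‖F y‖ := h1
        _ ≤ |CE| * ‖F y‖ := by gcongr; exact le_abs_self _
        _ ≤ _ := by gcongr
    have h3 := hconv.norm_image_sub_le_of_norm_fderiv_le (𝕜 := ℝ) (f := E)
      (fun y _ => (hE y).differentiableAt) hb (x := w) (y := z)
      ⟨hΓδ z hz, by rw [Metric.mem_closedBall, dist_eq_norm]⟩
      ⟨hr1 z hz, by simp⟩
    rw [Real.norm_eq_abs] at h3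
    have h4 : ‖z - w‖ ≤ Kχ * ‖F z‖ := by rw [norm_sub_rev]; exact hdist z hz
    calc |E z - E w| ≤ |CE| * (M * ‖F z‖) * ‖z - w‖ := h3
      _ ≤ |CE| * (M * ‖F z‖) * (Kχ * ‖F z‖) := by gcongr
      _ = |CE| * M * Kχ * ‖F z‖ ^ 2 := by ring
      _ ≤ _ := by
          gcongr
          have : 0 ≤ |CE| * M * Kχ * ‖J‖ := by positivity
          linarith
  · intro z hz
    set k := P (z - z0) with hk
    have hkρ := hr2 z hz
    have hχk := hη3 _ (hρJ' k hkρ)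
    have hd1 : HasFDerivAt χ (fderiv ℝ χ (J k)) (J k) := hχk.differentiableAt.hasFDerivAt
    have hd2 : HasFDerivAt (fun k => χ (J k)) ((fderiv ℝ χ (J k)).comp J) k :=
      hd1.comp k J.hasFDerivAt
    have hd3 : HasFDerivAt (fun k => E (χ (J k)))
        ((fderiv ℝ E (χ (J k))).comp ((fderiv ℝ χ (J k)).comp J)) k :=
      ((hE (χ (J k))).differentiableAt.hasFDerivAt).comp k hd2
    rw [hd3.fderiv]
    have h1 : ‖fderiv ℝ χ (J k)‖ ≤ Kχ := by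
      have hmem : Metric.ball (0 : X) η ∈ 𝓝 (J k) :=
        Metric.isOpen_ball.mem_nhds (hρJ' k hkρ)
      exact norm_fderiv_le_of_lipschitzOn ℝ (Filter.mem_of_superset hmem hη1) hsL
    have h2 : ‖fderiv ℝ E (χ (J k))‖ ≤ |CE| * (M * ‖F z‖) := by
      have h3 := hCE _ (hδn _ (hΓδ z hz))
      have h4 := hFy z hz _ (hΓδ z hz) le_rfl
      calc ‖fderiv ℝ E (χ (J k))‖ ≤ CE * ‖F (χ (J k))‖ := h3
        _ ≤ |CE| * ‖F (χ (J k))‖ := by gcongr; exact le_abs_self _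
        _ ≤ _ := by gcongr
    calc ‖(fderiv ℝ E (χ (J k))).comp ((fderiv ℝ χ (J k)).comp J)‖
        ≤ ‖fderiv ℝ E (χ (J k))‖ * (‖fderiv ℝ χ (J k)‖ * ‖J‖) :=
          (ContinuousLinearMap.opNorm_comp_le _ _).trans (by
            gcongr
            exact ContinuousLinearMap.opNorm_comp_le _ _)
      _ ≤ (|CE| * (M * ‖F z‖)) * (Kχ * ‖J‖) := by gcongr
      _ = |CE| * M * Kχ * ‖J‖ * ‖F z‖ := by ring
      _ ≤ _ := by
          gcongr
          have : 0 ≤ |CE| * M * Kχ := by positivity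
          linarith

end Pool.Agent.H.MP_e9f8c5_pr
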